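import Mathlib

set_option autoImplicit false

/-!
# The Hilbert-Schmidt argument
-/

namespace Pool.Agent.Proj

open Filter Topology Set
open scoped InnerProductSpace

theorem hs_abs {E : Type} [NormedAddCommGroup E] [InnerProductSpace ℝ E] [FiniteDimensional ℝ E]
    {ι : Type} [Fintype ι] (b : OrthonormalBasis ι ℝ E) (L : E →ₗ[ℝ] E) {φ : E} {κ : ℝ}
    (hκ : κ ≠ 0) (hφ : φ ≠ 0) (hL : ∀ t, ⟪φ, L t⟫_ℝ = κ * ⟪φ, t⟫_ℝ) (c : ℝ) :
    2 * (c * ∑ j, ⟪b j, L (b j)⟫_ℝ - κ) ≤ ∑ j, ‖L (b j)‖ ^ 2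
      + (c ^ 2 * Module.finrank ℝ (LinearMap.range L) + (1 - 2 * c)) := by
  set W := LinearMap.range L with hW
  set ψ : E := W.starProjection φ with hψ
  have hsym : ∀ u v : E, ⟪W.starProjection u, v⟫_ℝ = ⟪u, W.starProjection v⟫_ℝ :=
    fun u v => W.inner_starProjection_left_eq_right u v
  have hWL : ∀ t, W.starProjection (L t) = L t := fun t =>
    W.starProjection_eq_self_iff.2 ⟨t, rfl⟩
  have hWW : ∀ t, W.starProjection (W.starProjection t) = W.starProjection t := fun t =>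
    W.starProjection_eq_self_iff.2 (W.starProjection_apply_mem t)
  have hψL : ∀ t, ⟪ψ, L t⟫_ℝ = κ * ⟪φ, t⟫_ℝ := by
    intro t
    rw [hψ, hsym, hWL, hL]
  have hψ0 : ψ ≠ 0 := by
    intro h0
    have h1 := hψL φ
    rw [h0, inner_zero_left, real_inner_self_eq_norm_sq] at h1
    have h2 : ‖φ‖ ^ 2 = 0 := by
      rcases mul_eq_zero.1 h1.symm with h | h
      · exact absurd h hκ
      · exact h
    exact hφ (norm_eq_zero.1 (pow_eq_zero_iff (two_ne_zero) |>.1 h2))
  have hψn : 0 < ‖ψ‖ ^ 2 := by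
    have := norm_pos_iff.2 hψ0
    positivity
  have hψφ : ⟪ψ, φ⟫_ℝ = ‖ψ‖ ^ 2 := by
    rw [← real_inner_self_eq_norm_sq]
    conv_rhs => rw [hψ, hsym, hWW, ← hsym]
  have hPψ : ∀ v, ⟪W.starProjection v, ψ⟫_ℝ = ⟪ψ, v⟫_ℝ := by
    intro v
    rw [hsym, hψ, hWW, ← hψ, real_inner_comm]
  set S : E → E := fun v => c • W.starProjection v - (⟪ψ, v⟫_ℝ / ‖ψ‖ ^ 2) • ψ with hS
  -- inner products with L
  have h1 : ∀ v, ⟪L v, S v⟫_ℝ = c * ⟪v, L v⟫_ℝ - κ * (⟪ψ, v⟫_ℝ * ⟪v, φ⟫_ℝ) / ‖ψ‖ ^ 2 := by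
    intro v
    rw [hS]
    simp only
    rw [inner_sub_right, inner_smul_right, inner_smul_right, ← hsym, hWL, real_inner_comm v (L v),
      real_inner_comm ψ (L v), hψL, real_inner_comm v φ]
    ring
  have h2 : ∀ v, ‖S v‖ ^ 2 = c ^ 2 * ⟪v, W.starProjection v⟫_ℝ
      + (1 - 2 * c) * (⟪ψ, v⟫_ℝ * ⟪v, ψ⟫_ℝ) / ‖ψ‖ ^ 2 := by
    intro v
    have h3 : ‖W.starProjection v‖ ^ 2 = ⟪v, W.starProjection v⟫_ℝ := by
      rw [← real_inner_self_eq_norm_sq, hsym, hWW]
    rw [hS]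
    simp only
    rw [norm_sub_sq_real, norm_smul, norm_smul, inner_smul_left, inner_smul_right, hPψ,
      mul_pow, mul_pow, h3, real_inner_comm v ψ]
    simp only [Real.norm_eq_abs, sq_abs, conj_trivial]
    field_simp
    ring
  have htr : ∑ j, ⟪b j, W.starProjection (b j)⟫_ℝ = Module.finrank ℝ W := by
    have h3 := LinearMap.trace_eq_sum_inner (W.starProjection : E →ₗ[ℝ] E) b
    have hproj : LinearMap.IsProj W (W.starProjection : E →ₗ[ℝ] E) :=
      ⟨fun v => W.starProjection_apply_mem v, fun v hv => W.starProjection_eq_self_iff.2 hv⟩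
    rw [hproj.trace] at h3
    rw [h3]; rfl
  have hc1 : ∑ j, ⟪L (b j), S (b j)⟫_ℝ = c * ∑ j, ⟪b j, L (b j)⟫_ℝ - κ := by
    simp_rw [h1]
    rw [Finset.sum_sub_distrib, ← Finset.mul_sum, ← Finset.sum_div, ← Finset.mul_sum,
      b.sum_inner_mul_inner, hψφ, mul_div_assoc, div_self hψn.ne', mul_one]
  have hc3 : ∑ j, ‖S (b j)‖ ^ 2 = c ^ 2 * Module.finrank ℝ W + (1 - 2 * c) := by
    simp_rw [h2]
    rw [Finset.sum_add_distrib, ← Finset.mul_sum, htr, ← Finset.sum_div, ← Finset.mul_sum,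
      b.sum_inner_mul_inner, real_inner_self_eq_norm_sq, mul_div_assoc, div_self hψn.ne', mul_one]
  have hc4 : ∑ j, 2 * ⟪L (b j), S (b j)⟫_ℝ ≤ ∑ j, (‖L (b j)‖ ^ 2 + ‖S (b j)‖ ^ 2) := by
    refine Finset.sum_le_sum fun j _ => ?_
    have h3 := real_inner_le_norm (L (b j)) (S (b j))
    nlinarith [sq_nonneg (‖L (b j)‖ - ‖S (b j)‖)]
  rw [← Finset.mul_sum, Finset.sum_add_distrib, hc1, hc3] at hc4
  exact hc4

theorem hs_step {X : Type} [NormedAddCommGroup X] [NormedSpace ℝ X] [FiniteDimensional ℝ X]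
    {n : ℕ} (hn : 3 ≤ n) (hX : Module.finrank ℝ X = n) {f : X →L[ℝ] ℝ} {z₀ : X} (hz : f z₀ = 1)
    {ι : Type} [Fintype ι] {w : ι → ℝ} {x : ι → X} {g : ι → X →L[ℝ] ℝ} (hw : ∀ i, 0 < w i)
    (hsum : ∑ i, w i = 1) (hx : ∀ i, ‖x i‖ ≤ 1) (hg : ∀ i, ‖g i‖ ≤ 1)
    (hker : ∀ v, f v = 0 → ∑ i, w i * (f (x i) * g i v) = 0)
    (hlam : 2 - 2 / (n : ℝ) ≤ ∑ i, w i * (g i (x i) - f (x i) * g i z₀)) :
    (∀ i j, |g i (x j)| = 1) ∧ (∀ v, (∀ i, g i v = 0) → v = 0) ∧
      (∀ h : X →L[ℝ] ℝ, (∀ j, h (x j) = 0) → h = 0) := by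
  classical
  have hn' : (3 : ℝ) ≤ n := by exact_mod_cast hn
  have hn0 : (n : ℝ) ≠ 0 := by linarith
  have hgx : ∀ i j, |g i (x j)| ≤ 1 := by
    intro i j
    calc |g i (x j)| ≤ ‖g i‖ * ‖x j‖ := (g i).le_opNorm _
      _ ≤ 1 * 1 := mul_le_mul (hg i) (hx j) (norm_nonneg _) zero_le_one
      _ = 1 := one_mul 1
  set r : ι → ℝ := fun i => Real.sqrt (w i) with hr
  have hrr : ∀ i, r i * r i = w i := fun i => Real.mul_self_sqrt (hw i).le
  have hr0 : ∀ i, 0 < r i := fun i => Real.sqrt_pos.2 (hw i)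
  set A : X →ₗ[ℝ] EuclideanSpace ℝ ι :=
    { toFun := fun v => WithLp.toLp 2 (fun i => r i * g i v)
      map_add' := fun u v => by
        ext i
        simp only [map_add, PiLp.add_apply]
        ring
      map_smul' := fun a v => by
        ext i
        simp only [map_smul, PiLp.smul_apply, smul_eq_mul, RingHom.id_apply]
        ring } with hA
  have hAa : ∀ v i, A v i = r i * g i v := fun v i => rfl
  set T : EuclideanSpace ℝ ι →ₗ[ℝ] X :=
    { toFun := fun t => ∑ j, (r j * t j) • x j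
      map_add' := fun s t => by
        rw [← Finset.sum_add_distrib]
        refine Finset.sum_congr rfl fun j _ => ?_
        rw [PiLp.add_apply]; module
      map_smul' := fun a t => by
        rw [RingHom.id_apply, Finset.smul_sum]
        refine Finset.sum_congr rfl fun j _ => ?_
        rw [PiLp.smul_apply, smul_eq_mul]; module } with hT
  have hTa : ∀ t, T t = ∑ j, (r j * t j) • x j := fun t => rfl
  set L : EuclideanSpace ℝ ι →ₗ[ℝ] EuclideanSpace ℝ ι := A ∘ₗ T with hL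
  set b := EuclideanSpace.basisFun ι ℝ with hb
  set φ : EuclideanSpace ℝ ι := WithLp.toLp 2 (fun j => r j * f (x j)) with hφdef
  have hφa : ∀ j, φ j = r j * f (x j) := fun j => rfl
  set κ : ℝ := ∑ i, w i * (f (x i) * g i z₀) with hκdef
  have hinner : ∀ s t : EuclideanSpace ℝ ι, ⟪s, t⟫_ℝ = ∑ i, s i * t i := by
    intro s t
    rw [PiLp.inner_apply]
    refine Finset.sum_congr rfl fun i _ => ?_
    simp [mul_comm]
  -- the functional
  have hh : ∀ v, ∑ i, w i * (f (x i) * g i v) = κ * f v := by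
    intro v
    have h1 := hker (v - f v • z₀) (by rw [map_sub, map_smul, hz, smul_eq_mul, mul_one, sub_self])
    have h2 : ∀ i, w i * (f (x i) * g i (v - f v • z₀))
        = w i * (f (x i) * g i v) - f v * (w i * (f (x i) * g i z₀)) := by
      intro i
      rw [map_sub, map_smul, smul_eq_mul]; ring
    simp_rw [h2] at h1
    rw [Finset.sum_sub_distrib, ← Finset.mul_sum, ← hκdef] at h1
    linarith
  have hφL : ∀ t, ⟪φ, L t⟫_ℝ = κ * ⟪φ, t⟫_ℝ := by
    intro t
    have h1 : ⟪φ, L t⟫_ℝ = ∑ i, w i * (f (x i) * g i (T t)) := by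
      rw [hinner]
      refine Finset.sum_congr rfl fun i _ => ?_
      rw [hφa, ← hrr i]
      show r i * f (x i) * (r i * g i (T t)) = _
      ring
    rw [h1, hh, hinner, hTa, map_sum]
    congr 1
    refine Finset.sum_congr rfl fun j _ => ?_
    rw [map_smul, smul_eq_mul, hφa]; ring
  set τ : ℝ := ∑ i, w i * g i (x i) with hτ
  have hlam' : 2 - 2 / (n : ℝ) ≤ τ - κ := by
    have h1 : ∑ i, w i * (g i (x i) - f (x i) * g i z₀) = τ - κ := by
      rw [hτ, hκdef, ← Finset.sum_sub_distrib]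
      refine Finset.sum_congr rfl fun i _ => ?_
      ring
    rwa [h1] at hlam
  have hτ1 : τ ≤ 1 := by
    rw [hτ, ← hsum]
    refine Finset.sum_le_sum fun i _ => ?_
    have h1 := hgx i i
    have h2 := le_abs_self (g i (x i))
    have h3 := hw i
    nlinarith
  have hnlt : 2 / (n : ℝ) < 1 := by rw [div_lt_one (by linarith)]; linarith
  have hκ : κ ≠ 0 := by
    intro h0
    rw [h0] at hlam'
    linarith
  have hφ0 : φ ≠ 0 := by
    intro h0
    apply hκ
    rw [hκdef]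
    refine Finset.sum_eq_zero fun i _ => ?_
    have h1 : φ i = 0 := by rw [h0]; rfl
    rw [hφa] at h1
    have h2 : f (x i) = 0 := by
      rcases mul_eq_zero.1 h1 with h | h
      · exact absurd h (hr0 i).ne'
      · exact h
    rw [h2]; ring
  have hmain := hs_abs b L hκ hφ0 hφL (2 / (n : ℝ))
  have hTb : ∀ j, T (b j) = r j • x j := by
    intro j
    rw [hTa, Finset.sum_eq_single j]
    · rw [hb, EuclideanSpace.basisFun_apply]; simp
    · intro k _ hk
      rw [hb, EuclideanSpace.basisFun_apply]; simp [hk]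
    · intro h; exact absurd (Finset.mem_univ j) h
  have hLb : ∀ j i, L (b j) i = r i * (r j * g i (x j)) := by
    intro j i
    show A (T (b j)) i = _
    rw [hAa, hTb, map_smul, smul_eq_mul]
  have htrL : ∑ j, ⟪b j, L (b j)⟫_ℝ = τ := by
    rw [hτ]
    refine Finset.sum_congr rfl fun j _ => ?_
    rw [hb, EuclideanSpace.basisFun_inner, ← hb, hLb, ← hrr j]; ring
  have hHS : ∑ j, ‖L (b j)‖ ^ 2 = ∑ j, ∑ i, w i * w j * (g i (x j)) ^ 2 := by
    refine Finset.sum_congr rfl fun j _ => ?_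
    rw [EuclideanSpace.real_norm_sq_eq]
    refine Finset.sum_congr rfl fun i _ => ?_
    rw [hLb, ← hrr i, ← hrr j]; ring
  rw [htrL] at hmain
  set d := Module.finrank ℝ (LinearMap.range L) with hd
  have hrangeA : LinearMap.range L ≤ LinearMap.range A := LinearMap.range_comp_le_range _ _
  have hdA : d ≤ Module.finrank ℝ (LinearMap.range A) := Submodule.finrank_mono hrangeA
  have hrnA := A.finrank_range_add_finrank_ker
  have hdn : d ≤ n := by omega
  have hdn' : (d : ℝ) ≤ n := by exact_mod_cast hdn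
  have hsumw : ∑ j, ∑ i, w i * w j = 1 := by
    simp_rw [← Finset.sum_mul]
    rw [hsum]; simp [hsum]
  have hHSle : ∑ j, ∑ i, w i * w j * (g i (x j)) ^ 2 ≤ 1 := by
    rw [← hsumw]
    refine Finset.sum_le_sum fun j _ => Finset.sum_le_sum fun i _ => ?_
    have h1 := hgx i j
    have h2 : (g i (x j)) ^ 2 ≤ 1 := by
      rw [← sq_abs]; exact pow_le_one₀ (abs_nonneg _) h1
    have h3 := mul_pos (hw i) (hw j)
    nlinarith
  have hlow : 2 * 1 ≤ 2 * (2 / (n : ℝ) * τ - κ) := by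
    have h1 : (1 - 2 / (n : ℝ)) * τ ≤ (1 - 2 / (n : ℝ)) * 1 :=
      mul_le_mul_of_nonneg_left hτ1 (by linarith)
    nlinarith
  rw [hHS] at hmain
  have hc : (2 / (n : ℝ)) ^ 2 * d + (1 - 2 * (2 / (n : ℝ))) = 1 - 4 / (n : ℝ) ^ 2 * (n - d) := by
    field_simp; ring
  rw [hc] at hmain
  have h4 : 0 < 4 / (n : ℝ) ^ 2 := by positivity
  have h5 : 0 ≤ 4 / (n : ℝ) ^ 2 * (n - d) := mul_nonneg h4.le (by linarith)
  have hHS1 : ∑ j, ∑ i, w i * w j * (g i (x j)) ^ 2 = 1 := by linarith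
  have hdeq : (d : ℝ) = n := by
    have h6 : 4 / (n : ℝ) ^ 2 * (n - d) = 0 := by linarith
    rcases mul_eq_zero.1 h6 with h | h
    · linarith
    · linarith
  have hdeq' : d = n := by exact_mod_cast hdeq
  refine ⟨?_, ?_, ?_⟩
  · -- all values have modulus one
    have h6 : ∑ j, ∑ i, w i * w j * (1 - (g i (x j)) ^ 2) = 0 := by
      have : ∀ j i, w i * w j * (1 - (g i (x j)) ^ 2)
          = w i * w j - w i * w j * (g i (x j)) ^ 2 := by intro j i; ring
      simp_rw [this, Finset.sum_sub_distrib]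
      rw [hsumw, hHS1, sub_self]
    have hnn : ∀ j i, 0 ≤ w i * w j * (1 - (g i (x j)) ^ 2) := by
      intro j i
      have h2 : (g i (x j)) ^ 2 ≤ 1 := by
        rw [← sq_abs]; exact pow_le_one₀ (abs_nonneg _) (hgx i j)
      exact mul_nonneg (mul_pos (hw i) (hw j)).le (by linarith)
    intro i j
    have h7 := (Finset.sum_eq_zero_iff_of_nonneg
      (fun j _ => Finset.sum_nonneg fun i _ => hnn j i)).1 h6 j (Finset.mem_univ j)
    have h8 := (Finset.sum_eq_zero_iff_of_nonneg (fun i _ => hnn j i)).1 h7 i (Finset.mem_univ i)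
    rcases mul_eq_zero.1 h8 with h | h
    · exact absurd h (mul_pos (hw i) (hw j)).ne'
    · have h9 : |g i (x j)| ^ 2 = 1 := by rw [sq_abs]; linarith
      exact (pow_eq_one_iff_of_nonneg (abs_nonneg _) two_ne_zero).1 h9
  · intro v hv
    have h6 : Module.finrank ℝ (LinearMap.ker A) = 0 := by omega
    have h7 : LinearMap.ker A = ⊥ := Submodule.finrank_eq_zero.1 h6
    have h8 : v ∈ LinearMap.ker A := by
      rw [LinearMap.mem_ker]
      ext i
      rw [hAa, hv i, mul_zero]; rfl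
    rw [h7] at h8
    exact (Submodule.mem_bot ℝ).1 h8
  · intro h hh0
    have h6 : LinearMap.range L = (LinearMap.range T).map A := LinearMap.range_comp _ _
    have h7 : d ≤ Module.finrank ℝ (LinearMap.range T) := by
      rw [hd, h6]
      exact Submodule.finrank_map_le A _
    have h8 : LinearMap.range T = ⊤ := by
      apply Submodule.eq_top_of_finrank_eq
      apply le_antisymm (Submodule.finrank_le _)
      omega
    ext v
    have h9 : v ∈ LinearMap.range T := by rw [h8]; exact Submodule.mem_top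
    obtain ⟨t, rfl⟩ := h9
    rw [hTa, map_sum]
    simp [hh0]

end Pool.Agent.Proj
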