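import Pool.Agent.Work.MP_30cf1a_an.Lower1
import Pool.Agent.Work.MP_30cf1a_an.Lower2

set_option autoImplicit false

/-!
# Extremal spaces have a two-dimensional one-complemented subspace
-/

namespace Pool.Agent.Proj

open Filter Topology Set

theorem abs_add_abs_le {a b M : ℝ} (ha : |a| ≤ M) (hb : |b| ≤ M) :
    |(a + b) / 2| + |(a - b) / 2| ≤ M := by
  rw [abs_le] at ha hb
  rcases abs_cases ((a + b) / 2) with ⟨h1, _⟩ | ⟨h1, _⟩ <;>
    rcases abs_cases ((a - b) / 2) with ⟨h2, _⟩ | ⟨h2, _⟩ <;>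
    rw [h1, h2] <;> linarith [ha.1, ha.2, hb.1, hb.2]

theorem mul_cases {a b : ℝ} (ha : |a| = 1) (hb : |b| = 1) :
    (a * b = 1 ∧ a = b) ∨ (a * b = -1 ∧ a = -b) := by
  rcases eq_or_eq_neg_of_abs_eq ha with h1 | h1 <;>
    rcases eq_or_eq_neg_of_abs_eq hb with h2 | h2 <;> rw [h1, h2] <;> norm_num

theorem exists_two_dim {X : Type} [NormedAddCommGroup X] [NormedSpace ℝ X] {n : ℕ} (hn : 3 ≤ n)
    (hX : IsExtremal n X) : ∃ Z : Submodule ℝ X, Module.finrank ℝ Z = 2 ∧ relProj Z = 1 := by
  obtain ⟨hfin, hdim, Y, hYdim, hY⟩ := hX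
  -- a functional with kernel `Y`
  have hYlt : Y < ⊤ := by
    rw [lt_top_iff_ne_top]
    intro h0
    rw [h0, finrank_top, hdim] at hYdim
    omega
  obtain ⟨f0, hf0, hle⟩ := Y.exists_le_ker_of_lt_top hYlt
  have hkerdim := Module.Dual.finrank_ker_add_one_of_ne_zero (f := f0) hf0
  have hYker : Y = LinearMap.ker f0 := by
    apply Submodule.eq_of_le_of_finrank_eq hle
    omega
  set f : X →L[ℝ] ℝ := LinearMap.toContinuousLinearMap f0 with hf
  have hfker : LinearMap.ker (f : X →ₗ[ℝ] ℝ) = Y := by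
    rw [hYker]; rfl
  obtain ⟨z₀, hz⟩ : ∃ z, f z = 1 := by
    obtain ⟨z, hz⟩ := LinearMap.surjective hf0 1
    exact ⟨z, hz⟩
  obtain ⟨ι, hι, w, x, g, hw, hsum, hx, hg, hker, hlam⟩ := minimax (f := f) hz
    (lam := 2 - 2 / (n : ℝ)) (fun P hP => by
      rw [hfker] at hP
      rw [← hY]
      exact relProj_le hP)
  obtain ⟨h1, h2, h3⟩ := hs_step hn hdim hz hw hsum hx hg hker hlam
  have hne : Nonempty ι := by
    by_contra hcon
    rw [not_nonempty_iff] at hcon
    simp at hsum
  obtain ⟨i⟩ := hne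
  obtain ⟨v, hv, hv0⟩ : ∃ v, g i v = 0 ∧ v ≠ 0 := by
    have hk : LinearMap.ker (g i : X →ₗ[ℝ] ℝ) ≠ ⊥ := by
      apply LinearMap.ker_ne_bot_of_finrank_lt
      rw [Module.finrank_self]; omega
    obtain ⟨v, hv1, hv2⟩ := (Submodule.ne_bot_iff _).1 hk
    exact ⟨v, hv1, hv2⟩
  obtain ⟨j, hj⟩ : ∃ j, g j v ≠ 0 := by
    by_contra hcon
    push Not at hcon
    exact hv0 (h2 v hcon)
  obtain ⟨k, hk⟩ : ∃ k, g i (x k) * g j (x k) = -1 := by
    by_contra hcon
    push Not at hcon
    have h4 : g i - g j = 0 := h3 _ fun k => by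
      rcases mul_cases (h1 i k) (h1 j k) with h | h
      · rw [_root_.sub_apply, h.2, sub_self]
      · exact absurd h.1 (hcon k)
    have h5 : (g i - g j) v = 0 := by rw [h4]; rfl
    rw [_root_.sub_apply, hv, zero_sub, neg_eq_zero] at h5
    exact hj h5
  obtain ⟨l, hl⟩ : ∃ l, g i (x l) * g j (x l) = 1 := by
    by_contra hcon
    push Not at hcon
    have h4 : g i + g j = 0 := h3 _ fun k => by
      rcases mul_cases (h1 i k) (h1 j k) with h | h
      · exact absurd h.1 (hcon k)
      · rw [_root_.add_apply, h.2, neg_add_cancel]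
    have h5 : (g i + g j) v = 0 := by rw [h4]; rfl
    rw [_root_.add_apply, hv, zero_add] at h5
    exact hj h5
  have hsq : ∀ m, g i (x m) * g i (x m) = 1 := fun m => by
    rw [← abs_mul_abs_self, h1 i m, one_mul]
  set p : X := g i (x l) • x l with hp
  set q : X := g i (x k) • x k with hq
  have hpn : ‖p‖ ≤ 1 := by
    rw [hp, norm_smul, Real.norm_eq_abs, h1 i l, one_mul]; exact hx l
  have hqn : ‖q‖ ≤ 1 := by
    rw [hq, norm_smul, Real.norm_eq_abs, h1 i k, one_mul]; exact hx k
  have hip : g i p = 1 := by rw [hp, map_smul, smul_eq_mul, hsq]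
  have hiq : g i q = 1 := by rw [hq, map_smul, smul_eq_mul, hsq]
  have hjp : g j p = 1 := by rw [hp, map_smul, smul_eq_mul, hl]
  have hjq : g j q = -1 := by rw [hq, map_smul, smul_eq_mul, hk]
  clear_value p q
  set Z : Submodule ℝ X := Submodule.span ℝ (Set.range ![p, q]) with hZ
  have hpZ : p ∈ Z := Submodule.subset_span ⟨0, rfl⟩
  have hqZ : q ∈ Z := Submodule.subset_span ⟨1, rfl⟩
  have hind : LinearIndependent ℝ ![p, q] := by
    rw [LinearIndependent.pair_iff]
    intro s t hst
    have h4 := congrArg (g i) hst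
    have h5 := congrArg (g j) hst
    rw [map_add, map_smul, map_smul, hip, hiq, map_zero, smul_eq_mul, smul_eq_mul] at h4
    rw [map_add, map_smul, map_smul, hjp, hjq, map_zero, smul_eq_mul, smul_eq_mul] at h5
    constructor <;> linarith
  have hZdim : Module.finrank ℝ Z = 2 := by
    rw [hZ, finrank_span_eq_card hind, Fintype.card_fin]
  refine ⟨Z, hZdim, le_antisymm ?_ ?_⟩
  · set P : X →L[ℝ] X := ((1 / 2 : ℝ) • (g i + g j)).smulRight p
      + ((1 / 2 : ℝ) • (g i - g j)).smulRight q with hP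
    have hPa : ∀ v, P v = ((g i v + g j v) / 2) • p + ((g i v - g j v) / 2) • q := by
      intro v
      rw [hP]
      simp only [_root_.add_apply, ContinuousLinearMap.smulRight_apply, _root_.smul_apply,
        _root_.sub_apply, smul_eq_mul]
      congr 2 <;> ring
    have hproj : IsProjOnto P Z := by
      rw [isProjOnto_iff]
      constructor
      · intro v
        rw [hPa]
        exact Z.add_mem (Z.smul_mem _ hpZ) (Z.smul_mem _ hqZ)
      · intro y hy
        have hPp : P p = p := by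
          rw [hPa, hip, hjp]; norm_num
        have hPq : P q = q := by
          rw [hPa, hiq, hjq]; norm_num
        refine Submodule.span_induction (p := fun y _ => P y = y) ?_ ?_ ?_ ?_ hy
        · rintro _ ⟨a, rfl⟩
          fin_cases a
          · exact hPp
          · exact hPq
        · exact map_zero P
        · intro a b _ _ ha hb
          rw [map_add, ha, hb]
        · intro a y _ hy
          rw [map_smul, hy]
    refine (relProj_le hproj).trans ?_
    refine ContinuousLinearMap.opNorm_le_bound _ zero_le_one fun v => ?_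
    rw [hPa, one_mul]
    have hgv : ∀ m, |g m v| ≤ ‖v‖ := fun m => by
      calc |g m v| ≤ ‖g m‖ * ‖v‖ := (g m).le_opNorm v
        _ ≤ 1 * ‖v‖ := mul_le_mul_of_nonneg_right (hg m) (norm_nonneg _)
        _ = ‖v‖ := one_mul _
    calc ‖((g i v + g j v) / 2) • p + ((g i v - g j v) / 2) • q‖
        ≤ ‖((g i v + g j v) / 2) • p‖ + ‖((g i v - g j v) / 2) • q‖ := norm_add_le _ _
      _ = |(g i v + g j v) / 2| * ‖p‖ + |(g i v - g j v) / 2| * ‖q‖ := by
          rw [norm_smul, norm_smul, Real.norm_eq_abs, Real.norm_eq_abs]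
      _ ≤ |(g i v + g j v) / 2| * 1 + |(g i v - g j v) / 2| * 1 :=
          add_le_add (mul_le_mul_of_nonneg_left hpn (abs_nonneg _))
            (mul_le_mul_of_nonneg_left hqn (abs_nonneg _))
      _ ≤ ‖v‖ := by
          rw [mul_one, mul_one]
          exact abs_add_abs_le (hgv i) (hgv j)
  · apply le_relProj
    intro P hP
    have h4 := hP.2 p hpZ
    have hp0 : 0 < ‖p‖ := by
      rw [norm_pos_iff]
      intro h0
      rw [h0, map_zero] at hip
      exact zero_ne_one hip
    have h5 := P.le_opNorm p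
    rw [h4] at h5
    by_contra hlt
    push Not at hlt
    nlinarith

end Pool.Agent.Proj
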