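import Pool.Agent.Work.MP_30cf1a_an.Walls2

set_option autoImplicit false

/-!
# The smooth part of the body
-/

namespace Pool.Agent.Proj

open Filter Topology Set

theorem even_tangent (m : ℕ) (hm : 1 ≤ m) (x y : ℝ) :
    x ^ (2 * m) + (2 * m : ℝ) * x ^ (2 * m - 1) * (y - x) ≤ y ^ (2 * m) := by
  have hy : 0 ≤ y ^ (2 * m) := by rw [pow_mul]; positivity
  by_cases hx : x = 0
  · rw [hx, zero_pow (by omega), zero_pow (by omega)]
    linarith
  · have hxe : 0 < x ^ (2 * m) := by rw [pow_mul]; positivity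
    have hxx : x ^ (2 * m) = x ^ (2 * m - 1) * x := by
      rw [← pow_succ]; congr 1; omega
    have key : 1 + (2 * m : ℝ) * (y / x - 1) ≤ (y / x) ^ (2 * m) := by
      rcases le_or_gt (-2) (y / x - 1) with h | h
      · have h1 := one_add_mul_le_pow h (2 * m)
        rw [add_sub_cancel] at h1
        push_cast at h1
        linarith
      · have h2 : 0 ≤ (y / x) ^ (2 * m) := by rw [pow_mul]; positivity
        have h3 : (1 : ℝ) ≤ m := by exact_mod_cast hm
        nlinarith
    rw [div_pow, le_div_iff₀ hxe] at key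
    have h3 : (1 + (2 * m : ℝ) * (y / x - 1)) * x ^ (2 * m)
        = x ^ (2 * m) + (2 * m : ℝ) * x ^ (2 * m - 1) * (y - x) := by
      rw [hxx]; field_simp
    linarith

/-- The exponents. -/
noncomputable def gam (i : ℕ) : ℝ := 1 - 1 / ((i : ℝ) + 2)

theorem gam_pos (i : ℕ) : 0 < gam i := by
  unfold gam
  rw [sub_pos, div_lt_one (by positivity)]
  have : (0 : ℝ) ≤ i := Nat.cast_nonneg i
  linarith

theorem gam_lt (i : ℕ) : gam i < 1 := by
  unfold gam
  have : 0 < 1 / ((i : ℝ) + 2) := by positivity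
  linarith

theorem gam_mono : StrictMono gam := by
  intro i j hij
  unfold gam
  have h1 : (i : ℝ) < j := by exact_mod_cast hij
  have h2 : 1 / ((j : ℝ) + 2) < 1 / ((i : ℝ) + 2) :=
    one_div_lt_one_div_of_lt (by positivity) (by linarith)
  linarith

variable {n : ℕ}

/-- The coefficients. -/
noncomputable def al (c : ℕ → (Fin n → ℝ) →L[ℝ] ℝ) (i : ℕ) : ℝ :=
  (1 / 16) * (1 / 2) ^ i / (1 + ‖c i‖) ^ 2

theorem al_pos (c : ℕ → (Fin n → ℝ) →L[ℝ] ℝ) (i : ℕ) : 0 < al c i := by
  unfold al; positivity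

theorem al_mul (c : ℕ → (Fin n → ℝ) →L[ℝ] ℝ) (i : ℕ) :
    al c i * (1 + ‖c i‖) ^ 2 = (1 / 16) * (1 / 2) ^ i := by
  unfold al
  exact div_mul_cancel₀ _ (by positivity)

theorem al_summ (c : ℕ → (Fin n → ℝ) →L[ℝ] ℝ) : Summable fun i => al c i * (1 + ‖c i‖) ^ 2 := by
  simp_rw [al_mul]
  exact (summable_geometric_of_lt_one (by norm_num) (by norm_num)).mul_left _

theorem al_sum (c : ℕ → (Fin n → ℝ) →L[ℝ] ℝ) : ∑' i, al c i * (1 + ‖c i‖) ^ 2 = 1 / 8 := by
  simp_rw [al_mul]
  rw [tsum_mul_left, tsum_geometric_of_lt_one (by norm_num) (by norm_num)]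
  norm_num

/-- bound for the terms of the gradient -/
theorem term_bound (c : ℕ → (Fin n → ℝ) →L[ℝ] ℝ) (i : ℕ) (x v : Fin n → ℝ) :
    ‖al c i * sg (gam i) (c i x) * c i v‖
      ≤ (al c i * (1 + ‖c i‖) ^ 2) * (2 * (1 + ‖x‖) * ‖v‖) := by
  have h1 := sg_bound (gam_pos i).le (gam_lt i).le (c i x)
  have h2 := (c i).le_opNorm x
  have h3 := (c i).le_opNorm v
  rw [Real.norm_eq_abs] at h2 h3
  have h4 : 2 * (1 + |c i x|) ≤ 2 * ((1 + ‖c i‖) * (1 + ‖x‖)) := by
    nlinarith [norm_nonneg x, norm_nonneg (c i)]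
  rw [norm_mul, norm_mul, Real.norm_eq_abs, Real.norm_eq_abs, Real.norm_eq_abs,
    abs_of_pos (al_pos c i)]
  have h5 : |sg (gam i) (c i x)| * |c i v| ≤ (2 * ((1 + ‖c i‖) * (1 + ‖x‖))) * ((1 + ‖c i‖) * ‖v‖) :=
    mul_le_mul (h1.trans h4) (h3.trans (by nlinarith [norm_nonneg v])) (abs_nonneg _)
      (by positivity)
  calc al c i * |sg (gam i) (c i x)| * |c i v| = al c i * (|sg (gam i) (c i x)| * |c i v|) := by ring
    _ ≤ al c i * ((2 * ((1 + ‖c i‖) * (1 + ‖x‖))) * ((1 + ‖c i‖) * ‖v‖)) :=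
        mul_le_mul_of_nonneg_left h5 (al_pos c i).le
    _ = _ := by ring

theorem term_summable (c : ℕ → (Fin n → ℝ) →L[ℝ] ℝ) (x v : Fin n → ℝ) :
    Summable fun i => al c i * sg (gam i) (c i x) * c i v :=
  Summable.of_norm_bounded ((al_summ c).mul_right _) fun i => term_bound c i x v

theorem pot_bound (c : ℕ → (Fin n → ℝ) →L[ℝ] ℝ) (i : ℕ) (x : Fin n → ℝ) :
    ‖al c i * pt (gam i) (c i x)‖ ≤ (al c i * (1 + ‖c i‖) ^ 2) * (2 * (1 + ‖x‖) * ‖x‖) := by
  have h1 := pt_le (gam_pos i) (gam_lt i).le (c i x)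
  have h0 := pt_nonneg (gam_pos i) (c i x)
  have h2 := (c i).le_opNorm x
  rw [Real.norm_eq_abs] at h2
  rw [norm_mul, Real.norm_eq_abs, Real.norm_eq_abs, abs_of_pos (al_pos c i), abs_of_nonneg h0,
    mul_assoc (al c i)]
  refine mul_le_mul_of_nonneg_left (h1.trans ?_) (al_pos c i).le
  have h4 : 2 * (1 + |c i x|) ≤ 2 * ((1 + ‖c i‖) * (1 + ‖x‖)) := by
    nlinarith [norm_nonneg x, norm_nonneg (c i)]
  have h5 : |c i x| ≤ (1 + ‖c i‖) * ‖x‖ := h2.trans (by nlinarith [norm_nonneg x])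
  calc 2 * (1 + |c i x|) * |c i x| ≤ 2 * ((1 + ‖c i‖) * (1 + ‖x‖)) * ((1 + ‖c i‖) * ‖x‖) :=
        mul_le_mul h4 h5 (abs_nonneg _) (by positivity)
    _ = _ := by ring

theorem pot_summable (c : ℕ → (Fin n → ℝ) →L[ℝ] ℝ) (x : Fin n → ℝ) :
    Summable fun i => al c i * pt (gam i) (c i x) :=
  Summable.of_norm_bounded ((al_summ c).mul_right _) fun i => pot_bound c i x

/-- The convex function. -/
noncomputable def qf (c : ℕ → (Fin n → ℝ) →L[ℝ] ℝ) (m : ℕ) (x : Fin n → ℝ) : ℝ :=
  ∑ j, (x j) ^ (2 * m) + ∑' i, al c i * pt (gam i) (c i x)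

/-- The regular part of its gradient. -/
noncomputable def G0f (m : ℕ) (x v : Fin n → ℝ) : ℝ :=
  ∑ j, (2 * m : ℝ) * (x j) ^ (2 * m - 1) * v j

/-- Its gradient. -/
noncomputable def Gf (c : ℕ → (Fin n → ℝ) →L[ℝ] ℝ) (m : ℕ) (x : Fin n → ℝ) :
    (Fin n → ℝ) →ₗ[ℝ] ℝ where
  toFun v := G0f m x v + ∑' i, al c i * sg (gam i) (c i x) * c i v
  map_add' v v' := by
    have h1 : G0f m x (v + v') = G0f m x v + G0f m x v' := by
      unfold G0f
      rw [← Finset.sum_add_distrib]
      refine Finset.sum_congr rfl fun j _ => ?_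
      rw [Pi.add_apply]; ring
    have h2 : ∑' i, al c i * sg (gam i) (c i x) * c i (v + v')
        = (∑' i, al c i * sg (gam i) (c i x) * c i v)
          + ∑' i, al c i * sg (gam i) (c i x) * c i v' := by
      rw [← (term_summable c x v).tsum_add (term_summable c x v')]
      refine tsum_congr fun i => ?_
      rw [map_add]; ring
    rw [h1, h2]; ring
  map_smul' a v := by
    have h1 : G0f m x (a • v) = a * G0f m x v := by
      unfold G0f
      rw [Finset.mul_sum]
      refine Finset.sum_congr rfl fun j _ => ?_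
      rw [Pi.smul_apply, smul_eq_mul]; ring
    have h2 : ∑' i, al c i * sg (gam i) (c i x) * c i (a • v)
        = a * ∑' i, al c i * sg (gam i) (c i x) * c i v := by
      rw [← tsum_mul_left]
      refine tsum_congr fun i => ?_
      rw [map_smul, smul_eq_mul]; ring
    rw [h1, h2, RingHom.id_apply, smul_eq_mul]; ring

theorem Gf_apply (c : ℕ → (Fin n → ℝ) →L[ℝ] ℝ) (m : ℕ) (x v : Fin n → ℝ) :
    Gf c m x v = G0f m x v + ∑' i, al c i * sg (gam i) (c i x) * c i v := rfl

theorem continuous_of_ball {f : (Fin n → ℝ) → ℝ}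
    (h : ∀ R : ℝ, ContinuousOn f (Metric.ball 0 R)) : Continuous f := by
  rw [continuous_iff_continuousAt]
  intro x
  exact (h (‖x‖ + 1)).continuousAt (Metric.isOpen_ball.mem_nhds (by
    rw [mem_ball_zero_iff]; linarith))

theorem cvx_qf (c : ℕ → (Fin n → ℝ) →L[ℝ] ℝ) (m : ℕ) (hm : 1 ≤ m) : Cvx (qf c m) (Gf c m) where
  sub x y := by
    rw [Gf_apply]
    unfold qf G0f
    have h1 : ∑ j, (x j) ^ (2 * m) + ∑ j, (2 * m : ℝ) * (x j) ^ (2 * m - 1) * (y - x) j
        ≤ ∑ j, (y j) ^ (2 * m) := by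
      rw [← Finset.sum_add_distrib]
      refine Finset.sum_le_sum fun j _ => ?_
      rw [Pi.sub_apply]
      exact even_tangent m hm (x j) (y j)
    have h2 : ∑' i, al c i * pt (gam i) (c i x) + ∑' i, al c i * sg (gam i) (c i x) * c i (y - x)
        ≤ ∑' i, al c i * pt (gam i) (c i y) := by
      rw [← (pot_summable c x).tsum_add (term_summable c x (y - x))]
      refine ((pot_summable c x).add (term_summable c x (y - x))).tsum_le_tsum (fun i => ?_)
        (pot_summable c y)
      have h3 := pt_tangent (gam_pos i) (c i x) (c i y)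
      rw [map_sub]
      have h4 := mul_le_mul_of_nonneg_left h3 (al_pos c i).le
      nlinarith
    linarith
  contG v := by
    have h1 : Continuous fun x : Fin n → ℝ => G0f m x v := by
      unfold G0f; fun_prop
    have h2 : Continuous fun x : Fin n → ℝ => ∑' i, al c i * sg (gam i) (c i x) * c i v := by
      refine continuous_of_ball fun R => ?_
      refine continuousOn_tsum (u := fun i => (al c i * (1 + ‖c i‖) ^ 2) * (2 * (1 + R) * ‖v‖))
        (fun i => ?_) ((al_summ c).mul_right _) (fun i x hx => ?_)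
      · have := (sg_continuous (gam_pos i).le).comp (c i).continuous
        exact ((continuous_const.mul this).mul continuous_const).continuousOn
      · refine (term_bound c i x v).trans ?_
        rw [mem_ball_zero_iff] at hx
        refine mul_le_mul_of_nonneg_left ?_ (by have := al_pos c i; positivity)
        exact mul_le_mul_of_nonneg_right (by linarith) (norm_nonneg v)
    exact h1.add h2
  contq := by
    have h1 : Continuous fun x : Fin n → ℝ => ∑ j, (x j) ^ (2 * m) := by fun_prop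
    have h2 : Continuous fun x : Fin n → ℝ => ∑' i, al c i * pt (gam i) (c i x) := by
      refine continuous_of_ball fun R => ?_
      refine continuousOn_tsum (u := fun i => (al c i * (1 + ‖c i‖) ^ 2) * (2 * (1 + R) * R))
        (fun i => ?_) ((al_summ c).mul_right _) (fun i x hx => ?_)
      · have := (pt_continuous (gam_pos i)).comp (c i).continuous
        exact (continuous_const.mul this).continuousOn
      · refine (pot_bound c i x).trans ?_
        rw [mem_ball_zero_iff] at hx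
        refine mul_le_mul_of_nonneg_left ?_ (by have := al_pos c i; positivity)
        nlinarith [norm_nonneg x]
    exact h1.add h2
  zero := by
    unfold qf
    have h1 : ∑ j : Fin n, ((0 : Fin n → ℝ) j) ^ (2 * m) = 0 := by
      refine Finset.sum_eq_zero fun j _ => ?_
      rw [Pi.zero_apply, zero_pow (by omega)]
    have h2 : ∑' i, al c i * pt (gam i) (c i (0 : Fin n → ℝ)) = 0 := by
      have : (fun i => al c i * pt (gam i) (c i (0 : Fin n → ℝ))) = fun _ => 0 := by
        ext i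
        rw [map_zero, pt_zero (gam_pos i), mul_zero]
      rw [this, tsum_zero]
    rw [h1, h2, add_zero]
  cpt := by
    have hcont : Continuous (qf c m) := by
      have h1 : Continuous fun x : Fin n → ℝ => ∑ j, (x j) ^ (2 * m) := by fun_prop
      have h2 : Continuous fun x : Fin n → ℝ => ∑' i, al c i * pt (gam i) (c i x) := by
        refine continuous_of_ball fun R => ?_
        refine continuousOn_tsum (u := fun i => (al c i * (1 + ‖c i‖) ^ 2) * (2 * (1 + R) * R))
          (fun i => ?_) ((al_summ c).mul_right _) (fun i x hx => ?_)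
        · have := (pt_continuous (gam_pos i)).comp (c i).continuous
          exact (continuous_const.mul this).continuousOn
        · refine (pot_bound c i x).trans ?_
          rw [mem_ball_zero_iff] at hx
          refine mul_le_mul_of_nonneg_left ?_ (by have := al_pos c i; positivity)
          nlinarith [norm_nonneg x]
      exact h1.add h2
    refine (isCompact_closedBall (0 : Fin n → ℝ) 1).of_isClosed_subset
      (isClosed_le hcont continuous_const) fun x hx => ?_
    have hx' : qf c m x ≤ 1 := hx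
    rw [mem_closedBall_zero_iff, pi_norm_le_iff_of_nonneg zero_le_one]
    intro j
    have h1 : (x j) ^ (2 * m) ≤ ∑ j, (x j) ^ (2 * m) :=
      Finset.single_le_sum (f := fun j => (x j) ^ (2 * m)) (fun k _ => by
        rw [pow_mul]; positivity) (Finset.mem_univ j)
    have h2 : 0 ≤ ∑' i, al c i * pt (gam i) (c i x) :=
      tsum_nonneg fun i => mul_nonneg (al_pos c i).le (pt_nonneg (gam_pos i) _)
    have h3 : (x j) ^ (2 * m) ≤ 1 := by
      unfold qf at hx'; linarith
    rw [Real.norm_eq_abs]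
    rw [pow_mul, ← sq_abs, ← pow_mul] at h3
    by_contra hcon
    push Not at hcon
    have := one_lt_pow₀ hcon (by omega : 2 * m ≠ 0)
    linarith

theorem qf_le_iff {c : ℕ → (Fin n → ℝ) →L[ℝ] ℝ} {m : ℕ} (hm : 1 ≤ m) {x : Fin n → ℝ}
    (hx : qf c m x ≤ 1) : ‖x‖ ≤ 1 := by
  rw [pi_norm_le_iff_of_nonneg zero_le_one]
  intro j
  have h1 : (x j) ^ (2 * m) ≤ ∑ j, (x j) ^ (2 * m) :=
    Finset.single_le_sum (f := fun j => (x j) ^ (2 * m)) (fun k _ => by
      rw [pow_mul]; positivity) (Finset.mem_univ j)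
  have h2 : 0 ≤ ∑' i, al c i * pt (gam i) (c i x) :=
    tsum_nonneg fun i => mul_nonneg (al_pos c i).le (pt_nonneg (gam_pos i) _)
  have h3 : (x j) ^ (2 * m) ≤ 1 := by
    unfold qf at hx; linarith
  rw [Real.norm_eq_abs]
  rw [pow_mul, ← sq_abs, ← pow_mul] at h3
  by_contra hcon
  push Not at hcon
  have := one_lt_pow₀ hcon (by omega : 2 * m ≠ 0)
  linarith

theorem qf_neg (c : ℕ → (Fin n → ℝ) →L[ℝ] ℝ) (m : ℕ) (x : Fin n → ℝ) :
    qf c m (-x) = qf c m x := by
  unfold qf
  congr 1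
  · refine Finset.sum_congr rfl fun j _ => ?_
    rw [Pi.neg_apply, pow_mul, neg_sq, ← pow_mul]
  · refine tsum_congr fun i => ?_
    rw [map_neg, pt_neg]

/-- The ball of radius `r` is contained in the smooth body. -/
theorem qf_le_of_norm {c : ℕ → (Fin n → ℝ) →L[ℝ] ℝ} {m : ℕ} {r : ℝ} (hr0 : 0 ≤ r) (hr1 : r ≤ 1)
    (hr : (n : ℝ) * r ^ (2 * m) ≤ 1 / 2) {x : Fin n → ℝ} (hx : ‖x‖ ≤ r) : qf c m x ≤ 1 := by
  unfold qf
  have h1 : ∑ j, (x j) ^ (2 * m) ≤ (n : ℝ) * r ^ (2 * m) := by
    have h2 : ∀ j ∈ (Finset.univ : Finset (Fin n)), (x j) ^ (2 * m) ≤ r ^ (2 * m) := by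
      intro j _
      have h3 : |x j| ≤ r := by
        have := norm_le_pi_norm x j
        rw [Real.norm_eq_abs] at this
        exact this.trans hx
      rw [pow_mul, ← sq_abs, ← pow_mul]
      exact pow_le_pow_left₀ (abs_nonneg _) h3 _
    have h4 := Finset.sum_le_card_nsmul _ _ _ h2
    rwa [Finset.card_univ, Fintype.card_fin, nsmul_eq_mul] at h4
  have h2 : ∑' i, al c i * pt (gam i) (c i x) ≤ 1 / 2 := by
    have h3 : ∑' i, al c i * pt (gam i) (c i x)
        ≤ ∑' i, (al c i * (1 + ‖c i‖) ^ 2) * (2 * (1 + ‖x‖) * ‖x‖) := by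
      refine (pot_summable c x).tsum_le_tsum (fun i => ?_) ((al_summ c).mul_right _)
      exact (le_abs_self _).trans (pot_bound c i x)
    rw [tsum_mul_right, al_sum] at h3
    nlinarith [norm_nonneg x]
  linarith

theorem G0f_lip (m : ℕ) (x v : Fin n → ℝ) :
    (fun y => G0f m y v - G0f m x v) =O[𝓝 x] (fun y => y - x) := by
  have h1 : Differentiable ℝ fun y : Fin n → ℝ => G0f m y v := by
    unfold G0f; fun_prop
  exact (h1 x).isBigO_sub

theorem wall_qf (c : ℕ → (Fin n → ℝ) →L[ℝ] ℝ) (m : ℕ) :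
    Wall (Gf c m) (G0f m) (al c) gam c where
  hG x v := Gf_apply c m x v
  lip := G0f_lip m
  βpos := al_pos c
  γpos := gam_pos
  γlt := gam_lt
  γmono := gam_mono
  summ := al_summ c

end Pool.Agent.Proj
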