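import Pool.Agent.Work.MP_30cf1a_an.Core

set_option autoImplicit false

namespace Pool.Agent.Proj

open Filter Topology Set

variable {V : Type} [NormedAddCommGroup V] [NormedSpace ℝ V] [FiniteDimensional ℝ V]
  {q : V → ℝ} {G : V → V →ₗ[ℝ] ℝ} {T : Set V}

/-- Step B2: the image of the body is the image of the cross polytope. -/
theorem stepB2 (h : Cvx q G) (hT : T.Nonempty) (hTf : T.Finite) (hTneg : ∀ s ∈ T, -s ∈ T)
    {P : V →ₗ[ℝ] V}
    (hPP : ∀ x, P (P x) = P x) (hPB : ∀ x ∈ Body T q, P x ∈ Body T q)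
    (hA : ∀ x, P x = x → q x = 1 → (∀ s ∈ T, G x s < G x x) → False) {x : V}
    (hx : x ∈ Body T q) : P x ∈ convexHull ℝ (P '' T) := by
  by_contra hcon
  have hclosed : IsClosed (convexHull ℝ (P '' T)) := ((hTf.image P).isCompact_convexHull ℝ).isClosed
  obtain ⟨f, u, hf1, hf2⟩ := geometric_hahn_banach_closed_point (convex_convexHull ℝ _) hclosed hcon
  have h1 := stepB1 h hT hTneg hPP hPB hA (ψ := (f : V →ₗ[ℝ] ℝ) ∘ₗ P) (fun v => by
    rw [LinearMap.comp_apply, LinearMap.comp_apply, hPP]) (μ := u) (fun s hs => by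
      have := hf1 (P s) (subset_convexHull ℝ _ ⟨s, hs, rfl⟩)
      exact this.le) hx
  have h2 : ((f : V →ₗ[ℝ] ℝ) ∘ₗ P) x = f (P x) := rfl
  rw [h2] at h1
  linarith

/-- Existence of a minimal generating subset. -/
theorem exists_minimal (S : Set V) (hS : S.Finite) :
    ∃ W ⊆ S, convexHull ℝ W = convexHull ℝ S ∧ ∀ y ∈ W, y ∉ convexHull ℝ (W \ {y}) := by
  classical
  have hfin : {W : Set V | W ⊆ S ∧ convexHull ℝ W = convexHull ℝ S}.Finite :=
    hS.finite_subsets.subset fun W hW => hW.1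
  obtain ⟨W, hW⟩ := hfin.exists_minimal ⟨S, subset_rfl, rfl⟩
  refine ⟨W, hW.1.1, hW.1.2, fun y hy hmem => ?_⟩
  have h1 : convexHull ℝ (W \ {y}) = convexHull ℝ S := by
    rw [← hW.1.2]
    apply subset_antisymm (convexHull_mono sdiff_subset)
    refine convexHull_min (fun z hz => ?_) (convex_convexHull ℝ _)
    by_cases hzy : z = y
    · rw [hzy]; exact hmem
    · exact subset_convexHull ℝ _ ⟨hz, hzy⟩
  have h2 : W ⊆ W \ {y} := hW.2 ⟨sdiff_subset.trans hW.1.1, h1⟩ sdiff_subset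
  exact (h2 hy).2 rfl

theorem hull_le_strict {W : Set V} {f : V →ₗ[ℝ] ℝ} {y : V} (hf : ∀ v ∈ W, v ≠ y → f v < f y) {x : V}
    (hx : x ∈ convexHull ℝ W) : f x ≤ f y := by
  refine hull_le (T := W) (fun s hs => ?_) hx
  by_cases hsy : s = y
  · rw [hsy]
  · exact (hf s hs hsy).le

/-- Step B3: the image of the body lies in the cross polytope. -/
theorem stepB3 (h : Cvx q G) (hT : T.Nonempty) (hTf : T.Finite) (hTneg : ∀ s ∈ T, -s ∈ T)
    {P : V →ₗ[ℝ] V}
    (hPP : ∀ x, P (P x) = P x) (hPB : ∀ x ∈ Body T q, P x ∈ Body T q)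
    (hA : ∀ x, P x = x → q x = 1 → (∀ s ∈ T, G x s < G x x) → False)
    (hrank : ∀ v, ∃ η : V →ₗ[ℝ] ℝ, (∀ x, η (P x) = η x) ∧ η v = 0 ∧ η ≠ 0)
    (hspan : ∀ x : V, ∃ t : ℝ, 0 < t ∧ q (t • x) ≤ 1) {x : V}
    (hx : x ∈ Body T q) : P x ∈ convexHull ℝ T := by
  classical
  obtain ⟨W, hWS, hWhull, hWmin⟩ := exists_minimal (P '' T) (hTf.image P)
  have hWf : W.Finite := (hTf.image P).subset hWS
  have hB2 : ∀ z ∈ Body T q, P z ∈ convexHull ℝ W := fun z hz => by
    rw [hWhull]; exact stepB2 h hT hTf hTneg hPP hPB hA hz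
  have hTB : T ⊆ Body T q := fun s hs =>
    subset_convexHull ℝ _ (Or.inl (subset_convexHull ℝ _ hs))
  have hWP : ∀ w ∈ W, P w = w := by
    intro w hw
    obtain ⟨s, _, rfl⟩ := hWS hw
    exact hPP s
  have hsymm : ∀ z ∈ convexHull ℝ W, -z ∈ convexHull ℝ W := by
    intro z hz
    rw [hWhull] at hz ⊢
    have h1 : -(P '' T) = P '' T := by
      ext w
      constructor
      · rintro ⟨s, hs, hsw⟩
        exact ⟨-s, hTneg s hs, by rw [map_neg, hsw, neg_neg]⟩
      · rintro ⟨s, hs, hsw⟩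
        exact ⟨-s, hTneg s hs, by rw [map_neg, hsw]⟩
    rw [← h1, convexHull_neg]
    simpa using hz
  suffices hWK : W ⊆ convexHull ℝ T from
    (convexHull_min hWK (convex_convexHull ℝ _)) (hB2 x hx)
  intro y hy
  obtain ⟨s, hs, hsy⟩ := hWS hy
  have hyB : y ∈ Body T q := by rw [← hsy]; exact hPB s (hTB hs)
  obtain ⟨k, hk, e, he, a, b, ha, hb, hab, hye⟩ := (mem_Body h hT).1 hyB
  rcases hb.eq_or_lt with hb0 | hb0
  · rw [← hb0, zero_smul, add_zero] at hye
    have ha1 : a = 1 := by linarith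
    rw [ha1, one_smul] at hye
    rw [← hye]; exact hk
  exfalso
  -- strict separation of `y`
  have hclosed : IsClosed (convexHull ℝ (W \ {y})) :=
    ((hWf.subset sdiff_subset).isCompact_convexHull ℝ).isClosed
  obtain ⟨f, u, hf1, hf2⟩ := geometric_hahn_banach_closed_point (convex_convexHull ℝ _) hclosed
    (hWmin y hy)
  set ψ : V →ₗ[ℝ] ℝ := (f : V →ₗ[ℝ] ℝ) ∘ₗ P with hψdef
  have hψP : ∀ v, ψ (P v) = ψ v := fun v => by
    rw [hψdef, LinearMap.comp_apply, LinearMap.comp_apply, hPP]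
  have hψ1 : ∀ v ∈ W, v ≠ y → ψ v < ψ y := by
    intro v hv hvy
    have h1 : ψ v = f v := by
      rw [hψdef, LinearMap.comp_apply, hWP v hv]; rfl
    have h2 : ψ y = f y := by
      rw [hψdef, LinearMap.comp_apply, hWP y hy]; rfl
    rw [h1, h2]
    exact (hf1 v (subset_convexHull ℝ _ ⟨hv, hvy⟩)).trans hf2
  -- general statement for exposing functionals
  have key : ∀ χ : V →ₗ[ℝ] ℝ, (∀ v, χ (P v) = χ v) → (∀ v ∈ W, v ≠ y → χ v < χ y) → χ ≠ 0 →
      q e = 1 ∧ ∀ v, χ v * G e e = G e v * χ e := by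
    intro χ hχP hχ hχ0
    have hle : ∀ z ∈ Body T q, χ z ≤ χ y := by
      intro z hz
      have h1 := hull_le_strict hχ (hB2 z hz)
      rwa [hχP] at h1
    have hkB : k ∈ Body T q := subset_convexHull ℝ _ (Or.inl hk)
    have heB : e ∈ Body T q := subset_convexHull ℝ _ (Or.inr he)
    have h2 := hle k hkB
    have h3 := hle e heB
    have h4 : χ y = a * χ k + b * χ e := by
      rw [← hye, map_add, map_smul, map_smul, smul_eq_mul, smul_eq_mul]
    have h5 : χ e = χ y := by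
      apply le_antisymm h3
      by_contra hlt
      push Not at hlt
      have h6 := mul_le_mul_of_nonneg_left h2 ha
      have h7 := mul_lt_mul_of_pos_left hlt hb0
      have h8 : χ y = a * χ y + b * χ y := by rw [← add_mul, hab, one_mul]
      linarith
    have hmax : ∀ z, q z ≤ 1 → χ z ≤ χ e := fun z hz => by
      rw [h5]; exact hle z (subset_convexHull ℝ _ (Or.inr hz))
    have hpos : 0 < χ e := by
      -- `χ` is nonzero so takes a nonzero value on the smooth body
      by_contra hnp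
      push Not at hnp
      apply hχ0
      ext v
      obtain ⟨t, ht, hqt⟩ := hspan v
      obtain ⟨t', ht', hqt'⟩ := hspan (-v)
      have h6 := (hmax _ hqt).trans hnp
      have h7 := (hmax _ hqt').trans hnp
      rw [map_smul, smul_eq_mul] at h6
      rw [map_smul, map_neg, smul_eq_mul] at h7
      rw [LinearMap.zero_apply]
      apply le_antisymm
      · by_contra hv; push Not at hv; nlinarith
      · by_contra hv; push Not at hv; nlinarith
    have hq1 := h.bdry he hmax hpos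
    exact ⟨hq1, fun v => h.max_smul hq1 hmax v⟩
  obtain ⟨η, hηP, hηe, hη0⟩ := hrank e
  -- small perturbation
  have hev : ∀ᶠ δ : ℝ in 𝓝[>] 0, ∀ v ∈ hWf.toFinset, v ≠ y →
      (ψ + δ • η) v < (ψ + δ • η) y := by
    rw [Filter.eventually_all_finset]
    intro v hv
    by_cases hvy : v = y
    · exact Eventually.of_forall fun δ hδ => absurd hvy hδ
    · have h1 := hψ1 v (by simpa using hv) hvy
      have hcont : Tendsto (fun δ : ℝ => (ψ + δ • η) y - (ψ + δ • η) v) (𝓝[>] 0)
          (𝓝 (ψ y - ψ v)) := by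
        have h2 : Continuous fun δ : ℝ => (ψ y + δ * η y) - (ψ v + δ * η v) := by fun_prop
        have h3 := (h2.tendsto 0).mono_left (nhdsWithin_le_nhds (s := Ioi 0))
        simpa using h3
      have h4 : ∀ᶠ δ : ℝ in 𝓝[>] 0, 0 < (ψ + δ • η) y - (ψ + δ • η) v :=
        hcont.eventually (lt_mem_nhds (by linarith))
      filter_upwards [h4] with δ hδ _
      linarith
  obtain ⟨δ, hδ1, hδ2⟩ := (hev.and self_mem_nhdsWithin).exists
  have hδ0 : (0 : ℝ) < δ := hδ2
  -- a functional vanishing at `e` that is a multiple of the gradient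
  have hcase : ∃ χ : V →ₗ[ℝ] ℝ, q e = 1 ∧ χ e = 0 ∧ χ ≠ 0 ∧ ∀ v, χ v * G e e = G e v * χ e := by
    by_cases hψ0 : ψ = 0
    · by_cases hψ0' : ψ + δ • η = 0
      · exfalso
        rw [hψ0, zero_add] at hψ0'
        rcases smul_eq_zero.1 hψ0' with h1 | h1
        · linarith
        · exact hη0 h1
      · obtain ⟨hq1, h2⟩ := key (ψ + δ • η) (fun v => by
          simp only [LinearMap.add_apply, LinearMap.smul_apply, hψP, hηP])
          (fun v hv hvy => hδ1 v (by simpa using hv) hvy) hψ0'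
        refine ⟨ψ + δ • η, hq1, ?_, hψ0', h2⟩
        rw [hψ0]; simp [hηe]
    · obtain ⟨hq1, h2⟩ := key ψ hψP hψ1 hψ0
      by_cases hψ0' : ψ + δ • η = 0
      · refine ⟨ψ, hq1, ?_, hψ0, h2⟩
        have h3 := congrArg (fun g : V →ₗ[ℝ] ℝ => g e) hψ0'
        simpa [hηe] using h3
      · obtain ⟨_, h3⟩ := key (ψ + δ • η) (fun v => by
          simp only [LinearMap.add_apply, LinearMap.smul_apply, hψP, hηP])
          (fun v hv hvy => hδ1 v (by simpa using hv) hvy) hψ0'
        refine ⟨η, hq1, hηe, hη0, fun v => ?_⟩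
        have h4 := h2 v
        have h5 := h3 v
        simp only [LinearMap.add_apply, LinearMap.smul_apply, smul_eq_mul] at h5
        have h6 : δ * (η v * G e e) = δ * (G e v * η e) := by linarith
        exact mul_left_cancel₀ hδ0.ne' h6
  obtain ⟨χ, hq1, hχe, hχ0, hχ⟩ := hcase
  have hge := h.one_le hq1
  apply hχ0
  ext v
  have h1 := hχ v
  rw [hχe, mul_zero] at h1
  rcases mul_eq_zero.1 h1 with h2 | h2
  · rw [h2]; rfl
  · linarith

end Pool.Agent.Proj
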