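import Pool.Agent.Work.MP_30cf1a_an.Extremal
import Pool.Agent.Work.MP_30cf1a_an.Construct
import Pool.Agent.Work.MP_30cf1a_an.Core2

set_option autoImplicit false

/-!
# An extremal space without one-complemented subspaces of dimension `3, …, n - 1`
-/

namespace Pool.Agent.Proj

open Filter Topology Set

variable {n : ℕ}

theorem Tset_finite : (Tset n).Finite := (finite_range _).union (finite_range _)

theorem Tset_neg {s : Fin n → ℝ} (hs : s ∈ Tset n) : -s ∈ Tset n := by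
  rcases hs with ⟨i, rfl⟩ | ⟨i, rfl⟩
  · exact Or.inr ⟨i, rfl⟩
  · left; exact ⟨i, by simp⟩

theorem Tset_nonempty (hn : 1 ≤ n) : (Tset n).Nonempty := ⟨_, Or.inl ⟨⟨0, by omega⟩, rfl⟩⟩

theorem Tset_norm {s : Fin n → ℝ} (hs : s ∈ Tset n) : ‖s‖ ≤ 1 := by
  have h : ∀ i : Fin n, ‖spike i‖ ≤ 1 := by
    intro i
    rw [pi_norm_le_iff_of_nonneg zero_le_one]
    intro j
    unfold spike
    split_ifs <;> simp
  rcases hs with ⟨i, rfl⟩ | ⟨i, rfl⟩
  · exact h i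
  · rw [norm_neg]; exact h i

section

variable {c : ℕ → (Fin n → ℝ) →L[ℝ] ℝ} {m : ℕ}

theorem body_norm (hm : 1 ≤ m) {x : Fin n → ℝ} (hx : x ∈ Body (Tset n) (qf c m)) : ‖x‖ ≤ 1 := by
  have h1 : Body (Tset n) (qf c m) ⊆ Metric.closedBall 0 1 := by
    unfold Body
    refine convexHull_min ?_ (convex_closedBall _ _)
    rintro y (hy | hy)
    · have h2 : convexHull ℝ (Tset n) ⊆ Metric.closedBall 0 1 :=
        convexHull_min (fun s hs => by rw [mem_closedBall_zero_iff]; exact Tset_norm hs)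
          (convex_closedBall _ _)
      exact h2 hy
    · rw [mem_closedBall_zero_iff]
      exact qf_le_iff hm hy
  have := h1 hx
  rwa [mem_closedBall_zero_iff] at this

theorem body_compact (hn : 1 ≤ n) (hm : 1 ≤ m) : IsCompact (Body (Tset n) (qf c m)) := by
  have h := cvx_qf c m hm
  have hK : IsCompact (convexHull ℝ (Tset n)) := Tset_finite.isCompact_convexHull ℝ
  have hE := h.cpt
  have hcomp : IsCompact ((convexHull ℝ (Tset n)) ×ˢ ({x | qf c m x ≤ 1} ×ˢ (Icc (0 : ℝ) 1))) :=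
    hK.prod (hE.prod isCompact_Icc)
  have himg := hcomp.image (f := fun p : (Fin n → ℝ) × ((Fin n → ℝ) × ℝ) =>
    (1 - p.2.2) • p.1 + p.2.2 • p.2.1) (by fun_prop)
  convert himg using 1
  ext x
  rw [mem_Body h (Tset_nonempty hn)]
  constructor
  · rintro ⟨k, hk, y, hy, a, b, ha, hb, hab, rfl⟩
    refine ⟨(k, (y, b)), ⟨hk, hy, hb, by linarith⟩, ?_⟩
    have : 1 - b = a := by linarith
    simp only [this]
  · rintro ⟨⟨k, y, b⟩, ⟨hk, hy, hb⟩, rfl⟩
    exact ⟨k, hk, y, hy, 1 - b, b, by linarith [hb.2], hb.1, by ring, rfl⟩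

theorem body_symm (hn : 1 ≤ n) (hm : 1 ≤ m) {x : Fin n → ℝ} (hx : x ∈ Body (Tset n) (qf c m)) :
    -x ∈ Body (Tset n) (qf c m) := by
  have h := cvx_qf c m hm
  rw [mem_Body h (Tset_nonempty hn)] at hx ⊢
  obtain ⟨k, hk, y, hy, a, b, ha, hb, hab, rfl⟩ := hx
  refine ⟨-k, ?_, -y, by rw [qf_neg]; exact hy, a, b, ha, hb, hab, by module⟩
  have h1 : -(Tset n) = Tset n := by
    ext w
    constructor
    · intro hw
      have := Tset_neg (show -w ∈ Tset n from hw)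
      rwa [neg_neg] at this
    · intro hw
      exact Tset_neg hw
  rw [← h1, convexHull_neg]
  simpa using hk

theorem body_ball {r : ℝ} (hr0 : 0 ≤ r) (hr1 : r ≤ 1)
    (hr : (n : ℝ) * r ^ (2 * m) ≤ 1 / 2) {x : Fin n → ℝ} (hx : ‖x‖ ≤ r) :
    x ∈ Body (Tset n) (qf c m) :=
  subset_convexHull ℝ _ (Or.inr (qf_le_of_norm hr0 hr1 hr hx))

theorem body_good (hn : 1 ≤ n) (hm : 1 ≤ m) {r : ℝ} (hr0 : 0 < r) (hr1 : r ≤ 1)
    (hr : (n : ℝ) * r ^ (2 * m) ≤ 1 / 2) : Good (Body (Tset n) (qf c m)) where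
  conv := convex_convexHull ℝ _
  symm x hx := body_symm hn hm hx
  closed := (body_compact hn hm).isClosed
  bdd := (body_compact hn hm).isBounded
  nhds := by
    refine mem_of_superset (Metric.closedBall_mem_nhds 0 hr0) fun x hx => ?_
    rw [mem_closedBall_zero_iff] at hx
    exact body_ball hr0.le hr1 hr hx

/-- Projections preserving the body have small rank. -/
theorem no_projection (hn : 3 ≤ n) (hm : 1 ≤ m) (hdense : DenseRange c)
    (hgen : ∀ H : Submodule ℝ ((Fin n → ℝ) →L[ℝ] ℝ), H ≠ ⊤ → {i | c i ∈ H}.Finite)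
    {r : ℝ} (hr0 : 0 < r) (hr1 : r ≤ 1) (hr : (n : ℝ) * r ^ (2 * m) ≤ 1 / 2)
    (hr2 : 3 - 8 / (2 : ℝ) ^ n < 3 * r)
    {P : (Fin n → ℝ) →ₗ[ℝ] (Fin n → ℝ)} (hPP : ∀ x, P (P x) = P x)
    (hPB : ∀ x ∈ Body (Tset n) (qf c m), P x ∈ Body (Tset n) (qf c m))
    (h3 : 3 ≤ Module.finrank ℝ (LinearMap.range P))
    (hlt : Module.finrank ℝ (LinearMap.range P) < n) : False := by
  have h := cvx_qf c m hm
  have w := wall_qf c m
  -- vectors in the range killed by a functional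
  have hker : ∀ f : (Fin n → ℝ) →L[ℝ] ℝ, ∃ u, P u = u ∧ u ≠ 0 ∧ f u = 0 := by
    intro f
    have h1 : LinearMap.ker ((f : (Fin n → ℝ) →ₗ[ℝ] ℝ) ∘ₗ (LinearMap.range P).subtype) ≠ ⊥ := by
      apply LinearMap.ker_ne_bot_of_finrank_lt
      rw [Module.finrank_self]; omega
    obtain ⟨⟨u, hu⟩, hu1, hu2⟩ := (Submodule.ne_bot_iff _).1 h1
    refine ⟨u, ?_, fun h0 => hu2 (Subtype.ext h0), hu1⟩
    obtain ⟨v, rfl⟩ := hu
    exact hPP v
  have hne : ∃ v, P v ≠ v := by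
    by_contra hcon
    push Not at hcon
    have h1 : LinearMap.range P = ⊤ := by
      rw [LinearMap.range_eq_top]
      intro v; exact ⟨v, hcon v⟩
    rw [h1, finrank_top, Module.finrank_fin_fun] at hlt
    omega
  have hT := Tset_nonempty (n := n) (by omega)
  have hGc : Continuous fun y : Fin n → ℝ => Gf c m y y := by
    have h1 : ∀ y : Fin n → ℝ, Gf c m y y = ∑ j, y j * Gf c m y (Pi.single j 1) := by
      intro y
      have h2 : y = ∑ k, y k • (Pi.single k (1 : ℝ) : Fin n → ℝ) := by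
        ext i
        rw [Finset.sum_apply]
        simp [Pi.single_apply]
      have h3 : Gf c m y y = Gf c m y (∑ k, y k • (Pi.single k (1 : ℝ) : Fin n → ℝ)) := by
        rw [← h2]
      rw [h3, map_sum]
      simp_rw [map_smul, smul_eq_mul]
    simp_rw [h1]
    exact continuous_finsetSum _ fun j _ => (continuous_apply j).mul (h.contG _)
  have hA : ∀ x, P x = x → qf c m x = 1 → (∀ s ∈ Tset n, Gf c m x s < Gf c m x x) → False := by
    intro x hPx hqx hs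
    set U : Set (Fin n → ℝ) := {y | ∀ s ∈ Tset n, Gf c m y s < Gf c m y y} with hU
    have hUopen : IsOpen U := by
      have h1 : U = ⋂ s ∈ Tset n, {y | Gf c m y s < Gf c m y y} := by
        ext y; simp [hU]
      rw [h1]
      exact Tset_finite.isOpen_biInter fun s _ => isOpen_lt (h.contG s) hGc
    exact walls w h hdense hgen hPP hne hker hUopen
      (fun y hy hPy hqy v => claim1 h hT hPB hPy hqy hy v) hs hPx hqx
  have hrank : ∀ v, ∃ η : (Fin n → ℝ) →ₗ[ℝ] ℝ, (∀ x, η (P x) = η x) ∧ η v = 0 ∧ η ≠ 0 := by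
    intro v
    have h1 : ∃ f : (Fin n → ℝ) →L[ℝ] ℝ, f (P v) = 0 ∧ ∃ u, P u = u ∧ f u = 1 := by
      by_cases hv : P v = 0
      · obtain ⟨u, hu1, hu2, -⟩ := hker 0
        obtain ⟨f, hf⟩ := SeparatingDual.exists_eq_one (R := ℝ) hu2
        exact ⟨f, by rw [hv, map_zero], u, hu1, hf⟩
      · obtain ⟨f₁, hf₁⟩ := SeparatingDual.exists_eq_one (R := ℝ) hv
        obtain ⟨u, hu1, hu2, hf₁u⟩ := hker f₁
        obtain ⟨f₂, hf₂⟩ := SeparatingDual.exists_eq_one (R := ℝ) hu2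
        refine ⟨f₂ - f₂ (P v) • f₁, by simp [hf₁], u, hu1, by simp [hf₁u, hf₂]⟩
    obtain ⟨f, hf, u, hu, hfu⟩ := h1
    refine ⟨(f : (Fin n → ℝ) →ₗ[ℝ] ℝ) ∘ₗ P, fun x => ?_, hf, fun h0 => ?_⟩
    · rw [LinearMap.comp_apply, LinearMap.comp_apply, hPP]
    · have h2 : ((f : (Fin n → ℝ) →ₗ[ℝ] ℝ) ∘ₗ P) u = 0 := by rw [h0]; rfl
      rw [LinearMap.comp_apply, hu] at h2
      have h3 : f u = 0 := h2
      rw [hfu] at h3
      exact one_ne_zero h3
  have hspan : ∀ x : Fin n → ℝ, ∃ t : ℝ, 0 < t ∧ qf c m (t • x) ≤ 1 := by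
    intro x
    refine ⟨r / (1 + ‖x‖), by positivity, qf_le_of_norm hr0.le hr1 hr ?_⟩
    rw [norm_smul, Real.norm_of_nonneg (by positivity), div_mul_eq_mul_div, div_le_iff₀ (by positivity)]
    nlinarith [norm_nonneg x]
  have hfinal : ∀ x : Fin n → ℝ, ‖x‖ ≤ r → P x ∈ convexHull ℝ (Tset n) := fun x hx =>
    stepB3 h hT Tset_finite (fun s hs => Tset_neg hs) hPP hPB hA hrank hspan
      (body_ball hr0.le hr1 hr hx)
  have htr := trace_bound hn hr0 hr2 P hfinal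
  have htr2 : LinearMap.trace ℝ (Fin n → ℝ) P = ∑ j, P (Pi.single j 1) j := by
    rw [LinearMap.trace_eq_matrix_trace ℝ (Pi.basisFun ℝ (Fin n)), Matrix.trace]
    refine Finset.sum_congr rfl fun j _ => ?_
    rw [Matrix.diag_apply, LinearMap.toMatrix_apply, Pi.basisFun_repr, Pi.basisFun_apply]
  have hproj : LinearMap.IsProj (LinearMap.range P) P :=
    ⟨fun x => ⟨x, rfl⟩, by rintro _ ⟨x, rfl⟩; exact hPP x⟩
  rw [← htr2, hproj.trace] at htr
  have h4 : (3 : ℝ) ≤ Module.finrank ℝ (LinearMap.range P) := by exact_mod_cast h3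
  linarith

end

theorem exists_params (hn : 3 ≤ n) : ∃ (r : ℝ) (m : ℕ), 1 ≤ m ∧ 0 < r ∧ r ≤ 1 ∧
    (n : ℝ) * r ^ (2 * m) ≤ 1 / 2 ∧ 3 - 8 / (2 : ℝ) ^ n < 3 * r ∧
    ((n : ℝ) - 2) / (n - 1) ≤ r := by
  have hn' : (3 : ℝ) ≤ n := by exact_mod_cast hn
  have hn1' : (0 : ℝ) < (n : ℝ) - 1 := by linarith
  have hpow : (0 : ℝ) < 2 ^ n := by positivity
  have hpow8 : (8 : ℝ) ≤ 2 ^ n := by
    calc (8 : ℝ) = 2 ^ 3 := by norm_num
      _ ≤ 2 ^ n := pow_le_pow_right₀ (by norm_num) hn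
  have hδ0 : 0 < 1 / (2 : ℝ) ^ n := by positivity
  have hδ1 : 1 / (2 : ℝ) ^ n ≤ 1 / 8 := one_div_le_one_div_of_le (by norm_num) hpow8
  set r : ℝ := 1 - 1 / (2 : ℝ) ^ n with hr
  have hr0 : 0 < r := by linarith
  have hr1 : r < 1 := by linarith
  obtain ⟨k, hk⟩ := exists_pow_lt_of_lt_one (show (0 : ℝ) < 1 / (2 * n) by positivity) hr1
  refine ⟨r, k + 1, by omega, hr0, hr1.le, ?_, ?_, ?_⟩
  · have h1 : r ^ (2 * (k + 1)) ≤ r ^ k := pow_le_pow_of_le_one hr0.le hr1.le (by omega)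
    have h2 : r ^ (2 * (k + 1)) ≤ 1 / (2 * n) := h1.trans hk.le
    calc (n : ℝ) * r ^ (2 * (k + 1)) ≤ n * (1 / (2 * n)) :=
          mul_le_mul_of_nonneg_left h2 (by linarith)
      _ = 1 / 2 := by field_simp
  · have : 8 / (2 : ℝ) ^ n = 8 * (1 / (2 : ℝ) ^ n) := by ring
    rw [this, hr]
    linarith
  · rw [hr]
    have h1 : ((n : ℝ) - 2) / (n - 1) = 1 - 1 / ((n : ℝ) - 1) := by field_simp; ring
    rw [h1]
    have h2 : (n : ℝ) - 1 ≤ 2 ^ n := by
      have h3 : n < 2 ^ n := Nat.lt_two_pow_self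
      have h4 : (n : ℝ) < 2 ^ n := by exact_mod_cast h3
      linarith
    have h3 : 1 / (2 : ℝ) ^ n ≤ 1 / ((n : ℝ) - 1) := one_div_le_one_div_of_le hn1' h2
    linarith

/-- The main construction. -/
theorem exists_extremal (hn : 3 ≤ n) :
    ∃ (X : Type) (_ : NormedAddCommGroup X) (_ : NormedSpace ℝ X), IsExtremal n X ∧
      ∀ Z : Submodule ℝ X, 3 ≤ Module.finrank ℝ Z → Module.finrank ℝ Z ≤ n - 1 →
        relProj Z ≠ 1 := by
  obtain ⟨r, m, hm, hr0, hr1, hr, hr2, hρ⟩ := exists_params hn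
  have hnt : Nontrivial ((Fin n → ℝ) →L[ℝ] ℝ) := by
    have : Nontrivial (Fin n → ℝ) := by
      have : Nonempty (Fin n) := ⟨⟨0, by omega⟩⟩
      infer_instance
    obtain ⟨x, hx⟩ := exists_ne (0 : Fin n → ℝ)
    obtain ⟨f, hf⟩ := SeparatingDual.exists_eq_one (R := ℝ) hx
    exact ⟨f, 0, fun h0 => by rw [h0] at hf; simp at hf⟩
  obtain ⟨c, hdense, hgen⟩ := exists_dense_general (D := (Fin n → ℝ) →L[ℝ] ℝ)
  have hG := body_good (c := c) (by omega : 1 ≤ n) hm hr0 hr1 hr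
  obtain ⟨X, i1, i2, e, he⟩ := exists_space hG
  have hext : IsExtremal n X := extremal_of_body hn hG.conv hG.symm
    (fun s hs => subset_convexHull ℝ _ (Or.inl (subset_convexHull ℝ _ hs)))
    (fun x hx => body_norm hm hx) hρ (fun x hx => body_ball hr0.le hr1 hr hx) e he
  refine ⟨X, i1, i2, hext, fun Z h3 hle hone => ?_⟩
  have hfin : FiniteDimensional ℝ X := hext.1
  obtain ⟨Q, hQ, hQn⟩ := relProj_attained Z
  rw [hone] at hQn
  rw [isProjOnto_iff] at hQ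
  obtain ⟨hQ1, hQ2⟩ := hQ
  set P : (Fin n → ℝ) →ₗ[ℝ] (Fin n → ℝ) :=
    (e : X →ₗ[ℝ] (Fin n → ℝ)) ∘ₗ (Q : X →ₗ[ℝ] X) ∘ₗ (e.symm : (Fin n → ℝ) →ₗ[ℝ] X) with hP
  have hPa : ∀ x, P x = e (Q (e.symm x)) := fun x => rfl
  have hPP : ∀ x, P (P x) = P x := by
    intro x
    rw [hPa, hPa, LinearEquiv.symm_apply_apply, hQ2 _ (hQ1 _)]
  have hPB : ∀ x ∈ Body (Tset n) (qf c m), P x ∈ Body (Tset n) (qf c m) := by
    intro x hx
    rw [hPa, ← he]
    have h1 : ‖e.symm x‖ ≤ 1 := by rw [he, LinearEquiv.apply_symm_apply]; exact hx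
    calc ‖Q (e.symm x)‖ ≤ ‖Q‖ * ‖e.symm x‖ := Q.le_opNorm _
      _ ≤ 1 * 1 := by rw [hQn]; exact mul_le_mul_of_nonneg_left h1 zero_le_one
      _ = 1 := one_mul 1
  have hrange : LinearMap.range P = Z.map (e : X →ₗ[ℝ] (Fin n → ℝ)) := by
    ext y
    constructor
    · rintro ⟨x, rfl⟩
      rw [hPa]
      exact ⟨_, hQ1 _, rfl⟩
    · rintro ⟨z, hz, rfl⟩
      refine ⟨e z, ?_⟩
      rw [hPa, LinearEquiv.symm_apply_apply, hQ2 z hz]
      rfl
  have hfr : Module.finrank ℝ (LinearMap.range P) = Module.finrank ℝ Z := by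
    rw [hrange]
    exact LinearEquiv.finrank_map_eq e Z
  exact no_projection hn hm hdense hgen hr0 hr1 hr hr2 hPP hPB (by rw [hfr]; exact h3)
    (by rw [hfr]; omega)

end Pool.Agent.Proj
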