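import Pool.Agent.Work.MP_30cf1a_an.Defs

set_option autoImplicit false

/-!
# The infimum is attained
-/

namespace Pool.Agent.Proj

open Filter Topology Set

variable {X : Type} [NormedAddCommGroup X] [NormedSpace ℝ X]

theorem isProjOnto_iff {P : X →L[ℝ] X} {Y : Submodule ℝ X} :
    IsProjOnto P Y ↔ (∀ x, P x ∈ Y) ∧ ∀ y ∈ Y, P y = y := by
  constructor
  · rintro ⟨h1, h2⟩
    refine ⟨fun x => ?_, h2⟩
    rw [← h1]
    exact ⟨x, rfl⟩
  · rintro ⟨h1, h2⟩
    refine ⟨?_, h2⟩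
    apply le_antisymm
    · rintro _ ⟨x, rfl⟩
      exact h1 x
    · intro y hy
      exact ⟨y, h2 y hy⟩

theorem exists_proj [FiniteDimensional ℝ X] (Y : Submodule ℝ X) :
    ∃ P : X →L[ℝ] X, IsProjOnto P Y := by
  obtain ⟨g, hg⟩ := Y.subtype.exists_leftInverse_of_injective (by simp)
  refine ⟨LinearMap.toContinuousLinearMap (Y.subtype ∘ₗ g), ?_⟩
  rw [isProjOnto_iff]
  refine ⟨fun x => ?_, fun y hy => ?_⟩
  · simp
  · have h1 : g (Y.subtype ⟨y, hy⟩) = ⟨y, hy⟩ := by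
      have := congrArg (fun f => f ⟨y, hy⟩) hg
      exact this
    have h2 : g y = ⟨y, hy⟩ := h1
    simp [h2]

theorem relProj_nonneg (Y : Submodule ℝ X) : 0 ≤ relProj Y := by
  unfold relProj
  apply Real.sInf_nonneg
  rintro _ ⟨P, -, rfl⟩
  exact norm_nonneg P

theorem relProj_le {Y : Submodule ℝ X} {P : X →L[ℝ] X} (hP : IsProjOnto P Y) :
    relProj Y ≤ ‖P‖ := by
  unfold relProj
  refine csInf_le ⟨0, ?_⟩ ⟨P, hP, rfl⟩
  rintro _ ⟨P, -, rfl⟩
  exact norm_nonneg P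

theorem le_relProj [FiniteDimensional ℝ X] {Y : Submodule ℝ X} {r : ℝ}
    (h : ∀ P : X →L[ℝ] X, IsProjOnto P Y → r ≤ ‖P‖) : r ≤ relProj Y := by
  unfold relProj
  obtain ⟨P, hP⟩ := exists_proj Y
  refine le_csInf ⟨_, P, hP, rfl⟩ ?_
  rintro _ ⟨P, hP, rfl⟩
  exact h P hP

theorem relProj_attained [FiniteDimensional ℝ X] (Y : Submodule ℝ X) :
    ∃ P : X →L[ℝ] X, IsProjOnto P Y ∧ ‖P‖ = relProj Y := by
  have hproper : ProperSpace (X →L[ℝ] X) := FiniteDimensional.proper_real _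
  set S : Set (X →L[ℝ] X) := {P | IsProjOnto P Y} with hS
  have hYc : IsClosed (Y : Set X) := Y.closed_of_finiteDimensional
  have hclosed : IsClosed S := by
    have h1 : S = (⋂ x : X, {P : X →L[ℝ] X | P x ∈ (Y : Set X)}) ∩
        ⋂ y : Y, {P : X →L[ℝ] X | P (y : X) = y} := by
      ext P
      rw [hS, mem_setOf_eq, isProjOnto_iff, mem_inter_iff, mem_iInter, mem_iInter]
      constructor
      · rintro ⟨h1, h2⟩
        exact ⟨h1, fun y => h2 y y.2⟩
      · rintro ⟨h1, h2⟩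
        exact ⟨h1, fun y hy => h2 ⟨y, hy⟩⟩
    rw [h1]
    have hev : ∀ x : X, Continuous fun P : X →L[ℝ] X => P x := fun x =>
      (ContinuousLinearMap.apply ℝ X x).continuous
    exact (isClosed_iInter fun x => hYc.preimage (hev x)).inter
      (isClosed_iInter fun y => isClosed_eq (hev y) continuous_const)
  obtain ⟨P0, hP0⟩ := exists_proj Y
  obtain ⟨P, hPS, hPd⟩ := hclosed.exists_infDist_eq_dist ⟨P0, hP0⟩ 0
  refine ⟨P, hPS, le_antisymm ?_ (relProj_le hPS)⟩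
  apply le_relProj
  intro Q hQ
  have h1 := Metric.infDist_le_dist_of_mem (x := (0 : X →L[ℝ] X)) (show Q ∈ S from hQ)
  rw [hPd, dist_zero_left, dist_zero_left] at h1
  exact h1

end Pool.Agent.Proj
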