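import Mathlib

set_option autoImplicit false

/-!
# Convex bodies with spikes: the core argument
-/

namespace Pool.Agent.Proj

open Filter Topology Set

/-- A differentiable convex function given by its subgradient inequality. -/
structure Cvx {V : Type} [NormedAddCommGroup V] [NormedSpace ℝ V] (q : V → ℝ)
    (G : V → V →ₗ[ℝ] ℝ) : Prop where
  sub : ∀ x y, q x + G x (y - x) ≤ q y
  contG : ∀ v, Continuous fun x => G x v
  contq : Continuous q
  zero : q 0 ≤ 0
  cpt : IsCompact {x | q x ≤ 1}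

section

variable {V : Type} [NormedAddCommGroup V] [NormedSpace ℝ V] {q : V → ℝ} {G : V → V →ₗ[ℝ] ℝ}

theorem Cvx.one_le (h : Cvx q G) {x : V} (hx : q x = 1) : 1 ≤ G x x := by
  have h1 := h.sub x 0
  have h2 := h.zero
  rw [zero_sub, map_neg, hx] at h1
  linarith

theorem Cvx.max_smul (h : Cvx q G) {f : V →ₗ[ℝ] ℝ} {x : V} (hx : q x = 1)
    (hmax : ∀ z, q z ≤ 1 → f z ≤ f x) (v : V) : f v * G x x = G x v * f x := by
  have hgx := h.one_le hx
  -- the kernel inclusion
  have key : ∀ u, G x u = 0 → f u ≤ 0 := by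
    intro u hu
    by_contra hfu
    push Not at hfu
    set δ : ℝ := f u / (2 * (|f x| + 1)) with hδ
    have hδ0 : 0 < δ := by positivity
    set w : V := u - δ • x with hw
    have hgw : G x w < 0 := by
      rw [hw, map_sub, map_smul, smul_eq_mul, hu]
      nlinarith
    have hfw : 0 < f w := by
      rw [hw, map_sub, map_smul, smul_eq_mul]
      have h1 : δ * f x ≤ δ * |f x| := mul_le_mul_of_nonneg_left (le_abs_self _) hδ0.le
      have h2 : δ * (2 * (|f x| + 1)) = f u := by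
        rw [hδ]; field_simp
      nlinarith [abs_nonneg (f x)]
    have hcont : Tendsto (fun τ : ℝ => G (x + τ • w) w) (𝓝[>] 0) (𝓝 (G x w)) := by
      have h1 : Continuous fun τ : ℝ => G (x + τ • w) w :=
        (h.contG w).comp (continuous_const.add (continuous_id.smul continuous_const))
      have h2 := (h1.tendsto 0).mono_left (nhdsWithin_le_nhds (s := Ioi 0))
      simpa using h2
    have hev : ∀ᶠ τ : ℝ in 𝓝[>] 0, G (x + τ • w) w < 0 := hcont.eventually (gt_mem_nhds hgw)
    obtain ⟨τ, hτ1, hτ2⟩ := (hev.and self_mem_nhdsWithin).exists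
    have hτ0 : (0 : ℝ) < τ := hτ2
    have h3 := h.sub (x + τ • w) x
    have h4 : x - (x + τ • w) = -(τ • w) := by abel
    rw [h4, map_neg, map_smul, smul_eq_mul, hx] at h3
    have h5 : q (x + τ • w) ≤ 1 := by nlinarith
    have h6 := hmax _ h5
    rw [map_add, map_smul, smul_eq_mul] at h6
    nlinarith
  have key2 : ∀ u, G x u = 0 → f u = 0 := by
    intro u hu
    apply le_antisymm (key u hu)
    have := key (-u) (by rw [map_neg, hu, neg_zero])
    rw [map_neg] at this
    linarith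
  have h1 := key2 (v - (G x v / G x x) • x) (by
    rw [map_sub, map_smul, smul_eq_mul, div_mul_cancel₀ _ (by linarith : G x x ≠ 0), sub_self])
  rw [map_sub, map_smul, smul_eq_mul] at h1
  have h2 : f v = G x v / G x x * f x := by linarith
  rw [h2, div_mul_eq_mul_div, div_mul_cancel₀ _ (by linarith : G x x ≠ 0)]

/-- A maximiser with positive value lies on the boundary. -/
theorem Cvx.bdry (h : Cvx q G) {f : V →ₗ[ℝ] ℝ} {x : V} (hx : q x ≤ 1)
    (hmax : ∀ z, q z ≤ 1 → f z ≤ f x) (hpos : 0 < f x) : q x = 1 := by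
  by_contra hne
  have hlt : q x < 1 := lt_of_le_of_ne hx hne
  have hcont : Tendsto (fun τ : ℝ => q (x + τ • x)) (𝓝[>] 0) (𝓝 (q x)) := by
    have h1 : Continuous fun τ : ℝ => q (x + τ • x) :=
      h.contq.comp (continuous_const.add (continuous_id.smul continuous_const))
    have h2 := (h1.tendsto 0).mono_left (nhdsWithin_le_nhds (s := Ioi 0))
    simpa using h2
  have hev : ∀ᶠ τ : ℝ in 𝓝[>] 0, q (x + τ • x) < 1 := hcont.eventually (gt_mem_nhds hlt)
  obtain ⟨τ, hτ1, hτ2⟩ := (hev.and self_mem_nhdsWithin).exists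
  have hτ0 : (0 : ℝ) < τ := hτ2
  have h6 := hmax _ hτ1.le
  rw [map_add, map_smul, smul_eq_mul] at h6
  nlinarith

theorem Cvx.convexE (h : Cvx q G) : Convex ℝ {x | q x ≤ 1} := by
  intro x hx y hy a b ha hb hab
  have hx' : q x ≤ 1 := hx
  have hy' : q y ≤ 1 := hy
  show q (a • x + b • y) ≤ 1
  set z := a • x + b • y with hz
  have h1 := h.sub z x
  have h2 := h.sub z y
  have h3 : a * G z (x - z) + b * G z (y - z) = 0 := by
    have h4 : a • (x - z) + b • (y - z) = 0 := by
      have : a • (x - z) + b • (y - z) = (a • x + b • y) - (a + b) • z := by module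
      rw [this, hab, one_smul, ← hz, sub_self]
    have h5 := congrArg (G z) h4
    rwa [map_add, map_smul, map_smul, smul_eq_mul, smul_eq_mul, map_zero] at h5
  have h6 := mul_le_mul_of_nonneg_left (h1.trans hx') ha
  have h7 := mul_le_mul_of_nonneg_left (h2.trans hy') hb
  have h8 : q z = a * q z + b * q z := by rw [← add_mul, hab, one_mul]
  nlinarith

end

section Body

variable {V : Type} [NormedAddCommGroup V] [NormedSpace ℝ V] [FiniteDimensional ℝ V]
  {q : V → ℝ} {G : V → V →ₗ[ℝ] ℝ} {T : Set V}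

/-- The body spanned by the spikes and the smooth convex set. -/
def Body (T : Set V) (q : V → ℝ) : Set V := convexHull ℝ (convexHull ℝ T ∪ {x | q x ≤ 1})

theorem mem_Body (h : Cvx q G) (hT : T.Nonempty) {x : V} :
    x ∈ Body T q ↔ ∃ k ∈ convexHull ℝ T, ∃ e, q e ≤ 1 ∧ ∃ a b : ℝ, 0 ≤ a ∧ 0 ≤ b ∧ a + b = 1 ∧
      a • k + b • e = x := by
  have h0 : ({x | q x ≤ 1} : Set V).Nonempty := ⟨0, h.zero.trans zero_le_one⟩
  unfold Body
  rw [(convex_convexHull ℝ T).convexHull_union h.convexE hT.convexHull h0, mem_convexJoin]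
  constructor
  · rintro ⟨k, hk, e, he, a, b, ha, hb, hab, hx⟩
    exact ⟨k, hk, e, he, a, b, ha, hb, hab, hx⟩
  · rintro ⟨k, hk, e, he, a, b, ha, hb, hab, hx⟩
    exact ⟨k, hk, e, he, a, b, ha, hb, hab, hx⟩

theorem hull_le {f : V →ₗ[ℝ] ℝ} {μ : ℝ} (hf : ∀ s ∈ T, f s ≤ μ) {x : V}
    (hx : x ∈ convexHull ℝ T) : f x ≤ μ := by
  have h1 : convexHull ℝ T ⊆ {x | f x ≤ μ} :=
    convexHull_min hf (convex_halfSpace_le f.isLinear μ)
  exact h1 hx

/-- Smooth points of the range force the gradient to be invariant. -/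
theorem claim1 (h : Cvx q G) (hT : T.Nonempty) {P : V →ₗ[ℝ] V}
    (hPB : ∀ x ∈ Body T q, P x ∈ Body T q) {x : V} (hPx : P x = x) (hqx : q x = 1)
    (hs : ∀ s ∈ T, G x s < G x x) (v : V) : G x (P v) = G x v := by
  have hgx := h.one_le hqx
  have hB : ∀ z ∈ Body T q, G x z ≤ G x x := by
    intro z hz
    obtain ⟨k, hk, e, he, a, b, ha, hb, hab, rfl⟩ := (mem_Body h hT).1 hz
    have h1 : G x k ≤ G x x := hull_le (fun s hs' => (hs s hs').le) hk
    have h2 := h.sub x e
    rw [map_sub, hqx] at h2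
    have h3 : G x e ≤ G x x := by linarith
    rw [map_add, map_smul, map_smul, smul_eq_mul, smul_eq_mul]
    nlinarith
  have hmax : ∀ z, q z ≤ 1 → (G x ∘ₗ P) z ≤ (G x ∘ₗ P) x := by
    intro z hz
    have h1 : z ∈ Body T q := subset_convexHull ℝ _ (Or.inr hz)
    have h2 := hB _ (hPB z h1)
    rw [LinearMap.comp_apply, LinearMap.comp_apply, hPx]
    exact h2
  have h4 := h.max_smul hqx hmax v
  rw [LinearMap.comp_apply, LinearMap.comp_apply, hPx] at h4
  have h5 : G x x ≠ 0 := by linarith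
  exact mul_right_cancel₀ h5 h4

/-- Step B1: invariant functionals are dominated by the spikes. -/
theorem stepB1 (h : Cvx q G) (hT : T.Nonempty) (hTneg : ∀ s ∈ T, -s ∈ T) {P : V →ₗ[ℝ] V}
    (hPP : ∀ x, P (P x) = P x) (hPB : ∀ x ∈ Body T q, P x ∈ Body T q)
    (hA : ∀ x, P x = x → q x = 1 → (∀ s ∈ T, G x s < G x x) → False)
    {ψ : V →ₗ[ℝ] ℝ} (hψ : ∀ v, ψ (P v) = ψ v) {μ : ℝ} (hμ : ∀ s ∈ T, ψ s ≤ μ) {x : V}
    (hx : x ∈ Body T q) : ψ x ≤ μ := by
  by_contra hcon
  push Not at hcon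
  have hμ0 : 0 ≤ μ := by
    obtain ⟨s, hs⟩ := hT
    have h1 := hμ s hs
    have h2 := hμ _ (hTneg s hs)
    rw [map_neg] at h2
    linarith
  have hψc : Continuous ψ := ψ.continuous_of_finiteDimensional
  obtain ⟨e, he, hemax⟩ := h.cpt.exists_isMaxOn ⟨0, h.zero.trans zero_le_one⟩ hψc.continuousOn
  have hemax' : ∀ z, q z ≤ 1 → ψ z ≤ ψ e := fun z hz => hemax hz
  have hM : μ < ψ e := by
    obtain ⟨k, hk, e', he', a, b, ha, hb, hab, rfl⟩ := (mem_Body h hT).1 hx
    have h1 := hull_le hμ hk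
    have h2 := hemax' e' he'
    rw [map_add, map_smul, map_smul, smul_eq_mul, smul_eq_mul] at hcon
    by_contra h3
    push Not at h3
    nlinarith
  obtain ⟨k, hk, e', he', a, b, ha, hb, hab, hPe⟩ := (mem_Body h hT).1
    (hPB e (subset_convexHull ℝ _ (Or.inr he)))
  have h1 := hull_le hμ hk
  have h2 := hemax' e' he'
  have h3 : ψ (P e) = ψ e := hψ e
  rw [← hPe, map_add, map_smul, map_smul, smul_eq_mul, smul_eq_mul] at h3
  have ha0 : a = 0 := by
    by_contra hne
    have hapos : 0 < a := lt_of_le_of_ne ha (Ne.symm hne)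
    nlinarith
  have hb1 : b = 1 := by linarith
  rw [ha0, hb1, zero_smul, one_smul, zero_add] at hPe
  -- the point
  have hx0 : P e' = e' := by rw [hPe, hPP]
  have hψe' : ψ e' = ψ e := by rw [hPe, hψ]
  have hmax : ∀ z, q z ≤ 1 → ψ z ≤ ψ e' := fun z hz => by rw [hψe']; exact hemax' z hz
  have hq1 : q e' = 1 := h.bdry he' hmax (by rw [hψe']; linarith)
  refine hA e' hx0 hq1 fun s hs => ?_
  have h4 := h.max_smul hq1 hmax s
  have h5 := hμ s hs
  have h6 := h.one_le hq1
  rw [hψe'] at h4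
  have h7 : ψ s * G e' e' ≤ μ * G e' e' := mul_le_mul_of_nonneg_right h5 (by linarith)
  have h8 : μ * G e' e' < ψ e * G e' e' := mul_lt_mul_of_pos_right hM (by linarith)
  have h9 : G e' s * ψ e < G e' e' * ψ e := by linarith
  exact lt_of_mul_lt_mul_right h9 (by linarith)

end Body

end Pool.Agent.Proj
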