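import Pool.Agent.Work.MP_30cf1a_an.Trace

set_option autoImplicit false

/-!
# The averaging projection of the cube
-/

namespace Pool.Agent.Proj

open Filter Topology Set

variable {n : ℕ}

theorem cube_hull {x : Fin n → ℝ} (hx : ‖x‖ ≤ 1) : x ∈ convexHull ℝ (range (sv (n := n))) := by
  have h1 : x ∈ convexHull ℝ ((univ : Set (Fin n)).pi fun _ => ({-1, 1} : Set ℝ)) := by
    refine mem_convexHull_pi fun i _ => ?_
    rw [convexHull_pair, segment_eq_Icc (by norm_num : (-1 : ℝ) ≤ 1)]
    have := (norm_le_pi_norm x i).trans hx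
    rw [Real.norm_eq_abs, abs_le] at this
    exact this
  refine convexHull_mono ?_ h1
  intro y hy
  refine ⟨fun j => decide (y j = 1), ?_⟩
  ext j
  have hyj := hy j (mem_univ j)
  unfold sv
  by_cases h1 : y j = 1
  · simp [h1]
  · rcases hyj with h | h
    · have h2 : decide (y j = 1) = false := by simpa using h1
      have h3 : (if decide (y j = 1) = true then (1 : ℝ) else -1) = -1 := by rw [h2]; rfl
      exact h3.trans h.symm
    · exact absurd h h1

/-- The averaging projection onto the sum-zero hyperplane. -/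
noncomputable def P0 (n : ℕ) : (Fin n → ℝ) →ₗ[ℝ] (Fin n → ℝ) where
  toFun x := fun j => x j - (∑ k, x k) / n
  map_add' x y := by
    ext j
    simp only [Pi.add_apply, Finset.sum_add_distrib]
    ring
  map_smul' a x := by
    ext j
    simp only [Pi.smul_apply, smul_eq_mul, ← Finset.mul_sum, RingHom.id_apply]
    ring

theorem P0_apply (x : Fin n → ℝ) (j : Fin n) : P0 n x j = x j - (∑ k, x k) / n := rfl

theorem sum_P0 (hn : 1 ≤ n) (x : Fin n → ℝ) : ∑ j, P0 n x j = 0 := by
  simp_rw [P0_apply]
  rw [Finset.sum_sub_distrib, Finset.sum_const, Finset.card_univ, Fintype.card_fin, nsmul_eq_mul]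
  have : (n : ℝ) ≠ 0 := by
    have : (1 : ℝ) ≤ n := by exact_mod_cast hn
    linarith
  field_simp
  ring

/-- The normalised image of a spike. -/
noncomputable def wv (i : Fin n) : Fin n → ℝ := fun j => if j = i then 1 else -(1 / ((n : ℝ) - 1))

theorem wv_mem (hn : 3 ≤ n) (i : Fin n) : wv i ∈ convexHull ℝ (Tset n) := by
  have hn' : (3 : ℝ) ≤ n := by exact_mod_cast hn
  have hn1 : (n : ℝ) - 1 ≠ 0 := by linarith
  have hmem : ∀ j : Fin n, spike j ∈ convexHull ℝ (Tset n) := fun j =>
    subset_convexHull ℝ _ (Or.inl ⟨j, rfl⟩)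
  have hmem' : ∀ j : Fin n, -spike j ∈ convexHull ℝ (Tset n) := fun j =>
    subset_convexHull ℝ _ (Or.inr ⟨j, rfl⟩)
  have hcard : ((Finset.univ.erase i : Finset (Fin n)).card : ℝ) = (n : ℝ) - 1 := by
    rw [Finset.card_erase_of_mem (Finset.mem_univ i), Finset.card_univ, Fintype.card_fin]
    rw [Nat.cast_sub (by omega)]; simp
  have hu : ∑ j ∈ Finset.univ.erase i, (1 / ((n : ℝ) - 1)) • (-spike j)
      ∈ convexHull ℝ (Tset n) := by
    refine (convex_convexHull ℝ _).sum_mem (fun j _ => ?_) ?_ (fun j _ => hmem' j)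
    · have : (0 : ℝ) < (n : ℝ) - 1 := by linarith
      positivity
    · rw [Finset.sum_const, nsmul_eq_mul, hcard]
      field_simp
  have hw : wv i = (1 / 2 : ℝ) • spike i
      + (1 / 2 : ℝ) • ∑ j ∈ Finset.univ.erase i, (1 / ((n : ℝ) - 1)) • (-spike j) := by
    ext k
    rw [Pi.add_apply, Pi.smul_apply, Pi.smul_apply, Finset.sum_apply]
    simp only [Pi.smul_apply, Pi.neg_apply, smul_eq_mul]
    rw [← Finset.mul_sum, Finset.sum_neg_distrib]
    have h1 : ∑ j ∈ Finset.univ.erase i, spike j k
        = (if k = i then -((n : ℝ) - 1) else -((n : ℝ) - 3)) := by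
      have h2 : ∀ j : Fin n, spike j k = (if k = j then (2 : ℝ) else 0) - 1 := by
        intro j; unfold spike; split_ifs <;> norm_num
      simp_rw [h2]
      rw [Finset.sum_sub_distrib, Finset.sum_const, nsmul_eq_mul, hcard,
        Finset.sum_ite_eq (Finset.univ.erase i) k]
      by_cases hk : k = i
      · simp [hk]
      · simp [hk]; ring
    rw [h1]
    unfold wv spike
    split_ifs
    · field_simp; norm_num
    · field_simp; ring
  rw [hw]
  exact (convex_convexHull ℝ _) (hmem i) hu (by norm_num) (by norm_num) (by norm_num)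

theorem sum_sv_eq (e : Fin n → Bool) :
    ∑ j, sv e j = 2 * ((Finset.univ.filter fun j => e j = true).card : ℝ) - n := by
  have h1 : ∀ j, sv e j = 2 * (if e j = true then (1 : ℝ) else 0) - 1 := by
    intro j; unfold sv; split_ifs <;> norm_num
  simp_rw [h1]
  rw [Finset.sum_sub_distrib, ← Finset.mul_sum, Finset.sum_boole]
  simp

/-- The averaging projection maps the cube into the body. -/
theorem P0_mem {B : Set (Fin n → ℝ)} (hn : 3 ≤ n) (hB : Convex ℝ B) (hsymm : ∀ x ∈ B, -x ∈ B)
    (hT : Tset n ⊆ B) {ρ : ℝ} (hρ : ((n : ℝ) - 2) / (n - 1) ≤ ρ)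
    (hball : ∀ x : Fin n → ℝ, ‖x‖ ≤ ρ → x ∈ B) {x : Fin n → ℝ} (hx : ‖x‖ ≤ 1) :
    ((n : ℝ) / (2 * (n - 1))) • P0 n x ∈ B := by
  have hn' : (3 : ℝ) ≤ n := by exact_mod_cast hn
  have hn0 : (n : ℝ) ≠ 0 := by linarith
  have hn1 : (n : ℝ) - 1 ≠ 0 := by linarith
  have hn1' : (0 : ℝ) < (n : ℝ) - 1 := by linarith
  set L : (Fin n → ℝ) →ₗ[ℝ] (Fin n → ℝ) := ((n : ℝ) / (2 * (n - 1))) • P0 n with hL
  have hconv : Convex ℝ (L ⁻¹' B) := hB.linear_preimage L
  suffices h : range (sv (n := n)) ⊆ L ⁻¹' B by
    exact (convexHull_min h hconv) (cube_hull hx)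
  rintro _ ⟨e, rfl⟩
  show L (sv e) ∈ B
  set p := (Finset.univ.filter fun j => e j = true).card with hp
  have hval : ∀ j, L (sv e) j = if e j = true then ((n : ℝ) - p) / (n - 1) else -(p / (n - 1)) := by
    intro j
    rw [hL, LinearMap.smul_apply, Pi.smul_apply, P0_apply, smul_eq_mul, sum_sv_eq, ← hp]
    unfold sv
    split_ifs
    · field_simp; ring
    · field_simp; ring
  have hKB : convexHull ℝ (Tset n) ⊆ B := convexHull_min hT hB
  by_cases h0 : p = 0
  · apply hball
    refine le_trans ?_ hρ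
    have hz : (0 : ℝ) ≤ ((n : ℝ) - 2) / (n - 1) := div_nonneg (by linarith) hn1'.le
    rw [pi_norm_le_iff_of_nonneg hz]
    intro j
    have hj : e j ≠ true := by
      intro hj
      have h1 : j ∈ (Finset.univ.filter fun j => e j = true) := by simp [hj]
      rw [hp, Finset.card_eq_zero] at h0
      rw [h0] at h1; simp at h1
    rw [hval, if_neg hj, h0]
    simpa using hz
  by_cases h1 : p = n
  · apply hball
    refine le_trans ?_ hρ
    have hz : (0 : ℝ) ≤ ((n : ℝ) - 2) / (n - 1) := div_nonneg (by linarith) hn1'.le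
    rw [pi_norm_le_iff_of_nonneg hz]
    intro j
    have hj : e j = true := by
      have h2 : (Finset.univ.filter fun j => e j = true) = Finset.univ := by
        apply Finset.eq_univ_of_card
        rw [← hp, h1, Fintype.card_fin]
      have h3 : j ∈ (Finset.univ.filter fun j => e j = true) := by rw [h2]; exact Finset.mem_univ j
      simpa using h3
    rw [hval, if_pos hj, h1]
    simpa using hz
  by_cases h2 : p = 1
  · rw [hp, Finset.card_eq_one] at h2
    obtain ⟨i, hi⟩ := h2
    have hej : ∀ j, e j = true ↔ j = i := by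
      intro j
      have : j ∈ (Finset.univ.filter fun j => e j = true) ↔ j = i := by rw [hi]; simp
      simpa using this
    have hp1 : p = 1 := by rw [hp, hi]; simp
    have h3 : L (sv e) = wv i := by
      ext j
      rw [hval, hp1]
      unfold wv
      by_cases hji : j = i
      · rw [if_pos ((hej j).2 hji), if_pos hji, Nat.cast_one, div_self hn1]
      · rw [if_neg (fun h => hji ((hej j).1 h)), if_neg hji, Nat.cast_one]
    rw [h3]
    exact hKB (wv_mem hn i)
  by_cases h3 : p = n - 1
  · have hcompl : (Finset.univ.filter fun j => e j = true)ᶜ.card = 1 := by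
      rw [Finset.card_compl, Fintype.card_fin, ← hp, h3]; omega
    rw [Finset.card_eq_one] at hcompl
    obtain ⟨i, hi⟩ := hcompl
    have hej : ∀ j, ¬ (e j = true) ↔ j = i := by
      intro j
      have : j ∈ (Finset.univ.filter fun j => e j = true)ᶜ ↔ j = i := by rw [hi]; simp
      simpa using this
    have hp1 : (p : ℝ) = n - 1 := by
      rw [h3, Nat.cast_sub (by omega)]; simp
    have h4 : L (sv e) = -wv i := by
      ext j
      rw [hval, hp1, Pi.neg_apply]
      unfold wv
      by_cases hji : j = i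
      · rw [if_neg ((hej j).2 hji), if_pos hji, div_self hn1]
      · have : e j = true := by
          by_contra hcon
          exact hji ((hej j).1 hcon)
        rw [if_pos this, if_neg hji, neg_neg]
        congr 1; ring
    rw [h4]
    exact hsymm _ (hKB (wv_mem hn i))
  -- middle case
  have hple : p ≤ n := by
    rw [hp]
    exact (Finset.card_le_univ _).trans (by rw [Fintype.card_fin])
  have hp2 : (2 : ℝ) ≤ p := by
    have : 2 ≤ p := by omega
    exact_mod_cast this
  have hp3 : (p : ℝ) ≤ n - 2 := by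
    have : p + 2 ≤ n := by omega
    have h5 : (p : ℝ) + 2 ≤ n := by exact_mod_cast this
    linarith
  apply hball
  refine le_trans ?_ hρ
  have hz : (0 : ℝ) ≤ ((n : ℝ) - 2) / (n - 1) := div_nonneg (by linarith) hn1'.le
  rw [pi_norm_le_iff_of_nonneg hz]
  intro j
  rw [hval, Real.norm_eq_abs]
  split_ifs
  · rw [abs_div, abs_of_pos hn1', abs_of_nonneg (by linarith)]
    exact div_le_div_of_nonneg_right (by linarith) hn1'.le
  · rw [abs_neg, abs_div, abs_of_pos hn1', abs_of_nonneg (by linarith)]
    exact div_le_div_of_nonneg_right (by linarith) hn1'.le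

end Pool.Agent.Proj
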