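import Mathlib

set_option autoImplicit false

/-!
# Relative projection constants
-/

namespace Pool.Agent.Proj

/-- `P` is a projection of `X` onto the subspace `Y`: `P(X) = Y` and `P` is the identity on `Y`. -/
def IsProjOnto {X : Type} [NormedAddCommGroup X] [NormedSpace ℝ X] (P : X →L[ℝ] X)
    (Y : Submodule ℝ X) : Prop :=
  LinearMap.range (P : X →ₗ[ℝ] X) = Y ∧ ∀ y ∈ Y, P y = y

/-- The relative projection constant `λ(Y, X)`: the infimum of the operator norms of the
projections of `X` onto `Y`. -/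
noncomputable def relProj {X : Type} [NormedAddCommGroup X] [NormedSpace ℝ X]
    (Y : Submodule ℝ X) : ℝ :=
  sInf {r : ℝ | ∃ P : X →L[ℝ] X, IsProjOnto P Y ∧ ‖P‖ = r}

/-- An `n`-dimensional normed space is extremal if it has a hyperplane `Y` with
`λ(Y, X) = 2 - 2 / n`. -/
def IsExtremal (n : ℕ) (X : Type) [NormedAddCommGroup X] [NormedSpace ℝ X] : Prop :=
  FiniteDimensional ℝ X ∧ Module.finrank ℝ X = n ∧
    ∃ Y : Submodule ℝ X, Module.finrank ℝ Y = n - 1 ∧ relProj Y = 2 - 2 / (n : ℝ)

/-- The integers `k ≤ n - 1` such that every extremal `n`-dimensional normed space has a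
`k`-dimensional subspace `Z` with `λ(Z, X) = 1`. -/
def kSet (n : ℕ) : Set ℕ :=
  {k | k ≤ n - 1 ∧ ∀ (X : Type) [NormedAddCommGroup X] [NormedSpace ℝ X], IsExtremal n X →
    ∃ Z : Submodule ℝ X, Module.finrank ℝ Z = k ∧ relProj Z = 1}

end Pool.Agent.Proj
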