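import Pool.Agent.Work.MP_30cf1a_an.Space
import Pool.Agent.Work.MP_30cf1a_an.Cube

set_option autoImplicit false

/-!
# The body gives an extremal space
-/

namespace Pool.Agent.Proj

open Filter Topology Set

variable {n : ℕ} {B : Set (Fin n → ℝ)} {X : Type} [NormedAddCommGroup X] [NormedSpace ℝ X]

theorem sup_le_norm (hQ : ∀ x ∈ B, ‖x‖ ≤ 1) (e : X ≃ₗ[ℝ] (Fin n → ℝ))
    (he : ∀ x : X, ‖x‖ ≤ 1 ↔ e x ∈ B) (x : X) : ‖e x‖ ≤ ‖x‖ := by
  by_cases hx : x = 0
  · rw [hx, map_zero]; simp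
  · have hpos : 0 < ‖x‖ := norm_pos_iff.2 hx
    have h1 : ‖(‖x‖)⁻¹ • x‖ ≤ 1 := by
      rw [norm_smul, norm_inv, norm_norm, inv_mul_cancel₀ hpos.ne']
    have h2 := hQ _ ((he _).1 h1)
    rw [map_smul, norm_smul, norm_inv, norm_norm, inv_mul_le_iff₀ hpos, mul_one] at h2
    exact h2

theorem norm_le_of_mem (e : X ≃ₗ[ℝ] (Fin n → ℝ))
    (he : ∀ x : X, ‖x‖ ≤ 1 ↔ e x ∈ B) {r : ℝ} (hr : 0 < r) {x : X} (hx : r⁻¹ • e x ∈ B) :
    ‖x‖ ≤ r := by
  rw [← map_smul, ← he, norm_smul, norm_inv, Real.norm_of_nonneg hr.le, inv_mul_le_iff₀ hr,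
    mul_one] at hx
  exact hx

theorem extremal_of_body (hn : 3 ≤ n) (hB : Convex ℝ B) (hsymm : ∀ x ∈ B, -x ∈ B)
    (hT : Tset n ⊆ B) (hQ : ∀ x ∈ B, ‖x‖ ≤ 1) {ρ : ℝ} (hρ : ((n : ℝ) - 2) / (n - 1) ≤ ρ)
    (hball : ∀ x : Fin n → ℝ, ‖x‖ ≤ ρ → x ∈ B) (e : X ≃ₗ[ℝ] (Fin n → ℝ))
    (he : ∀ x : X, ‖x‖ ≤ 1 ↔ e x ∈ B) : IsExtremal n X := by
  have hn' : (3 : ℝ) ≤ n := by exact_mod_cast hn
  have hn0 : (n : ℝ) ≠ 0 := by linarith
  have hn1 : (n : ℝ) - 1 ≠ 0 := by linarith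
  have hn1' : (0 : ℝ) < (n : ℝ) - 1 := by linarith
  have hfin : FiniteDimensional ℝ X := e.symm.finiteDimensional
  set σ : X →ₗ[ℝ] ℝ := (∑ k, LinearMap.proj k) ∘ₗ (e : X →ₗ[ℝ] (Fin n → ℝ)) with hσ
  have hσa : ∀ x, σ x = ∑ k, e x k := by
    intro x
    rw [hσ, LinearMap.comp_apply, LinearMap.sum_apply]
    rfl
  have hrank : Module.finrank ℝ X = n := by
    rw [e.finrank_eq, Module.finrank_fin_fun]
  -- a vector with coordinate sum one
  have i0 : Fin n := ⟨0, by omega⟩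
  set x₀ : X := e.symm (Pi.single i0 1) with hx₀
  have hσx₀ : σ x₀ = 1 := by
    rw [hσa, hx₀]
    simp
  have hσ0 : σ ≠ 0 := by
    intro h
    rw [h] at hσx₀
    simp at hσx₀
  refine ⟨hfin, hrank, LinearMap.ker σ, ?_, ?_⟩
  · have h1 := Module.Dual.finrank_ker_add_one_of_ne_zero (f := σ) hσ0
    omega
  apply le_antisymm
  · -- upper bound
    set P : X →ₗ[ℝ] X := (e.symm : (Fin n → ℝ) →ₗ[ℝ] X) ∘ₗ P0 n ∘ₗ (e : X →ₗ[ℝ] (Fin n → ℝ)) with hP
    have hPa : ∀ x, e (P x) = P0 n (e x) := by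
      intro x
      rw [hP]
      simp
    have hproj : IsProjOnto (LinearMap.toContinuousLinearMap P) (LinearMap.ker σ) := by
      rw [isProjOnto_iff]
      constructor
      · intro x
        rw [LinearMap.mem_ker, hσa]
        show ∑ k, e (P x) k = 0
        rw [hPa]
        exact sum_P0 (by omega) _
      · intro y hy
        rw [LinearMap.mem_ker, hσa] at hy
        show P y = y
        apply e.injective
        rw [hPa]
        ext j
        rw [P0_apply, hy, zero_div, sub_zero]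
    refine (relProj_le hproj).trans ?_
    have hr : (0 : ℝ) < 2 - 2 / n := by
      have : 2 / (n : ℝ) < 1 := by rw [div_lt_one (by linarith)]; linarith
      linarith
    refine ContinuousLinearMap.opNorm_le_bound _ hr.le fun x => ?_
    show ‖P x‖ ≤ _
    by_cases hx : x = 0
    · rw [hx, map_zero]; simp
    have hpos : 0 < ‖x‖ := norm_pos_iff.2 hx
    have h1 : ‖e ((‖x‖)⁻¹ • x)‖ ≤ 1 := by
      refine (sup_le_norm hQ e he _).trans ?_
      rw [norm_smul, norm_inv, norm_norm, inv_mul_cancel₀ hpos.ne']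
    have h2 := P0_mem hn hB hsymm hT hρ hball h1
    rw [← hPa] at h2
    have h3 : ((n : ℝ) / (2 * (n - 1))) = (2 - 2 / (n : ℝ))⁻¹ := by
      have : (2 - 2 / (n : ℝ)) = 2 * (n - 1) / n := by field_simp
      rw [this, inv_div]
    rw [h3] at h2
    have h4 := norm_le_of_mem e he hr h2
    rw [map_smul, norm_smul, norm_inv, norm_norm, inv_mul_le_iff₀ hpos] at h4
    linarith
  · -- lower bound
    apply le_relProj
    intro P hP
    rw [isProjOnto_iff] at hP
    obtain ⟨hP1, hP2⟩ := hP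
    set z : X := x₀ - P x₀ with hz
    have hσz : σ z = 1 := by
      have h1 := hP1 x₀
      rw [LinearMap.mem_ker] at h1
      rw [hz, map_sub, h1, hσx₀, sub_zero]
    have hPx : ∀ x, P x = x - σ x • z := by
      intro x
      have h1 : x - σ x • x₀ ∈ LinearMap.ker σ := by
        rw [LinearMap.mem_ker, map_sub, map_smul, hσx₀, smul_eq_mul, mul_one, sub_self]
      have h2 := hP2 _ h1
      rw [map_sub, map_smul] at h2
      rw [hz]
      have h3 : P x = (P x - σ x • P x₀) + σ x • P x₀ := by module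
      rw [h3, h2]; module
    have key : ∀ i : Fin n, (1 : ℝ) + ((n : ℝ) - 2) * e z i ≤ ‖P‖ := by
      intro i
      set s : X := e.symm (spike i) with hs
      have hes : e s = spike i := by rw [hs]; simp
      have hsn : ‖s‖ ≤ 1 := by rw [he, hes]; exact hT (Or.inl ⟨i, rfl⟩)
      have h1 : e (P s) i = (1 : ℝ) + ((n : ℝ) - 2) * e z i := by
        rw [hPx, map_sub, map_smul, hσa, hes, spike_sum, Pi.sub_apply, Pi.smul_apply, smul_eq_mul]
        have : spike i i = 1 := by unfold spike; simp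
        rw [this]; ring
      rw [← h1]
      calc e (P s) i ≤ |e (P s) i| := le_abs_self _
        _ ≤ ‖e (P s)‖ := norm_le_pi_norm (e (P s)) i
        _ ≤ ‖P s‖ := sup_le_norm hQ e he _
        _ ≤ ‖P‖ * ‖s‖ := P.le_opNorm s
        _ ≤ ‖P‖ * 1 := mul_le_mul_of_nonneg_left hsn (norm_nonneg _)
        _ = ‖P‖ := mul_one _
    have h1 : ∑ i : Fin n, ((1 : ℝ) + ((n : ℝ) - 2) * e z i) ≤ ∑ _i : Fin n, ‖P‖ :=
      Finset.sum_le_sum fun i _ => key i
    rw [Finset.sum_add_distrib, ← Finset.mul_sum, ← hσa, hσz, Finset.sum_const, Finset.sum_const,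
      Finset.card_univ, Fintype.card_fin, nsmul_eq_mul, nsmul_eq_mul] at h1
    have h2 : 2 - 2 / (n : ℝ) = (n * 1 + ((n : ℝ) - 2) * 1) / n := by field_simp; ring
    rw [h2, div_le_iff₀ (by linarith)]
    linarith

end Pool.Agent.Proj
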