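import Pool.Agent.Work.MP_30cf1a_an.Attain

set_option autoImplicit false

/-!
# A minimax argument for minimal projections onto a hyperplane
-/

namespace Pool.Agent.Proj

open Filter Topology Set

theorem isCompact_hull {E : Type} [NormedAddCommGroup E] [NormedSpace ℝ E]
    [FiniteDimensional ℝ E] {s : Set E} (hs : IsCompact s) : IsCompact (convexHull ℝ s) := by
  classical
  rcases s.eq_empty_or_nonempty with rfl | ⟨s0, hs0⟩
  · rw [convexHull_empty]; exact isCompact_empty
  set d : ℕ := Module.finrank ℝ E + 1 with hd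
  have hK : IsCompact ((stdSimplex ℝ (Fin d)) ×ˢ (univ.pi fun _ : Fin d => s)) :=
    (isCompact_stdSimplex ℝ (Fin d)).prod (isCompact_univ_pi fun _ => hs)
  have himg := hK.image (f := fun p : (Fin d → ℝ) × (Fin d → E) => ∑ i, p.1 i • p.2 i)
    (by fun_prop)
  convert himg using 1
  ext x
  constructor
  · intro hx
    obtain ⟨ι, _, z, w, hz, hind, hw, hsum, hx⟩ := eq_pos_convex_span_of_mem_convexHull hx
    have hcard : Fintype.card ι ≤ Fintype.card (Fin d) := by
      rw [Fintype.card_fin]
      exact hind.card_le_finrank_succ.trans (Nat.succ_le_succ (Submodule.finrank_le _))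
    obtain ⟨φ⟩ := Function.Embedding.nonempty_of_card_le hcard
    have hsplit : ∀ (F : Fin d → E), (∀ i, i ∉ range φ → F i = 0) →
        ∑ i, F i = ∑ j, F (φ j) := by
      intro F hF
      have h1 : ∑ j, F (φ j) = ∑ i ∈ Finset.univ.map φ, F i := by rw [Finset.sum_map]
      rw [h1]
      refine (Finset.sum_subset (Finset.subset_univ _) fun i _ hi => hF i ?_).symm
      rintro ⟨j, rfl⟩
      exact hi (Finset.mem_map_of_mem φ (Finset.mem_univ j))
    have hsplit' : ∀ (F : Fin d → ℝ), (∀ i, i ∉ range φ → F i = 0) →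
        ∑ i, F i = ∑ j, F (φ j) := by
      intro F hF
      have h1 : ∑ j, F (φ j) = ∑ i ∈ Finset.univ.map φ, F i := by rw [Finset.sum_map]
      rw [h1]
      refine (Finset.sum_subset (Finset.subset_univ _) fun i _ hi => hF i ?_).symm
      rintro ⟨j, rfl⟩
      exact hi (Finset.mem_map_of_mem φ (Finset.mem_univ j))
    refine ⟨(Function.extend φ w 0, Function.extend φ z fun _ => s0), ⟨⟨?_, ?_⟩, ?_⟩, ?_⟩
    · intro i
      by_cases hi : ∃ j, φ j = i
      · obtain ⟨j, rfl⟩ := hi
        show 0 ≤ Function.extend φ w 0 (φ j)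
        rw [φ.injective.extend_apply]; exact (hw j).le
      · show 0 ≤ Function.extend φ w 0 i
        rw [Function.extend_apply' _ _ _ hi]; rfl
    · show ∑ i, Function.extend φ w 0 i = 1
      rw [hsplit' _ (fun i hi => by rw [Function.extend_apply' _ _ _ hi]; rfl)]
      simp_rw [φ.injective.extend_apply]
      exact hsum
    · intro i _
      show Function.extend φ z (fun _ => s0) i ∈ s
      by_cases hi : ∃ j, φ j = i
      · obtain ⟨j, rfl⟩ := hi
        rw [φ.injective.extend_apply]; exact hz ⟨j, rfl⟩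
      · rw [Function.extend_apply' _ _ _ hi]; exact hs0
    · show ∑ i, Function.extend φ w 0 i • Function.extend φ z (fun _ => s0) i = x
      rw [hsplit _ (fun i hi => by
        have : Function.extend φ w 0 i = 0 := by rw [Function.extend_apply' _ _ _ hi]; rfl
        rw [this, zero_smul])]
      simp_rw [φ.injective.extend_apply]
      exact hx
  · rintro ⟨⟨w, z⟩, ⟨hw, hz⟩, rfl⟩
    exact (convex_convexHull ℝ s).sum_mem (fun i _ => hw.1 i) hw.2
      (fun i _ => subset_convexHull ℝ s (hz i (mem_univ i)))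

theorem minimax {X : Type} [NormedAddCommGroup X] [NormedSpace ℝ X] [FiniteDimensional ℝ X]
    {f : X →L[ℝ] ℝ} {z₀ : X} (hz : f z₀ = 1) {lam : ℝ}
    (h : ∀ P : X →L[ℝ] X, IsProjOnto P (LinearMap.ker (f : X →ₗ[ℝ] ℝ)) → lam ≤ ‖P‖) :
    ∃ (ι : Type) (_ : Fintype ι) (w : ι → ℝ) (x : ι → X) (g : ι → X →L[ℝ] ℝ),
      (∀ i, 0 < w i) ∧ ∑ i, w i = 1 ∧ (∀ i, ‖x i‖ ≤ 1) ∧ (∀ i, ‖g i‖ ≤ 1) ∧
      (∀ v, f v = 0 → ∑ i, w i * (f (x i) * g i v) = 0) ∧
      lam ≤ ∑ i, w i * (g i (x i) - f (x i) * g i z₀) := by
  classical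
  have hpX : ProperSpace X := FiniteDimensional.proper_real X
  have hpD : ProperSpace (X →L[ℝ] ℝ) := FiniteDimensional.proper_real _
  set m : ℕ := Module.finrank ℝ (LinearMap.ker (f : X →ₗ[ℝ] ℝ)) with hm
  set b := Module.finBasis ℝ (LinearMap.ker (f : X →ₗ[ℝ] ℝ)) with hb
  set S : Set (X × (X →L[ℝ] ℝ)) := Metric.closedBall 0 1 ×ˢ Metric.closedBall 0 1 with hS
  have hScomp : IsCompact S := (isCompact_closedBall _ _).prod (isCompact_closedBall _ _)
  set F : X × (X →L[ℝ] ℝ) → ℝ × (Fin m → ℝ) :=
    fun p => (p.2 p.1 - f p.1 * p.2 z₀, fun k => f p.1 * p.2 (b k : X)) with hF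
  have hFc : Continuous F := by
    rw [hF]
    refine Continuous.prodMk ?_ (continuous_pi fun k => ?_)
    · have h1 : Continuous fun p : X × (X →L[ℝ] ℝ) => p.2 p.1 :=
        continuous_snd.clm_apply continuous_fst
      have h2 : Continuous fun p : X × (X →L[ℝ] ℝ) => p.2 z₀ :=
        continuous_snd.clm_apply continuous_const
      exact h1.sub ((f.continuous.comp continuous_fst).mul h2)
    · have h2 : Continuous fun p : X × (X →L[ℝ] ℝ) => p.2 (b k : X) :=
        continuous_snd.clm_apply continuous_const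
      exact (f.continuous.comp continuous_fst).mul h2
  set C : Set (ℝ × (Fin m → ℝ)) := convexHull ℝ (F '' S) with hC
  have hCcomp : IsCompact C := isCompact_hull (hScomp.image hFc)
  set D : Set (ℝ × (Fin m → ℝ)) := {p | lam ≤ p.1 ∧ p.2 = 0} with hD
  have hDclosed : IsClosed D :=
    (isClosed_le continuous_const continuous_fst).inter
      (isClosed_eq continuous_snd continuous_const)
  have hDconv : Convex ℝ D := by
    rintro ⟨p1, p2⟩ ⟨hp1, hp2⟩ ⟨q1, q2⟩ ⟨hq1, hq2⟩ α β hα hβ hαβ
    simp only at hp1 hp2 hq1 hq2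
    refine ⟨?_, ?_⟩
    · show lam ≤ α * p1 + β * q1
      have : lam = α * lam + β * lam := by rw [← add_mul, hαβ, one_mul]
      nlinarith
    · show α • p2 + β • q2 = 0
      rw [hp2, hq2, smul_zero, smul_zero, add_zero]
  by_cases hdisj : Disjoint C D
  · exfalso
    obtain ⟨Λ, u, v, hu, huv, hv⟩ := geometric_hahn_banach_compact_closed
      (convex_convexHull ℝ _) hCcomp hDconv hDclosed hdisj
    set α : ℝ := Λ (1, 0) with hα
    have hΛ : ∀ (t : ℝ) (y : Fin m → ℝ), Λ (t, y) = t * α + ∑ k, y k * Λ (0, Pi.single k 1) := by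
      intro t y
      have h1 : (t, y) = t • ((1 : ℝ), (0 : Fin m → ℝ))
          + ∑ k, y k • ((0 : ℝ), (Pi.single k (1 : ℝ) : Fin m → ℝ)) := by
        ext i
        · simp [Prod.fst_sum]
        · simp [Prod.snd_sum, Finset.sum_apply, Pi.single_apply]
      rw [h1, map_add, map_smul, map_sum]
      simp only [map_smul, smul_eq_mul, hα]
    have h0 : 0 < u := by
      have h1 : F (0, 0) ∈ C := subset_convexHull ℝ _ ⟨(0, 0), by simp [hS], rfl⟩
      have h2 := hu _ h1
      have h3 : F (0, 0) = 0 := by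
        rw [hF]; ext <;> simp
      rw [h3, map_zero] at h2
      exact h2
    have hα0 : 0 < α := by
      have h1 := hv (|lam| + 1, 0) ⟨by show lam ≤ |lam| + 1; linarith [le_abs_self lam], rfl⟩
      rw [hΛ] at h1
      simp only [Pi.zero_apply, zero_mul, Finset.sum_const_zero, add_zero] at h1
      by_contra hneg
      push Not at hneg
      nlinarith [abs_nonneg lam]
    have hlam : v < lam * α := by
      have h1 := hv (lam, 0) ⟨le_refl _, rfl⟩
      rw [hΛ] at h1
      simpa using h1
    set y : X := ∑ k, (Λ (0, Pi.single k 1) / α) • (b k : X) with hy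
    have hfy : f y = 0 := by
      rw [hy, map_sum]
      refine Finset.sum_eq_zero fun k _ => ?_
      have : f (b k : X) = 0 := (b k).2
      rw [map_smul, this, smul_zero]
    set z : X := z₀ - y with hzdef
    have hfz : f z = 1 := by rw [hzdef, map_sub, hfy, hz, sub_zero]
    set P : X →L[ℝ] X := ContinuousLinearMap.id ℝ X - f.smulRight z with hP
    have hPa : ∀ x, P x = x - f x • z := fun x => by rw [hP]; simp
    have hproj : IsProjOnto P (LinearMap.ker (f : X →ₗ[ℝ] ℝ)) := by
      rw [isProjOnto_iff]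
      constructor
      · intro x
        show f (P x) = 0
        rw [hPa, map_sub, map_smul, hfz, smul_eq_mul, mul_one, sub_self]
      · intro y hy
        have : f y = 0 := hy
        rw [hPa, this, zero_smul, sub_zero]
    have hbound : ∀ x : X, ‖x‖ ≤ 1 → ‖P x‖ ≤ u / α := by
      intro x hx
      obtain ⟨g, hg1, hg2⟩ := exists_dual_vector'' ℝ (P x)
      have h1 : F (x, g) ∈ C := subset_convexHull ℝ _ ⟨(x, g), by
        rw [hS]; exact ⟨by rw [mem_closedBall_zero_iff]; exact hx,
          by rw [mem_closedBall_zero_iff]; exact hg1⟩, rfl⟩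
      have h2 := hu _ h1
      rw [hF] at h2
      simp only at h2
      rw [hΛ] at h2
      have h3 : g (P x) = g x - f x * g z₀ + f x * g y := by
        rw [hPa, map_sub, map_smul, hzdef, map_sub, smul_eq_mul]; ring
      have h4 : g y = (∑ k, g (b k : X) * Λ (0, Pi.single k 1)) / α := by
        rw [hy, map_sum, Finset.sum_div]
        refine Finset.sum_congr rfl fun k _ => ?_
        rw [map_smul, smul_eq_mul]; ring
      have h5 : ∑ k, f x * g (b k : X) * Λ (0, Pi.single k 1)
          = f x * ∑ k, g (b k : X) * Λ (0, Pi.single k 1) := by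
        rw [Finset.mul_sum]
        refine Finset.sum_congr rfl fun k _ => ?_
        ring
      rw [h5] at h2
      have h6 : g (P x) * α < u := by
        rw [h3, h4]
        have : (g x - f x * g z₀ + f x * ((∑ k, g (b k : X) * Λ (0, Pi.single k 1)) / α)) * α
            = (g x - f x * g z₀) * α + f x * ∑ k, g (b k : X) * Λ (0, Pi.single k 1) := by
          field_simp
        rw [this]
        exact h2
      have h7 : g (P x) = ‖P x‖ := by simpa using hg2
      rw [le_div_iff₀ hα0, ← h7]
      exact h6.le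
    have hPn : ‖P‖ ≤ u / α := by
      refine ContinuousLinearMap.opNorm_le_of_unit_norm (by positivity) fun x hx => hbound x hx.le
    have h1 := (h P hproj).trans hPn
    rw [le_div_iff₀ hα0] at h1
    linarith
  · rw [Set.not_disjoint_iff] at hdisj
    obtain ⟨p, hpC, hpD1, hpD2⟩ := hdisj
    obtain ⟨ι, hι, q, w, hq, -, hw, hsum, hp⟩ := eq_pos_convex_span_of_mem_convexHull hpC
    have hq' : ∀ i, ∃ s ∈ S, F s = q i := fun i => hq ⟨i, rfl⟩
    choose s hs hFs using hq'
    refine ⟨ι, hι, w, fun i => (s i).1, fun i => (s i).2, hw, hsum, fun i => ?_, fun i => ?_, ?_, ?_⟩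
    · have := (hs i).1
      rwa [mem_closedBall_zero_iff] at this
    · have := (hs i).2
      rwa [mem_closedBall_zero_iff] at this
    · intro v hv
      have hk : ∀ k, ∑ i, w i * (f (s i).1 * (s i).2 (b k : X)) = 0 := by
        intro k
        have h1 : p.2 k = 0 := by rw [hpD2]; rfl
        rw [← hp, Prod.snd_sum, Finset.sum_apply] at h1
        rw [← h1]
        refine Finset.sum_congr rfl fun i _ => ?_
        rw [← hFs i]
        rfl
      have hvr := b.sum_repr ⟨v, hv⟩
      have hvr' : v = ∑ k, b.repr ⟨v, hv⟩ k • (b k : X) := by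
        have h2 := congrArg (fun y : LinearMap.ker (f : X →ₗ[ℝ] ℝ) => (y : X)) hvr
        simp only [Submodule.coe_sum, Submodule.coe_smul] at h2
        exact h2.symm
      have h3 : ∀ i, w i * (f (s i).1 * (s i).2 v)
          = ∑ k, b.repr ⟨v, hv⟩ k * (w i * (f (s i).1 * (s i).2 (b k : X))) := by
        intro i
        conv_lhs => rw [hvr']
        rw [map_sum, Finset.mul_sum, Finset.mul_sum]
        refine Finset.sum_congr rfl fun k _ => ?_
        rw [map_smul, smul_eq_mul]; ring
      simp_rw [h3]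
      rw [Finset.sum_comm]
      refine Finset.sum_eq_zero fun k _ => ?_
      rw [← Finset.mul_sum, hk k, mul_zero]
    · refine hpD1.trans (le_of_eq ?_)
      rw [← hp, Prod.fst_sum]
      refine Finset.sum_congr rfl fun i _ => ?_
      rw [← hFs i]
      rfl

end Pool.Agent.Proj
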