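import Mathlib

set_option autoImplicit false

/-!
# Odd powers
-/

namespace Pool.Agent.Proj

open Filter Topology Set

/-- The odd power function. -/
noncomputable def sg (γ t : ℝ) : ℝ := (max t 0) ^ γ - (max (-t) 0) ^ γ

theorem sg_neg (γ t : ℝ) : sg γ (-t) = - sg γ t := by
  unfold sg; rw [neg_neg]; ring

theorem sg_zero {γ : ℝ} : sg γ 0 = 0 := by
  unfold sg; simp

theorem sg_pos {γ t : ℝ} (h0 : γ ≠ 0) (ht : 0 ≤ t) : sg γ t = t ^ γ := by
  unfold sg
  rw [max_eq_left ht, max_eq_right (by linarith : -t ≤ 0), Real.zero_rpow h0, sub_zero]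

theorem pow_holder {γ : ℝ} (h0 : 0 ≤ γ) (h1 : γ ≤ 1) {x y : ℝ} (hx : 0 ≤ x) (hy : 0 ≤ y) :
    |x ^ γ - y ^ γ| ≤ |x - y| ^ γ := by
  wlog hxy : y ≤ x generalizing x y
  · rw [abs_sub_comm, abs_sub_comm x y]
    exact this hy hx (le_of_not_ge hxy)
  have h2 := Real.rpow_add_le_add_rpow hy (sub_nonneg.2 hxy) h0 h1
  rw [add_sub_cancel] at h2
  rw [abs_of_nonneg (sub_nonneg.2 hxy), abs_of_nonneg (sub_nonneg.2
    (Real.rpow_le_rpow hy hxy h0))]
  linarith

theorem sg_holder {γ : ℝ} (h0 : 0 ≤ γ) (h1 : γ ≤ 1) (a b : ℝ) :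
    |sg γ a - sg γ b| ≤ 2 * |a - b| ^ γ := by
  have h2 := pow_holder h0 h1 (le_max_right a 0) (le_max_right b 0)
  have h3 := pow_holder h0 h1 (le_max_right (-a) 0) (le_max_right (-b) 0)
  have h4 : |max a 0 - max b 0| ≤ |a - b| := abs_max_sub_max_le_abs _ _ _
  have h5 : |max (-a) 0 - max (-b) 0| ≤ |a - b| := by
    have := abs_max_sub_max_le_abs (-a) (-b) 0
    rwa [neg_sub_neg, abs_sub_comm b a] at this
  have h6 := Real.rpow_le_rpow (abs_nonneg _) h4 h0
  have h7 := Real.rpow_le_rpow (abs_nonneg _) h5 h0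
  have h8 : sg γ a - sg γ b = (max a 0 ^ γ - max b 0 ^ γ) - (max (-a) 0 ^ γ - max (-b) 0 ^ γ) := by
    unfold sg; ring
  rw [h8]
  have h9 := abs_sub (max a 0 ^ γ - max b 0 ^ γ) (max (-a) 0 ^ γ - max (-b) 0 ^ γ)
  linarith

theorem sg_continuous {γ : ℝ} (h0 : 0 ≤ γ) : Continuous (sg γ) := by
  unfold sg
  exact ((continuous_id.max continuous_const).rpow_const fun _ => Or.inr h0).sub
    ((continuous_neg.max continuous_const).rpow_const fun _ => Or.inr h0)

theorem sg_bigO {γ : ℝ} (h0 : γ ≠ 0) {b : ℝ} (hb : b ≠ 0) :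
    (fun a => sg γ a - sg γ b) =O[𝓝 b] (fun a => a - b) := by
  have main : ∀ b : ℝ, 0 < b → (fun a => sg γ a - sg γ b) =O[𝓝 b] (fun a => a - b) := by
    intro b hb
    have h1 : (fun a : ℝ => a ^ γ - b ^ γ) =O[𝓝 b] (fun a => a - b) :=
      (Real.hasDerivAt_rpow_const (Or.inl hb.ne')).isBigO_sub
    refine h1.congr' ?_ (EventuallyEq.refl _ _)
    filter_upwards [lt_mem_nhds hb] with a ha
    rw [sg_pos h0 (le_of_lt ha), sg_pos h0 hb.le]
  rcases lt_or_gt_of_ne hb with h | h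
  · have h1 := main (-b) (by linarith)
    have h2 : Tendsto (fun a : ℝ => -a) (𝓝 b) (𝓝 (-b)) := tendsto_id.neg
    have h3 := (h1.comp_tendsto h2).neg_left.neg_right
    refine h3.congr (fun a => ?_) (fun a => ?_)
    · simp only [Function.comp, sg_neg]; ring
    · simp only [Function.comp]; ring
  · exact main b h

theorem sg_bound {γ : ℝ} (h0 : 0 ≤ γ) (h1 : γ ≤ 1) (t : ℝ) : |sg γ t| ≤ 2 * (1 + |t|) := by
  have h2 := sg_holder h0 h1 t 0
  rw [sg_zero, sub_zero, sub_zero] at h2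
  have h3 : |t| ^ γ ≤ 1 + |t| := by
    calc |t| ^ γ ≤ (1 + |t|) ^ γ := Real.rpow_le_rpow (abs_nonneg t) (by linarith) h0
      _ ≤ (1 + |t|) ^ (1 : ℝ) :=
          Real.rpow_le_rpow_of_exponent_le (by linarith [abs_nonneg t]) h1
      _ = 1 + |t| := Real.rpow_one _
  linarith

/-- Tangent line inequality for the positive part. -/
theorem pow_tangent {p : ℝ} (hp : 1 < p) {x y : ℝ} :
    (max x 0) ^ p + p * (max x 0) ^ (p - 1) * (y - x) ≤ (max y 0) ^ p := by
  have hy0 : 0 ≤ (max y 0) ^ p := Real.rpow_nonneg (le_max_right _ _) _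
  rcases le_or_gt x 0 with hx | hx
  · rw [max_eq_right hx, Real.zero_rpow (by linarith), Real.zero_rpow (by linarith)]
    linarith
  · rw [max_eq_left hx.le]
    have hxp : 0 < x ^ (p - 1) := Real.rpow_pos_of_pos hx _
    have hxx : x ^ p = x ^ (p - 1) * x := by
      rw [← Real.rpow_add_one hx.ne', sub_add_cancel]
    rcases le_or_gt y 0 with hy | hy
    · have h2 : x ^ p + p * x ^ (p - 1) * (y - x) ≤ 0 := by
        rw [hxx]
        have h3 : p * x ^ (p - 1) * (y - x) ≤ p * x ^ (p - 1) * (-x) :=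
          mul_le_mul_of_nonneg_left (by linarith) (by positivity)
        have h4 : 0 < x ^ (p - 1) * x := by positivity
        nlinarith
      linarith
    · rw [max_eq_left hy.le]
      have h2 := one_add_mul_self_le_rpow_one_add (s := y / x - 1) (by
        have : 0 < y / x := by positivity
        linarith) hp.le
      rw [add_sub_cancel, Real.div_rpow hy.le hx.le, le_div_iff₀ (Real.rpow_pos_of_pos hx p)] at h2
      have h3 : (1 + p * (y / x - 1)) * x ^ p = x ^ p + p * x ^ (p - 1) * (y - x) := by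
        rw [hxx]; field_simp
      linarith

/-- The even potential. -/
noncomputable def pt (γ t : ℝ) : ℝ := ((max t 0) ^ (1 + γ) + (max (-t) 0) ^ (1 + γ)) / (1 + γ)

theorem pt_tangent {γ : ℝ} (h0 : 0 < γ) (x y : ℝ) : pt γ x + sg γ x * (y - x) ≤ pt γ y := by
  have h1 := pow_tangent (p := 1 + γ) (by linarith) (x := x) (y := y)
  have h2 := pow_tangent (p := 1 + γ) (by linarith) (x := -x) (y := -y)
  rw [add_sub_cancel_left] at h1 h2
  unfold pt sg
  rw [le_div_iff₀ (by linarith)]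
  have h3 : (((max x 0) ^ (1 + γ) + (max (-x) 0) ^ (1 + γ)) / (1 + γ)
      + ((max x 0) ^ γ - (max (-x) 0) ^ γ) * (y - x)) * (1 + γ)
      = ((max x 0) ^ (1 + γ) + (max (-x) 0) ^ (1 + γ))
        + (1 + γ) * ((max x 0) ^ γ - (max (-x) 0) ^ γ) * (y - x) := by
    field_simp
  rw [h3]
  nlinarith

theorem pt_nonneg {γ : ℝ} (h0 : 0 < γ) (x : ℝ) : 0 ≤ pt γ x := by
  unfold pt
  have := Real.rpow_nonneg (le_max_right x 0) (1 + γ)
  have := Real.rpow_nonneg (le_max_right (-x) 0) (1 + γ)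
  positivity

theorem pt_zero {γ : ℝ} (h0 : 0 < γ) : pt γ 0 = 0 := by
  unfold pt
  rw [neg_zero, max_self, Real.zero_rpow (by linarith)]
  simp

theorem pt_neg (γ x : ℝ) : pt γ (-x) = pt γ x := by
  unfold pt; rw [neg_neg, add_comm]

/-- A crude bound on the potential. -/
theorem pt_le {γ : ℝ} (h0 : 0 < γ) (h1 : γ ≤ 1) (x : ℝ) : pt γ x ≤ 2 * (1 + |x|) * |x| := by
  have h2 := pt_tangent h0 x 0
  rw [pt_zero h0] at h2
  have h3 : pt γ x ≤ sg γ x * x := by linarith
  have h4 := sg_bound h0.le h1 x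
  calc pt γ x ≤ sg γ x * x := h3
    _ ≤ |sg γ x * x| := le_abs_self _
    _ = |sg γ x| * |x| := abs_mul _ _
    _ ≤ _ := mul_le_mul_of_nonneg_right h4 (abs_nonneg x)

theorem pt_continuous {γ : ℝ} (h0 : 0 < γ) : Continuous (pt γ) := by
  unfold pt
  exact (((continuous_id.max continuous_const).rpow_const fun _ => Or.inr (by linarith)).add
    ((continuous_neg.max continuous_const).rpow_const fun _ => Or.inr (by linarith))).div_const _

end Pool.Agent.Proj
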