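import Mathlib

set_option autoImplicit false

/-!
# A dense sequence in general position
-/

namespace Pool.Agent.Proj

open Filter Topology Set

theorem exists_strong_rec {α : Type} (good : (i : ℕ) → (∀ j, j < i → α) → α → Prop)
    (h : ∀ i prev, ∃ x, good i prev x) : ∃ c : ℕ → α, ∀ i, good i (fun j _ => c j) (c i) := by
  classical
  choose F hF using h
  let c : ℕ → α := fun i => Nat.strongRec (motive := fun _ => α) (fun i ih => F i ih) i
  refine ⟨c, fun i => ?_⟩
  have h1 : c i = F i (fun j _ => c j) := by
    simp only [c]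
    rw [Nat.strongRec]
  rw [h1]
  exact hF i _

variable {D : Type} [NormedAddCommGroup D] [NormedSpace ℝ D] [FiniteDimensional ℝ D]

theorem exists_avoid (S : Set (Submodule ℝ D)) (hS : S.Countable) (hproper : ∀ H ∈ S, H ≠ ⊤)
    {U : Set D} (hU : IsOpen U) (hne : U.Nonempty) : ∃ x ∈ U, ∀ H ∈ S, x ∉ H := by
  have : CompleteSpace D := FiniteDimensional.complete ℝ D
  have hdense : Dense (⋂ H ∈ S, ((H : Set D)ᶜ)) := by
    refine dense_biInter_of_isOpen (fun H hH => ?_) hS (fun H hH => ?_)
    · exact (Submodule.closed_of_finiteDimensional H).isOpen_compl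
    · rw [← interior_eq_empty_iff_dense_compl]
      by_contra hcon
      exact hproper H hH (H.eq_top_of_nonempty_interior' (nonempty_iff_ne_empty.2 hcon))
  obtain ⟨x, hxU, hx⟩ := hdense.inter_open_nonempty U hU hne
  refine ⟨x, hxU, fun H hH => ?_⟩
  simp only [mem_iInter] at hx
  exact hx H hH

/-- A dense sequence such that every proper subspace contains only finitely many terms. -/
theorem exists_dense_general [Nontrivial D] :
    ∃ c : ℕ → D, DenseRange c ∧ ∀ H : Submodule ℝ D, H ≠ ⊤ → {i | c i ∈ H}.Finite := by
  classical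
  set d : ℕ → D := TopologicalSpace.denseSeq D with hd
  set N : ℕ := Module.finrank ℝ D with hN
  have hex : ∀ (i : ℕ) (prev : ∀ j, j < i → D), ∃ x : D, dist x (d i) < 1 / ((i : ℝ) + 1) ∧
      ∀ T : Finset (Fin i), T.card < N → x ∉ Submodule.span ℝ ((fun j : Fin i => prev j j.2) '' T) := by
    intro i prev
    obtain ⟨x, hx1, hx2⟩ := exists_avoid
      (Set.range fun T : {T : Finset (Fin i) // T.card < N} =>
        Submodule.span ℝ ((fun j : Fin i => prev j j.2) '' (T.1 : Set (Fin i))))
      (Set.countable_range _) (by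
        rintro _ ⟨⟨T, hT⟩, rfl⟩ htop
        have h1 : Module.finrank ℝ (Submodule.span ℝ ((fun j : Fin i => prev j j.2) ''
            (T : Set (Fin i)))) ≤ T.card := by
          have h2 : ((fun j : Fin i => prev j j.2) '' (T : Set (Fin i)))
              = ((T.image (fun j : Fin i => prev j j.2) : Finset D) : Set D) := by
            rw [Finset.coe_image]
          rw [h2]
          exact (finrank_span_finset_le_card _).trans Finset.card_image_le
        have h3 : Submodule.span ℝ ((fun j : Fin i => prev j j.2) '' (T : Set (Fin i))) = ⊤ := htop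
        rw [h3, finrank_top] at h1
        omega)
      (U := Metric.ball (d i) (1 / ((i : ℝ) + 1))) Metric.isOpen_ball
      ⟨d i, Metric.mem_ball_self (by positivity)⟩
    exact ⟨x, hx1, fun T hT => hx2 _ ⟨⟨T, hT⟩, rfl⟩⟩
  obtain ⟨c, hc⟩ := exists_strong_rec (fun i prev x => dist x (d i) < 1 / ((i : ℝ) + 1) ∧
      ∀ T : Finset (Fin i), T.card < N → x ∉ Submodule.span ℝ ((fun j : Fin i => prev j j.2) '' T))
    hex
  refine ⟨c, ?_, fun H hH => ?_⟩
  · -- density
    rw [DenseRange, Metric.dense_iff]
    intro x r hr
    -- infinitely many `d i` in the ball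
    obtain ⟨M, hM⟩ := exists_nat_gt (2 / r)
    have hdd : Dense (range d \ (d '' (Set.Iio M))) :=
      Dense.sdiff_finite (TopologicalSpace.denseRange_denseSeq D) ((Set.finite_Iio M).image d)
    obtain ⟨_, hy1, ⟨i, rfl⟩, hy2⟩ := Metric.dense_iff.1 hdd x (r / 2) (half_pos hr)
    have hiM : M ≤ i := by
      by_contra hlt
      push Not at hlt
      exact hy2 ⟨i, hlt, rfl⟩
    refine ⟨c i, ?_, i, rfl⟩
    have h1 := (hc i).1
    have h2 : 1 / ((i : ℝ) + 1) ≤ r / 2 := by
      have h3 : (M : ℝ) ≤ i := by exact_mod_cast hiM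
      rw [div_le_div_iff₀ (by positivity) (by norm_num)]
      rw [div_lt_iff₀ hr] at hM
      nlinarith
    rw [Metric.mem_ball] at hy1 ⊢
    have := dist_triangle (c i) (d i) x
    linarith
  · -- general position
    by_contra hinf
    obtain ⟨S, hSsub, hScard⟩ := (show {i | c i ∈ H}.Infinite from hinf).exists_subset_card_eq N
    have hind : ∀ S : Finset ℕ, S.card ≤ N → LinearIndepOn ℝ c (S : Set ℕ) := by
      intro S
      induction S using Finset.induction_on_max with
      | empty => intro _; simp
      | insert a S hmax ih =>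
        intro hcard
        have haS : a ∉ S := fun h => lt_irrefl _ (hmax a h)
        rw [Finset.card_insert_of_notMem haS] at hcard
        rw [Finset.coe_insert]
        refine (ih (by omega)).insert ?_
        have h1 := (hc a).2 (S.attach.image fun j => ⟨j.1, hmax j.1 j.2⟩) (by
          refine lt_of_le_of_lt Finset.card_image_le ?_
          rw [Finset.card_attach]; omega)
        have h2 : (fun j : Fin a => c j) '' ((S.attach.image fun j =>
            (⟨j.1, hmax j.1 j.2⟩ : Fin a) : Finset (Fin a)) : Set (Fin a)) = c '' (S : Set ℕ) := by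
          ext y
          simp only [Finset.coe_image, mem_image, Finset.mem_coe, Finset.mem_attach, true_and]
          constructor
          · rintro ⟨_, ⟨⟨j, hj⟩, rfl⟩, rfl⟩
            exact ⟨j, hj, rfl⟩
          · rintro ⟨j, hj, rfl⟩
            exact ⟨⟨j, hmax j hj⟩, ⟨⟨j, hj⟩, rfl⟩, rfl⟩
        rw [h2] at h1
        exact h1
    have h1 := hind S hScard.le
    have h2 : Submodule.span ℝ (c '' (S : Set ℕ)) ≤ H := by
      rw [Submodule.span_le]
      rintro _ ⟨i, hi, rfl⟩
      exact hSsub hi
    have h3 : Module.finrank ℝ (Submodule.span ℝ (c '' (S : Set ℕ))) = N := by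
      have h4 := finrank_span_set_eq_card (R := ℝ) (s := c '' (S : Set ℕ)) h1.id_image
      rw [h4]
      have h5 : (c '' (S : Set ℕ)).toFinset = S.image c := by
        ext y; simp
      rw [h5, Finset.card_image_of_injOn h1.injOn, hScard]
    apply hH
    apply Submodule.eq_top_of_finrank_eq
    apply le_antisymm (Submodule.finrank_le H)
    rw [← hN, ← h3]
    exact Submodule.finrank_mono h2

end Pool.Agent.Proj
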