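import Pool.Agent.Work.MP_30cf1a_an.Attain

set_option autoImplicit false

/-!
# Normed spaces from convex bodies
-/

namespace Pool.Agent.Proj

open Filter Topology Set

variable {n : ℕ}

/-- A symmetric convex body in `ℝⁿ`. -/
structure Good (B : Set (Fin n → ℝ)) : Prop where
  conv : Convex ℝ B
  symm : ∀ x ∈ B, -x ∈ B
  closed : IsClosed B
  bdd : Bornology.IsBounded B
  nhds : B ∈ 𝓝 (0 : Fin n → ℝ)

/-- The space `ℝⁿ` with unit ball `B`. -/
def GX (_B : Set (Fin n → ℝ)) : Type := Fin n → ℝ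

instance (B : Set (Fin n → ℝ)) : AddCommGroup (GX B) := inferInstanceAs (AddCommGroup (Fin n → ℝ))

instance (B : Set (Fin n → ℝ)) : Module ℝ (GX B) := inferInstanceAs (Module ℝ (Fin n → ℝ))

noncomputable instance (B : Set (Fin n → ℝ)) : Norm (GX B) := ⟨fun x => gauge B (x : Fin n → ℝ)⟩

/-- The identity map. -/
def GX.e (B : Set (Fin n → ℝ)) : GX B ≃ₗ[ℝ] (Fin n → ℝ) := LinearEquiv.refl ℝ (Fin n → ℝ)

theorem GX.norm_def {B : Set (Fin n → ℝ)} (x : GX B) : ‖x‖ = gauge B (GX.e B x) := rfl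

theorem gauge_smul' {B : Set (Fin n → ℝ)} (h : Good B) (c : ℝ) (x : Fin n → ℝ) :
    gauge B (c • x) = ‖c‖ * gauge B x := by
  rcases le_total 0 c with hc | hc
  · rw [gauge_smul_of_nonneg hc, Real.norm_of_nonneg hc, smul_eq_mul]
  · have h1 : c • x = -((-c) • x) := by module
    rw [h1, gauge_neg h.symm, gauge_smul_of_nonneg (by linarith : 0 ≤ -c), Real.norm_of_nonpos hc,
      smul_eq_mul]

theorem GX.core {B : Set (Fin n → ℝ)} (h : Good B) : NormedSpace.Core ℝ (GX B) where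
  norm_nonneg x := gauge_nonneg _
  norm_smul c x := gauge_smul' h c (GX.e B x)
  norm_triangle x y := gauge_add_le h.conv (absorbent_nhds_zero h.nhds) (GX.e B x) (GX.e B y)
  norm_eq_zero_iff x := gauge_eq_zero (absorbent_nhds_zero h.nhds)
    (NormedSpace.isVonNBounded_of_isBounded ℝ h.bdd)

theorem gauge_le_one_iff' {B : Set (Fin n → ℝ)} (h : Good B) (x : Fin n → ℝ) :
    gauge B x ≤ 1 ↔ x ∈ B := by
  rw [gauge_le_one_iff_mem_closure h.conv h.nhds, h.closed.closure_eq]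

/-- Abstract form: a normed space with unit ball `B`. -/
theorem exists_space {B : Set (Fin n → ℝ)} (h : Good B) :
    ∃ (X : Type) (_ : NormedAddCommGroup X) (_ : NormedSpace ℝ X) (e : X ≃ₗ[ℝ] (Fin n → ℝ)),
      ∀ x : X, ‖x‖ ≤ 1 ↔ e x ∈ B := by
  letI i1 : NormedAddCommGroup (GX B) := NormedAddCommGroup.ofCore (GX.core h)
  letI i2 : NormedSpace ℝ (GX B) := NormedSpace.ofCore (GX.core h)
  refine ⟨GX B, i1, i2, GX.e B, fun x => ?_⟩
  exact gauge_le_one_iff' h (GX.e B x)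

end Pool.Agent.Proj
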