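import Mathlib

set_option autoImplicit false

/-!
# The trace bound
-/

namespace Pool.Agent.Proj

open Filter Topology Set

variable {n : ℕ}

/-- The spikes. -/
def spike (i : Fin n) : Fin n → ℝ := fun j => if j = i then 1 else -1

/-- The set of all signed spikes. -/
def Tset (n : ℕ) : Set (Fin n → ℝ) := range (spike (n := n)) ∪ range (fun i : Fin n => -spike i)

theorem spike_sum (i : Fin n) : ∑ j, spike i j = 2 - (n : ℝ) := by
  have h1 : ∀ j, spike i j = (if j = i then (2 : ℝ) else 0) - 1 := by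
    intro j; unfold spike; split_ifs <;> norm_num
  simp_rw [h1]
  rw [Finset.sum_sub_distrib, Finset.sum_ite_eq' Finset.univ i]
  simp

/-- Coordinates with respect to the spikes. -/
noncomputable def xi (j : Fin n) : (Fin n → ℝ) →ₗ[ℝ] ℝ :=
  (1 / 2 : ℝ) • (LinearMap.proj j - (1 / ((n : ℝ) - 2)) • ∑ k, LinearMap.proj k)

theorem xi_apply (j : Fin n) (y : Fin n → ℝ) :
    xi j y = (1 / 2) * (y j - (1 / ((n : ℝ) - 2)) * ∑ k, y k) := by
  unfold xi
  simp [LinearMap.sum_apply]

theorem xi_spike (hn : 3 ≤ n) (j i : Fin n) : xi j (spike i) = if j = i then 1 else 0 := by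
  have h1 : (3 : ℝ) ≤ n := by exact_mod_cast hn
  have h2 : (n : ℝ) - 2 ≠ 0 := by linarith
  rw [xi_apply, spike_sum]
  have h3 : 1 / ((n : ℝ) - 2) * (2 - (n : ℝ)) = -1 := by field_simp; ring
  rw [h3]
  unfold spike
  split_ifs <;> norm_num

theorem sum_xi_le (hn : 3 ≤ n) {y : Fin n → ℝ} (hy : y ∈ convexHull ℝ (Tset n)) :
    ∑ j, |xi j y| ≤ 1 := by
  have hconv : Convex ℝ {y : Fin n → ℝ | ∑ j, |xi j y| ≤ 1} := by
    intro x hx y hy a b ha hb hab
    have hx' : ∑ j, |xi j x| ≤ 1 := hx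
    have hy' : ∑ j, |xi j y| ≤ 1 := hy
    show ∑ j, |xi j (a • x + b • y)| ≤ 1
    calc ∑ j, |xi j (a • x + b • y)| ≤ ∑ j, (a * |xi j x| + b * |xi j y|) := by
          refine Finset.sum_le_sum fun j _ => ?_
          rw [map_add, map_smul, map_smul, smul_eq_mul, smul_eq_mul]
          refine (abs_add_le _ _).trans ?_
          rw [abs_mul, abs_mul, abs_of_nonneg ha, abs_of_nonneg hb]
      _ = a * ∑ j, |xi j x| + b * ∑ j, |xi j y| := by
          rw [Finset.sum_add_distrib, Finset.mul_sum, Finset.mul_sum]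
      _ ≤ a * 1 + b * 1 := add_le_add (mul_le_mul_of_nonneg_left hx' ha)
          (mul_le_mul_of_nonneg_left hy' hb)
      _ = 1 := by rw [mul_one, mul_one, hab]
  refine convexHull_min ?_ hconv hy
  rintro _ (⟨i, rfl⟩ | ⟨i, rfl⟩)
  · show ∑ j, |xi j (spike i)| ≤ 1
    simp_rw [xi_spike hn]
    have : ∀ j : Fin n, |(if j = i then (1 : ℝ) else 0)| = if j = i then 1 else 0 := by
      intro j; split_ifs <;> simp
    simp_rw [this]
    rw [Finset.sum_ite_eq' Finset.univ i]; simp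
  · show ∑ j, |xi j (-spike i)| ≤ 1
    simp_rw [map_neg, abs_neg, xi_spike hn]
    have : ∀ j : Fin n, |(if j = i then (1 : ℝ) else 0)| = if j = i then 1 else 0 := by
      intro j; split_ifs <;> simp
    simp_rw [this]
    rw [Finset.sum_ite_eq' Finset.univ i]; simp

/-- Sign vectors. -/
def sv (e : Fin n → Bool) : Fin n → ℝ := fun j => if e j then 1 else -1

theorem sv_norm (e : Fin n → Bool) : ‖sv e‖ ≤ 1 := by
  rw [pi_norm_le_iff_of_nonneg zero_le_one]
  intro j
  unfold sv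
  split_ifs <;> simp

theorem sv_abs (e : Fin n → Bool) (j : Fin n) : |sv e j| = 1 := by
  unfold sv
  split_ifs <;> simp

theorem sum_sv (j k : Fin n) :
    ∑ e : Fin n → Bool, sv e j * sv e k = if j = k then (2 : ℝ) ^ n else 0 := by
  by_cases hjk : j = k
  · subst hjk
    rw [if_pos rfl]
    have h1 : ∀ e : Fin n → Bool, sv e j * sv e j = 1 := by
      intro e
      have := sv_abs e j
      rw [← abs_mul_abs_self, this]; norm_num
    simp_rw [h1]
    simp
  · rw [if_neg hjk]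
    -- flip the coordinate `j`
    have hinv : Function.Involutive fun e : Fin n → Bool => Function.update e j (!(e j)) := by
      intro e
      ext i
      by_cases hi : i = j
      · subst hi; simp
      · simp [hi]
    have h1 := Equiv.sum_comp (hinv.toPerm _) (fun e : Fin n → Bool => sv e j * sv e k)
    have h2 : ∀ e : Fin n → Bool, sv ((hinv.toPerm _) e) j * sv ((hinv.toPerm _) e) k
        = -(sv e j * sv e k) := by
      intro e
      have h3 : (hinv.toPerm _) e = Function.update e j (!(e j)) := rfl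
      rw [h3]
      unfold sv
      rw [Function.update_self, Function.update_of_ne (Ne.symm hjk)]
      cases e j <;> cases e k <;> simp
    simp_rw [h2] at h1
    rw [Finset.sum_neg_distrib] at h1
    linarith

theorem sv_decomp (P : (Fin n → ℝ) →ₗ[ℝ] (Fin n → ℝ)) (x : Fin n → ℝ) :
    P x = ∑ k, x k • P (Pi.single k 1) := by
  have h1 : x = ∑ k, x k • (Pi.single k (1 : ℝ) : Fin n → ℝ) := by
    ext i
    rw [Finset.sum_apply]
    simp [Pi.single_apply]
  conv_lhs => rw [h1]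
  rw [map_sum]
  simp_rw [map_smul]

/-- The trace bound. -/
theorem trace_bound (hn : 3 ≤ n) {ρ : ℝ} (hρ : 0 < ρ) (hρ2 : 3 - 8 / (2 : ℝ) ^ n < 3 * ρ)
    (P : (Fin n → ℝ) →ₗ[ℝ] (Fin n → ℝ))
    (hP : ∀ x : Fin n → ℝ, ‖x‖ ≤ ρ → P x ∈ convexHull ℝ (Tset n)) :
    ∑ j, P (Pi.single j 1) j < 3 := by
  set A : Fin n → Fin n → ℝ := fun j k => xi j (P (Pi.single k 1)) with hA
  set F : (Fin n → Bool) → ℝ := fun e => ∑ j, sv e j * xi j (P (sv e)) with hF
  have hFle : ∀ e, ∑ j, |xi j (P (sv e))| ≤ 1 / ρ := by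
    intro e
    have h1 : ‖ρ • sv e‖ ≤ ρ := by
      rw [norm_smul, Real.norm_of_nonneg hρ.le]
      have := sv_norm e
      nlinarith
    have h2 := sum_xi_le hn (hP _ h1)
    simp_rw [map_smul, smul_eq_mul, abs_mul, abs_of_pos hρ] at h2
    rw [← Finset.mul_sum] at h2
    rw [le_div_iff₀ hρ]
    linarith
  have hF1 : ∀ e, |F e| ≤ 1 / ρ := by
    intro e
    refine le_trans ?_ (hFle e)
    rw [hF]
    refine (Finset.abs_sum_le_sum_abs _ _).trans (Finset.sum_le_sum fun j _ => ?_)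
    rw [abs_mul, sv_abs, one_mul]
  have hFA : ∀ e, F e = ∑ j, ∑ k, (sv e j * sv e k) * A j k := by
    intro e
    rw [hF]
    refine Finset.sum_congr rfl fun j _ => ?_
    rw [sv_decomp P (sv e), map_sum, Finset.mul_sum]
    refine Finset.sum_congr rfl fun k _ => ?_
    rw [map_smul, smul_eq_mul, hA]; ring
  have hFsum : ∑ e, F e = (2 : ℝ) ^ n * ∑ j, A j j := by
    simp_rw [hFA]
    rw [Finset.sum_comm, Finset.mul_sum]
    refine Finset.sum_congr rfl fun j _ => ?_
    rw [Finset.sum_comm]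
    simp_rw [← Finset.sum_mul, sum_sv]
    rw [Finset.sum_eq_single j]
    · rw [if_pos rfl]
    · intro k _ hk
      rw [if_neg (Ne.symm hk), zero_mul]
    · intro h; exact absurd (Finset.mem_univ j) h
  set tt : Fin n → Bool := fun _ => true with htt
  set ff : Fin n → Bool := fun _ => false with hff
  have hne : tt ≠ ff := by
    intro h
    have := congrFun h ⟨0, by omega⟩
    simp [htt, hff] at this
  have hFff : F ff = F tt := by
    rw [hFA, hFA]
    refine Finset.sum_congr rfl fun j _ => Finset.sum_congr rfl fun k _ => ?_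
    simp [sv, htt, hff]
  have hsplit : (1 / ρ - F tt) + (1 / ρ - F ff) ≤ ∑ e, (1 / ρ - F e) := by
    rw [← Finset.sum_pair (f := fun e => 1 / ρ - F e) hne]
    refine Finset.sum_le_sum_of_subset_of_nonneg (Finset.subset_univ _) fun e _ _ => ?_
    have := hF1 e
    rw [abs_le] at this
    linarith
  rw [Finset.sum_sub_distrib, hFsum, hFff] at hsplit
  have hcard : ∑ _e : Fin n → Bool, 1 / ρ = (2 : ℝ) ^ n * (1 / ρ) := by
    simp
  rw [hcard] at hsplit
  -- relate the diagonal sum to the trace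
  have h1 : (3 : ℝ) ≤ n := by exact_mod_cast hn
  have h2 : (n : ℝ) - 2 ≠ 0 := by linarith
  set σ : ℝ := ∑ k, ∑ j, P (Pi.single k 1) j with hσ
  have hdiag : ∑ j, A j j = (1 / 2) * (∑ j, P (Pi.single j 1) j - (1 / ((n : ℝ) - 2)) * σ) := by
    rw [hA]
    simp only [xi_apply]
    rw [← Finset.mul_sum, Finset.sum_sub_distrib, ← Finset.mul_sum]
  have hFtt : F tt = - (1 / ((n : ℝ) - 2)) * σ := by
    have h3 : F tt = ∑ k, ∑ j, A j k := by
      rw [hFA, Finset.sum_comm]
      refine Finset.sum_congr rfl fun k _ => Finset.sum_congr rfl fun j _ => ?_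
      simp [sv, htt]
    rw [h3, hσ, Finset.mul_sum]
    refine Finset.sum_congr rfl fun k _ => ?_
    rw [hA]
    simp only [xi_apply]
    rw [← Finset.mul_sum, Finset.sum_sub_distrib, Finset.sum_const, Finset.card_univ,
      Fintype.card_fin, nsmul_eq_mul]
    field_simp
    ring
  have h3 : ∑ j, P (Pi.single j 1) j = 2 * ∑ j, A j j - F tt := by
    rw [hdiag, hFtt]; ring
  have h4 := hF1 tt
  rw [abs_le] at h4
  have hpow : (0 : ℝ) < 2 ^ n := by positivity
  have hpow8 : (8 : ℝ) ≤ 2 ^ n := by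
    calc (8 : ℝ) = 2 ^ 3 := by norm_num
      _ ≤ 2 ^ n := pow_le_pow_right₀ (by norm_num) hn
  rw [h3]
  -- final inequality
  have h5 : (2 : ℝ) ^ n * ∑ j, A j j ≤ ((2 : ℝ) ^ n - 2) * (1 / ρ) + 2 * F tt := by linarith
  have h6 : (2 : ℝ) ^ n * (2 * ∑ j, A j j - F tt) ≤ (3 * (2 : ℝ) ^ n - 8) * (1 / ρ) := by
    nlinarith
  have h7 : (3 * (2 : ℝ) ^ n - 8) * (1 / ρ) < 3 * (2 : ℝ) ^ n := by
    rw [mul_one_div, div_lt_iff₀ hρ]
    have h8 : (3 - 8 / (2 : ℝ) ^ n) * 2 ^ n < 3 * ρ * 2 ^ n := mul_lt_mul_of_pos_right hρ2 hpow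
    have h9 : (3 - 8 / (2 : ℝ) ^ n) * 2 ^ n = 3 * 2 ^ n - 8 := by field_simp
    linarith
  have h8 : (2 : ℝ) ^ n * (2 * ∑ j, A j j - F tt) < (2 : ℝ) ^ n * 3 := by linarith
  exact lt_of_mul_lt_mul_left h8 hpow.le

end Pool.Agent.Proj
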