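import Pool.Agent.Work.MP_30cf1a_an.Core
import Pool.Agent.Work.MP_30cf1a_an.Seq
import Pool.Agent.Work.MP_30cf1a_an.Pow

set_option autoImplicit false

/-!
# Walls: gradients with singular hyperplanes
-/

namespace Pool.Agent.Proj

open Filter Topology Set

variable {V : Type} [NormedAddCommGroup V] [NormedSpace ℝ V]

theorem norm_lemma {q : V → ℝ} {G : V → V →ₗ[ℝ] ℝ} (h : Cvx q G) {x₁ : V} (hx : q x₁ = 1)
    (u : V) : ∃ K > 0, ∀ᶠ τ : ℝ in 𝓝 0, ∃ t : ℝ, |t - 1| ≤ K * |τ| ∧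
      q (t • (x₁ + τ • u)) = 1 := by
  set M : ℝ := |G x₁ u| + 1 with hM
  have hM0 : 0 < M := by positivity
  refine ⟨2 * M, by positivity, ?_⟩
  have hg := h.one_le hx
  set z : ℝ → V := fun τ => (1 - 2 * M * |τ|) • (x₁ + τ • u) with hz
  have hzc : Continuous z := by
    rw [hz]
    exact (continuous_const.sub (continuous_const.mul continuous_abs)).smul
      (continuous_const.add (continuous_id.smul continuous_const))
  have hz0 : z 0 = x₁ := by rw [hz]; simp
  have e1 : ∀ᶠ τ : ℝ in 𝓝 0, 1 / 2 < G (z τ) x₁ := by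
    have h1 : Tendsto (fun τ => G (z τ) x₁) (𝓝 0) (𝓝 (G x₁ x₁)) := by
      have := ((h.contG x₁).comp hzc).tendsto 0
      simpa [hz0, Function.comp_def] using this
    exact h1.eventually (lt_mem_nhds (by linarith))
  have e2 : ∀ᶠ τ : ℝ in 𝓝 0, |G (z τ) u| < M := by
    have h1 : Tendsto (fun τ => |G (z τ) u|) (𝓝 0) (𝓝 |G x₁ u|) := by
      have := ((h.contG u).comp hzc).abs.tendsto 0
      simpa [hz0, Function.comp_def] using this
    exact h1.eventually (gt_mem_nhds (by linarith))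
  have e3 : ∀ᶠ τ : ℝ in 𝓝 0, 2 * M * |τ| < 1 := by
    have h1 : Tendsto (fun τ : ℝ => 2 * M * |τ|) (𝓝 0) (𝓝 0) := by
      have : Continuous fun τ : ℝ => 2 * M * |τ| := continuous_const.mul continuous_abs
      simpa using this.tendsto 0
    exact h1.eventually (gt_mem_nhds one_pos)
  filter_upwards [e1, e2, e3] with τ h1 h2 h3
  have hτ := abs_nonneg τ
  -- upper point
  have hup : 1 ≤ q ((1 + 2 * M * |τ|) • (x₁ + τ • u)) := by
    have h4 := h.sub x₁ ((1 + 2 * M * |τ|) • (x₁ + τ • u))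
    have h5 : (1 + 2 * M * |τ|) • (x₁ + τ • u) - x₁
        = (2 * M * |τ|) • x₁ + ((1 + 2 * M * |τ|) * τ) • u := by module
    rw [h5, map_add, map_smul, map_smul, smul_eq_mul, smul_eq_mul, hx] at h4
    have h6 : |(1 + 2 * M * |τ|) * τ * G x₁ u| ≤ 2 * |τ| * M := by
      rw [abs_mul, abs_mul, abs_of_nonneg (by positivity : 0 ≤ 1 + 2 * M * |τ|)]
      have h7 : (1 + 2 * M * |τ|) * |τ| ≤ 2 * |τ| :=
        mul_le_mul_of_nonneg_right (by linarith) hτ
      exact mul_le_mul h7 (by linarith) (abs_nonneg _) (by positivity)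
    have h8 := neg_abs_le ((1 + 2 * M * |τ|) * τ * G x₁ u)
    have h9 : 2 * M * |τ| * 1 ≤ 2 * M * |τ| * G x₁ x₁ :=
      mul_le_mul_of_nonneg_left hg (by positivity)
    nlinarith
  have hlow : q ((1 - 2 * M * |τ|) • (x₁ + τ • u)) ≤ 1 := by
    have h4 := h.sub (z τ) x₁
    have h5 : x₁ - z τ = (2 * M * |τ|) • x₁ - ((1 - 2 * M * |τ|) * τ) • u := by
      rw [hz]; module
    rw [h5, map_sub, map_smul, map_smul, smul_eq_mul, smul_eq_mul, hx] at h4
    have h6 : |(1 - 2 * M * |τ|) * τ * G (z τ) u| ≤ |τ| * M := by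
      rw [abs_mul, abs_mul, abs_of_nonneg (by linarith : 0 ≤ 1 - 2 * M * |τ|)]
      have h7 : (1 - 2 * M * |τ|) * |τ| ≤ 1 * |τ| :=
        mul_le_mul_of_nonneg_right (by linarith [mul_nonneg (by positivity : 0 ≤ 2 * M) hτ]) hτ
      rw [one_mul] at h7
      exact mul_le_mul h7 h2.le (abs_nonneg _) hτ
    have h8 := le_abs_self ((1 - 2 * M * |τ|) * τ * G (z τ) u)
    have h9 : 2 * M * |τ| * (1 / 2) ≤ 2 * M * |τ| * G (z τ) x₁ :=
      mul_le_mul_of_nonneg_left h1.le (by positivity)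
    have h10 : q (z τ) ≤ 1 := by nlinarith
    exact h10
  have hcont : ContinuousOn (fun t : ℝ => q (t • (x₁ + τ • u)))
      (Icc (1 - 2 * M * |τ|) (1 + 2 * M * |τ|)) :=
    (h.contq.comp (continuous_id.smul continuous_const)).continuousOn
  obtain ⟨t, ht, hqt⟩ := intermediate_value_Icc
    (by linarith [mul_nonneg (by positivity : 0 ≤ 2 * M) hτ]) hcont ⟨hlow, hup⟩
  refine ⟨t, ?_, hqt⟩
  rw [abs_le]
  constructor <;> linarith [ht.1, ht.2]

/-- The structure of the gradient. -/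
structure Wall (G : V → V →ₗ[ℝ] ℝ) (G0 : V → V → ℝ) (β γ : ℕ → ℝ) (c : ℕ → V →L[ℝ] ℝ) :
    Prop where
  hG : ∀ x v, G x v = G0 x v + ∑' i, β i * sg (γ i) (c i x) * c i v
  lip : ∀ x v, (fun y => G0 y v - G0 x v) =O[𝓝 x] (fun y => y - x)
  βpos : ∀ i, 0 < β i
  γpos : ∀ i, 0 < γ i
  γlt : ∀ i, γ i < 1
  γmono : StrictMono γ
  summ : Summable fun i => β i * (1 + ‖c i‖) ^ 2

theorem Wall.summable {G : V → V →ₗ[ℝ] ℝ} {G0 : V → V → ℝ} {β γ : ℕ → ℝ} {c : ℕ → V →L[ℝ] ℝ}
    (w : Wall G G0 β γ c) (x v : V) : Summable fun i => β i * sg (γ i) (c i x) * c i v := by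
  refine Summable.of_norm_bounded (g := fun i => (β i * (1 + ‖c i‖) ^ 2) * (2 * (1 + ‖x‖) * ‖v‖))
    (w.summ.mul_right _) fun i => ?_
  have h1 := sg_bound (w.γpos i).le (w.γlt i).le (c i x)
  have h2 := (c i).le_opNorm x
  have h3 := (c i).le_opNorm v
  rw [Real.norm_eq_abs] at h2 h3
  have h4 : 2 * (1 + |c i x|) ≤ 2 * ((1 + ‖c i‖) * (1 + ‖x‖)) := by
    nlinarith [norm_nonneg x, norm_nonneg (c i)]
  rw [norm_mul, norm_mul, Real.norm_eq_abs, Real.norm_eq_abs, Real.norm_eq_abs,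
    abs_of_pos (w.βpos i)]
  have h5 : |sg (γ i) (c i x)| * |c i v| ≤ (2 * ((1 + ‖c i‖) * (1 + ‖x‖))) * ((1 + ‖c i‖) * ‖v‖) :=
    mul_le_mul (h1.trans h4) (h3.trans (by nlinarith [norm_nonneg v])) (abs_nonneg _)
      (by positivity)
  calc β i * |sg (γ i) (c i x)| * |c i v| = β i * (|sg (γ i) (c i x)| * |c i v|) := by ring
    _ ≤ β i * ((2 * ((1 + ‖c i‖) * (1 + ‖x‖))) * ((1 + ‖c i‖) * ‖v‖)) :=
        mul_le_mul_of_nonneg_left h5 (w.βpos i).le
    _ = _ := by ring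

theorem tendsto_rpow_zero {τ : ℕ → ℝ} (hτ : Tendsto τ atTop (𝓝 0)) {a : ℝ} (ha : 0 < a) :
    Tendsto (fun n => (τ n) ^ a) atTop (𝓝 0) := by
  have h1 : ContinuousAt (fun x : ℝ => x ^ a) 0 := Real.continuousAt_rpow_const 0 a (Or.inr ha.le)
  have h2 := h1.tendsto.comp hτ
  rw [Real.zero_rpow ha.ne'] at h2
  exact h2

theorem wall_limit {G : V → V →ₗ[ℝ] ℝ} {G0 : V → V → ℝ} {β γ : ℕ → ℝ} {c : ℕ → V →L[ℝ] ℝ}
    (w : Wall G G0 β γ c) {x₁ v : V} {i0 : ℕ} {τ : ℕ → ℝ} (hτ0 : ∀ n, 0 < τ n)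
    (hτ : Tendsto τ atTop (𝓝 0)) {x : ℕ → V} {C : ℝ} (hx : ∀ n, ‖x n - x₁‖ ≤ C * τ n)
    {t : ℕ → ℝ} (ht : Tendsto t atTop (𝓝 1)) (ht0 : ∀ n, 0 ≤ t n) (hcx1 : c i0 x₁ = 0)
    (hcx : ∀ n, c i0 (x n) = t n * τ n)
    (hlow : ∀ i < i0, (∀ n, c i (x n) = c i x₁) ∨ c i x₁ ≠ 0) :
    Tendsto (fun n => (G (x n) v - G x₁ v) / (τ n) ^ (γ i0)) atTop (𝓝 (β i0 * c i0 v)) := by
  have hC : 0 ≤ C := by
    have h1 := (norm_nonneg _).trans (hx 0)
    have h2 := hτ0 0
    by_contra hneg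
    push Not at hneg
    nlinarith
  have hτle : ∀ᶠ n in atTop, τ n ≤ 1 := by
    filter_upwards [hτ.eventually (gt_mem_nhds one_pos)] with n hn
    exact le_of_lt hn
  have hxlim : Tendsto x atTop (𝓝 x₁) := by
    rw [tendsto_iff_norm_sub_tendsto_zero]
    refine squeeze_zero (fun n => norm_nonneg _) hx ?_
    simpa using hτ.const_mul C
  -- Lipschitz quotient tends to zero
  have hquot : ∀ {g : ℕ → ℝ}, (g =O[atTop] fun n => x n - x₁) →
      Tendsto (fun n => g n / (τ n) ^ (γ i0)) atTop (𝓝 0) := by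
    intro g hg
    obtain ⟨L, hL⟩ := hg.bound
    have h1 : Tendsto (fun n => |L| * C * (τ n) ^ (1 - γ i0)) atTop (𝓝 0) := by
      have := (tendsto_rpow_zero hτ (sub_pos.2 (w.γlt i0))).const_mul (|L| * C)
      simpa using this
    refine squeeze_zero_norm' ?_ h1
    filter_upwards [hL] with n hn
    have hpos : 0 < (τ n) ^ (γ i0) := Real.rpow_pos_of_pos (hτ0 n) _
    rw [norm_div, Real.norm_of_nonneg hpos.le, div_le_iff₀ hpos, mul_assoc,
      ← Real.rpow_add (hτ0 n), sub_add_cancel, Real.rpow_one]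
    calc ‖g n‖ ≤ L * ‖x n - x₁‖ := hn
      _ ≤ |L| * ‖x n - x₁‖ := mul_le_mul_of_nonneg_right (le_abs_self _) (norm_nonneg _)
      _ ≤ |L| * (C * τ n) := mul_le_mul_of_nonneg_left (hx n) (abs_nonneg _)
      _ = _ := by ring
  have h0 : Tendsto (fun n => (G0 (x n) v - G0 x₁ v) / (τ n) ^ (γ i0)) atTop (𝓝 0) :=
    hquot ((w.lip x₁ v).comp_tendsto hxlim)
  -- the terms of the series
  set f : ℕ → ℕ → ℝ := fun n i =>
    (β i * sg (γ i) (c i (x n)) * c i v - β i * sg (γ i) (c i x₁) * c i v) / (τ n) ^ (γ i0) with hf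
  set g : ℕ → ℝ := fun i => if i = i0 then β i0 * c i0 v else 0 with hgdef
  have hcd : ∀ i n, |c i (x n) - c i x₁| ≤ ‖c i‖ * (C * τ n) := by
    intro i n
    rw [← map_sub, ← Real.norm_eq_abs]
    exact ((c i).le_opNorm _).trans (mul_le_mul_of_nonneg_left (hx n) (norm_nonneg _))
  -- high terms bound
  have hhigh : ∀ i, i0 < i → ∀ n, τ n ≤ 1 →
      |f n i| ≤ β i * (1 + ‖c i‖) ^ 2 * (2 * (1 + C) * ‖v‖) * (τ n) ^ (γ i - γ i0) := by
    intro i hi n hn
    have hpos : 0 < (τ n) ^ (γ i0) := Real.rpow_pos_of_pos (hτ0 n) _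
    have h1 := sg_holder (w.γpos i).le (w.γlt i).le (c i (x n)) (c i x₁)
    have h2 : |c i (x n) - c i x₁| ^ (γ i) ≤ ((1 + ‖c i‖) * (1 + C)) * (τ n) ^ (γ i) := by
      calc |c i (x n) - c i x₁| ^ (γ i) ≤ (((1 + ‖c i‖) * (1 + C)) * τ n) ^ (γ i) := by
            refine Real.rpow_le_rpow (abs_nonneg _) ((hcd i n).trans ?_) (w.γpos i).le
            have := hτ0 n
            rw [← mul_assoc]
            exact mul_le_mul_of_nonneg_right (by nlinarith [norm_nonneg (c i)]) this.le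
        _ = ((1 + ‖c i‖) * (1 + C)) ^ (γ i) * (τ n) ^ (γ i) :=
            Real.mul_rpow (by positivity) (hτ0 n).le
        _ ≤ ((1 + ‖c i‖) * (1 + C)) ^ (1 : ℝ) * (τ n) ^ (γ i) := by
            refine mul_le_mul_of_nonneg_right ?_ (Real.rpow_nonneg (hτ0 n).le _)
            refine Real.rpow_le_rpow_of_exponent_le ?_ (w.γlt i).le
            nlinarith [norm_nonneg (c i), mul_nonneg (norm_nonneg (c i)) hC]
        _ = _ := by rw [Real.rpow_one]
    have h3 : (c i v) ≤ ‖c i‖ * ‖v‖ := (le_abs_self _).trans ((c i).le_opNorm v)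
    have h3' : |c i v| ≤ (1 + ‖c i‖) * ‖v‖ := by
      have := (c i).le_opNorm v
      rw [Real.norm_eq_abs] at this
      nlinarith [norm_nonneg v]
    have h4 : f n i = β i * (sg (γ i) (c i (x n)) - sg (γ i) (c i x₁)) * c i v
        / (τ n) ^ (γ i0) := by rw [hf]; ring
    rw [h4, abs_div, abs_of_pos hpos, div_le_iff₀ hpos, abs_mul, abs_mul, abs_of_pos (w.βpos i),
      mul_assoc (β i * (1 + ‖c i‖) ^ 2 * (2 * (1 + C) * ‖v‖)), ← Real.rpow_add (hτ0 n),
      sub_add_cancel]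
    have h5 : |sg (γ i) (c i (x n)) - sg (γ i) (c i x₁)|
        ≤ 2 * (((1 + ‖c i‖) * (1 + C)) * (τ n) ^ (γ i)) := h1.trans (by linarith)
    calc β i * |sg (γ i) (c i (x n)) - sg (γ i) (c i x₁)| * |c i v|
        = β i * (|sg (γ i) (c i (x n)) - sg (γ i) (c i x₁)| * |c i v|) := by ring
      _ ≤ β i * ((2 * (((1 + ‖c i‖) * (1 + C)) * (τ n) ^ (γ i))) * ((1 + ‖c i‖) * ‖v‖)) :=
          mul_le_mul_of_nonneg_left (mul_le_mul h5 h3' (abs_nonneg _) (by
            have := Real.rpow_nonneg (hτ0 n).le (γ i)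
            positivity)) (w.βpos i).le
      _ = _ := by ring
  have hterm : ∀ i, Tendsto (fun n => f n i) atTop (𝓝 (g i)) := by
    intro i
    rcases lt_trichotomy i i0 with hi | hi | hi
    · have hgi : g i = 0 := by rw [hgdef]; simp [hi.ne]
      rw [hgi]
      rcases hlow i hi with h1 | h1
      · have : (fun n => f n i) = fun _ => 0 := by
          ext n; rw [hf]; simp only [h1 n, sub_self, zero_div]
        rw [this]; exact tendsto_const_nhds
      · apply hquot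
        have h2 : Tendsto (fun n => c i (x n)) atTop (𝓝 (c i x₁)) :=
          ((c i).continuous.tendsto x₁).comp hxlim
        have h3 := (sg_bigO (w.γpos i).ne' h1).comp_tendsto h2
        have h4 : (fun n => β i * sg (γ i) (c i (x n)) * c i v - β i * sg (γ i) (c i x₁) * c i v)
            = fun n => (β i * c i v) * (sg (γ i) (c i (x n)) - sg (γ i) (c i x₁)) := by
          ext n; ring
        rw [h4]
        refine (h3.const_mul_left (β i * c i v)).trans ?_
        have h5 : ((fun a => a - c i x₁) ∘ fun n => c i (x n)) = fun n => c i (x n - x₁) := by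
          ext n; simp
        rw [h5]
        exact (c i).isBigO_comp _ _
    · subst hi
      have hgi : g i = β i * c i v := by rw [hgdef]; simp
      rw [hgi]
      have h1 : ∀ n, f n i = (t n) ^ (γ i) * (β i * c i v) := by
        intro n
        rw [hf]
        simp only
        rw [hcx1, sg_zero, hcx n, sg_pos (w.γpos i).ne' (mul_nonneg (ht0 n) (hτ0 n).le),
          Real.mul_rpow (ht0 n) (hτ0 n).le]
        have hpos : 0 < (τ n) ^ (γ i) := Real.rpow_pos_of_pos (hτ0 n) _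
        field_simp
        ring
      have h2 : Tendsto (fun n => (t n) ^ (γ i) * (β i * c i v)) atTop
          (𝓝 ((1 : ℝ) ^ (γ i) * (β i * c i v))) :=
        ((Real.continuousAt_rpow_const 1 (γ i) (Or.inl one_ne_zero)).tendsto.comp ht).mul_const _
      rw [Real.one_rpow, one_mul] at h2
      exact h2.congr fun n => (h1 n).symm
    · have hgi : g i = 0 := by rw [hgdef]; simp [hi.ne']
      rw [hgi]
      have h1 : Tendsto (fun n => β i * (1 + ‖c i‖) ^ 2 * (2 * (1 + C) * ‖v‖)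
          * (τ n) ^ (γ i - γ i0)) atTop (𝓝 0) := by
        have := (tendsto_rpow_zero hτ (sub_pos.2 (w.γmono hi))).const_mul
          (β i * (1 + ‖c i‖) ^ 2 * (2 * (1 + C) * ‖v‖))
        simpa using this
      refine squeeze_zero_norm' ?_ h1
      filter_upwards [hτle] with n hn
      rw [Real.norm_eq_abs]
      exact hhigh i hi n hn
  set bound : ℕ → ℝ := fun i => if i ≤ i0 then |g i| + 1
    else β i * (1 + ‖c i‖) ^ 2 * (2 * (1 + C) * ‖v‖) with hbound
  have hbs : Summable bound := by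
    have h1 : Summable fun i => β i * (1 + ‖c i‖) ^ 2 * (2 * (1 + C) * ‖v‖) :=
      w.summ.mul_right _
    refine (summable_congr_cofinite ?_).2 h1
    show ∀ᶠ i in cofinite, bound i = β i * (1 + ‖c i‖) ^ 2 * (2 * (1 + C) * ‖v‖)
    rw [Filter.eventually_cofinite]
    refine (Set.finite_Iic i0).subset fun i hi => ?_
    by_contra hlt
    apply hi
    rw [hbound]
    simp only [mem_Iic] at hlt
    simp only [hlt, if_false]
  have hbd : ∀ᶠ n in atTop, ∀ i, ‖f n i‖ ≤ bound i := by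
    have h1 : ∀ᶠ n in atTop, ∀ i ∈ Finset.range (i0 + 1), |f n i| ≤ |g i| + 1 := by
      rw [Filter.eventually_all_finset]
      intro i _
      have h2 := (hterm i).abs.eventually (gt_mem_nhds (by linarith : |g i| < |g i| + 1))
      filter_upwards [h2] with n hn
      exact le_of_lt hn
    filter_upwards [h1, hτle] with n hn1 hn2 i
    rw [Real.norm_eq_abs]
    by_cases hi : i ≤ i0
    · have h3 : bound i = |g i| + 1 := by rw [hbound]; simp [hi]
      rw [h3]
      exact hn1 i (Finset.mem_range.2 (by omega))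
    · have h3 : bound i = β i * (1 + ‖c i‖) ^ 2 * (2 * (1 + C) * ‖v‖) := by
        rw [hbound]; simp [hi]
      rw [h3]
      push Not at hi
      refine (hhigh i hi n hn2).trans ?_
      have h4 : (τ n) ^ (γ i - γ i0) ≤ 1 :=
        Real.rpow_le_one (hτ0 n).le hn2 (sub_nonneg.2 (w.γmono hi).le)
      have h5 : 0 ≤ β i * (1 + ‖c i‖) ^ 2 * (2 * (1 + C) * ‖v‖) := by
        have := (w.βpos i).le
        positivity
      exact mul_le_of_le_one_right h5 h4
  have hts := tendsto_tsum_of_dominated_convergence hbs hterm hbd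
  have hgs : ∑' i, g i = β i0 * c i0 v := by
    rw [hgdef]; exact tsum_ite_eq i0 _
  rw [hgs] at hts
  have hfin := h0.add hts
  rw [zero_add] at hfin
  refine hfin.congr fun n => ?_
  rw [w.hG, w.hG]
  have h1 : ∑' i, f n i = (∑' i, β i * sg (γ i) (c i (x n)) * c i v
      - ∑' i, β i * sg (γ i) (c i x₁) * c i v) / (τ n) ^ (γ i0) := by
    rw [hf]
    rw [← (w.summable (x n) v).tsum_sub (w.summable x₁ v), ← tsum_div_const]
  rw [h1]
  ring

end Pool.Agent.Proj
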