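import Pool.Agent.Work.MP_30cf1a_an.Walls

set_option autoImplicit false

/-!
# Walls: the main theorem
-/

namespace Pool.Agent.Proj

open Filter Topology Set

variable {V : Type} [NormedAddCommGroup V] [NormedSpace ℝ V]

theorem norm_lemma2 {q : V → ℝ} {G : V → V →ₗ[ℝ] ℝ} (h : Cvx q G) {x₁ : V} (hx : q x₁ = 1)
    (u : V) {U : Set V} (hU : IsOpen U) (hxU : x₁ ∈ U) :
    ∃ K > 0, ∃ C > 0, ∀ᶠ τ : ℝ in 𝓝 0, ∃ t : ℝ, 0 < t ∧ |t - 1| ≤ K * |τ| ∧
      ‖t • (x₁ + τ • u) - x₁‖ ≤ C * |τ| ∧ t • (x₁ + τ • u) ∈ U ∧ q (t • (x₁ + τ • u)) = 1 := by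
  obtain ⟨K, hK, hev⟩ := norm_lemma h hx u
  obtain ⟨r, hr, hball⟩ := Metric.isOpen_iff.1 hU x₁ hxU
  set C : ℝ := K * ‖x₁‖ + 2 * ‖u‖ + 1 with hC
  have hC0 : 0 < C := by positivity
  refine ⟨K, hK, C, hC0, ?_⟩
  have habs : ∀ a : ℝ, 0 < a → ∀ b : ℝ, 0 < b → ∀ᶠ τ : ℝ in 𝓝 0, a * |τ| < b := by
    intro a ha b hb
    have h1 : Tendsto (fun τ : ℝ => a * |τ|) (𝓝 0) (𝓝 0) := by
      have : Continuous fun τ : ℝ => a * |τ| := continuous_const.mul continuous_abs
      simpa using this.tendsto 0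
    exact h1.eventually (gt_mem_nhds hb)
  filter_upwards [hev, habs K hK (1 / 2) (by norm_num), habs C hC0 r hr] with τ h1 h2 h3
  obtain ⟨t, ht, hqt⟩ := h1
  have hτ := abs_nonneg τ
  have ht2 : |t - 1| < 1 / 2 := lt_of_le_of_lt ht h2
  rw [abs_lt] at ht2
  have ht0 : 0 < t := by linarith
  have hn : ‖t • (x₁ + τ • u) - x₁‖ ≤ C * |τ| := by
    have h4 : t • (x₁ + τ • u) - x₁ = (t - 1) • x₁ + (t * τ) • u := by module
    rw [h4]
    calc ‖(t - 1) • x₁ + (t * τ) • u‖ ≤ ‖(t - 1) • x₁‖ + ‖(t * τ) • u‖ := norm_add_le _ _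
      _ = |t - 1| * ‖x₁‖ + t * |τ| * ‖u‖ := by
          rw [norm_smul, norm_smul, Real.norm_eq_abs, Real.norm_eq_abs, abs_mul, abs_of_pos ht0]
      _ ≤ K * |τ| * ‖x₁‖ + 2 * |τ| * ‖u‖ := by
          refine add_le_add (mul_le_mul_of_nonneg_right ht (norm_nonneg _)) ?_
          refine mul_le_mul_of_nonneg_right ?_ (norm_nonneg _)
          exact mul_le_mul_of_nonneg_right (by linarith) hτ
      _ ≤ C * |τ| := by rw [hC]; nlinarith
  refine ⟨t, ht0, ht, hn, hball ?_, hqt⟩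
  rw [mem_ball_iff_norm]
  exact lt_of_le_of_lt hn h3

section

variable {q : V → ℝ} {G : V → V →ₗ[ℝ] ℝ} {G0 : V → V → ℝ} {β γ : ℕ → ℝ} {c : ℕ → V →L[ℝ] ℝ}
  {P : V →ₗ[ℝ] V} {U : Set V}

theorem wall_step1 (w : Wall G G0 β γ c) (h : Cvx q G) (hPP : ∀ x, P (P x) = P x)
    (hU : IsOpen U) (hinv : ∀ x ∈ U, P x = x → q x = 1 → ∀ v, G x (P v) = G x v)
    {x₁ : V} (hxU : x₁ ∈ U) (hPx : P x₁ = x₁) (hqx : q x₁ = 1) {i0 : ℕ} (hc : c i0 x₁ = 0)
    (hcP : ∃ v, c i0 (P v) ≠ 0)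
    (hlow : ∀ i < i0, (∀ v, c i (P v) = 0) ∨ c i x₁ ≠ 0) (v : V) : c i0 (P v) = c i0 v := by
  have key : ∀ v, P v = 0 → c i0 v = 0 := by
    intro v hv
    obtain ⟨v', hv'⟩ := hcP
    set u : V := (c i0 (P v'))⁻¹ • P v' with hu
    have hPu : P u = u := by rw [hu, map_smul, hPP]
    have hcu : c i0 u = 1 := by rw [hu, map_smul, smul_eq_mul, inv_mul_cancel₀ hv']
    obtain ⟨K, hK, C, hC, hev⟩ := norm_lemma2 h hqx u hU hxU
    obtain ⟨δ, hδ, hball⟩ := Metric.eventually_nhds_iff.1 hev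
    set τ : ℕ → ℝ := fun n => δ / (n + 2) with hτdef
    have hτ0 : ∀ n, 0 < τ n := fun n => by rw [hτdef]; positivity
    have hτlt : ∀ n, dist (τ n) 0 < δ := by
      intro n
      rw [Real.dist_eq, sub_zero, abs_of_pos (hτ0 n), hτdef]
      rw [div_lt_iff₀ (by positivity)]
      nlinarith [(Nat.cast_nonneg n : (0 : ℝ) ≤ n)]
    have hτlim : Tendsto τ atTop (𝓝 0) := by
      have h1 : Tendsto (fun n : ℕ => ((n : ℝ) + 2)) atTop atTop :=
        tendsto_atTop_add_const_right _ _ tendsto_natCast_atTop_atTop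
      exact h1.const_div_atTop δ
    choose t ht0 ht1 ht2 ht3 ht4 using fun n => hball (hτlt n)
    have htlim : Tendsto t atTop (𝓝 1) := by
      rw [tendsto_iff_norm_sub_tendsto_zero]
      refine squeeze_zero (fun n => norm_nonneg _) (fun n => ?_) (by
        simpa using hτlim.const_mul K : Tendsto (fun n => K * τ n) atTop (𝓝 0))
      have := ht1 n
      rwa [abs_of_pos (hτ0 n)] at this
    set x : ℕ → V := fun n => t n • (x₁ + τ n • u) with hx
    have hPxn : ∀ n, P (x n) = x n := by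
      intro n
      rw [hx]
      simp only [map_smul, map_add, hPx, hPu]
    have hlim := wall_limit w (x₁ := x₁) (v := v) (i0 := i0) hτ0 hτlim (x := x) (C := C)
      (fun n => by
        have := ht2 n
        rwa [abs_of_pos (hτ0 n)] at this) (t := t) htlim (fun n => (ht0 n).le) hc
      (fun n => by
        rw [hx]
        simp only [map_smul, map_add, smul_eq_mul, hc, hcu]; ring)
      (fun i hi => by
        rcases hlow i hi with h1 | h1
        · left
          intro n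
          have h2 := h1 (x n)
          have h3 := h1 x₁
          rw [hPxn] at h2
          rw [hPx] at h3
          rw [h2, h3]
        · right; exact h1)
    have hzero : ∀ y, y ∈ U → P y = y → q y = 1 → G y v = 0 := by
      intro y h1 h2 h3
      rw [← hinv y h1 h2 h3 v, hv, map_zero]
    have hlim2 : Tendsto (fun n => (G (x n) v - G x₁ v) / (τ n) ^ (γ i0)) atTop (𝓝 0) := by
      have h1 : (fun n => (G (x n) v - G x₁ v) / (τ n) ^ (γ i0)) = fun _ => 0 := by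
        ext n
        rw [hzero (x n) (ht3 n) (hPxn n) (ht4 n), hzero x₁ hxU hPx hqx, sub_zero, zero_div]
      rw [h1]; exact tendsto_const_nhds
    have h1 := tendsto_nhds_unique hlim hlim2
    rcases mul_eq_zero.1 h1 with h2 | h2
    · exact absurd h2 (w.βpos i0).ne'
    · exact h2
  have h1 := key (v - P v) (by rw [map_sub, hPP, sub_self])
  rw [map_sub] at h1
  linarith

/-- Key claim: each wall class has a representative invariant under `P`. -/
theorem wall_step2 [FiniteDimensional ℝ V] (w : Wall G G0 β γ c) (h : Cvx q G)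
    (hPP : ∀ x, P (P x) = P x)
    (hU : IsOpen U) (hinv : ∀ x ∈ U, P x = x → q x = 1 → ∀ v, G x (P v) = G x v)
    {x : V} (hxU : x ∈ U) (hPx : P x = x) (hqx : q x = 1) {i : ℕ} (hc : c i x = 0)
    (hcP : ∃ v, c i (P v) ≠ 0) :
    ∃ j, (∀ v, c j (P v) = c j v) ∧ ∃ l : ℝ, ∀ v, c i (P v) = l * c j (P v) := by
  classical
  have hex : ∃ j, ∃ l : ℝ, l ≠ 0 ∧ ∀ v, c j (P v) = l * c i (P v) :=
    ⟨i, 1, one_ne_zero, fun v => by rw [one_mul]⟩
  set j := Nat.find hex with hj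
  obtain ⟨l, hl0, hl⟩ := Nat.find_spec hex
  rw [← hj] at hl
  have hmin : ∀ k < j, ∀ l : ℝ, l ≠ 0 → ¬ ∀ v, c k (P v) = l * c i (P v) := by
    intro k hk l' hl' hcon
    exact Nat.find_min hex hk ⟨l', hl', hcon⟩
  have hcjx : c j x = 0 := by
    have := hl x
    rw [hPx, hc, mul_zero] at this
    exact this
  have hcjP : ∃ v, c j (P v) ≠ 0 := by
    obtain ⟨v, hv⟩ := hcP
    exact ⟨v, by rw [hl]; exact mul_ne_zero hl0 hv⟩
  refine ⟨j, ?_, l⁻¹, fun v => by rw [hl, ← mul_assoc, inv_mul_cancel₀ hl0, one_mul]⟩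
  -- choose a generic direction in the wall
  set H : Submodule ℝ V := LinearMap.ker (P - LinearMap.id) ⊓ LinearMap.ker (c j : V →ₗ[ℝ] ℝ)
    with hH
  have memH : ∀ y, y ∈ H ↔ P y = y ∧ c j y = 0 := by
    intro y
    rw [hH, Submodule.mem_inf, LinearMap.mem_ker, LinearMap.mem_ker, LinearMap.sub_apply,
      LinearMap.id_apply, sub_eq_zero]
    rfl
  set I : Set ℕ := {k | k < j ∧ ∃ v, c k (P v) ≠ 0} with hI
  have hIfin : I.Finite := (Set.finite_Iio j).subset fun k hk => hk.1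
  obtain ⟨⟨u, huH⟩, -, hu⟩ := exists_avoid (D := H)
    ((fun k : ℕ => LinearMap.ker ((c k : V →ₗ[ℝ] ℝ) ∘ₗ H.subtype)) '' I)
    (hIfin.image _).countable (by
      rintro _ ⟨k, ⟨hkj, v, hv⟩, rfl⟩ htop
      have h1 : ∀ y, P y = y → c j y = 0 → c k y = 0 := by
        intro y hy1 hy2
        have h2 : (⟨y, (memH y).2 ⟨hy1, hy2⟩⟩ : H) ∈
            LinearMap.ker ((c k : V →ₗ[ℝ] ℝ) ∘ₗ H.subtype) := by
          have h3 : LinearMap.ker ((c k : V →ₗ[ℝ] ℝ) ∘ₗ H.subtype) = ⊤ := htop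
          rw [h3]; exact Submodule.mem_top
        exact h2
      obtain ⟨v', hv'⟩ := hcjP
      set e : V := (c j (P v'))⁻¹ • P v' with he
      have hPe : P e = e := by rw [he, map_smul, hPP]
      have hce : c j e = 1 := by rw [he, map_smul, smul_eq_mul, inv_mul_cancel₀ hv']
      have h2 : ∀ y, c k (P y) = c k e * c j (P y) := by
        intro y
        have h3 := h1 (P y - c j (P y) • e) (by rw [map_sub, map_smul, hPP, hPe])
          (by rw [map_sub, map_smul, hce, smul_eq_mul, mul_one, sub_self])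
        rw [map_sub, map_smul, smul_eq_mul] at h3
        linarith
      have h4 : c k e ≠ 0 := by
        intro h5
        apply hv
        rw [h2, h5, zero_mul]
      refine hmin k hkj (c k e * l) (mul_ne_zero h4 hl0) fun y => ?_
      rw [h2, hl, mul_assoc]) isOpen_univ ⟨0, trivial⟩
  obtain ⟨hPu, hcu⟩ := (memH u).1 huH
  have hu' : ∀ k ∈ I, c k u ≠ 0 := by
    intro k hk hcon
    exact hu _ ⟨k, hk, rfl⟩ (by rw [LinearMap.mem_ker]; exact hcon)
  obtain ⟨K, hK, C, hC, hev⟩ := norm_lemma2 h hqx u hU hxU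
  have hev1 : ∀ᶠ τ : ℝ in 𝓝[>] 0, ∀ k ∈ hIfin.toFinset, c k (x + τ • u) ≠ 0 := by
    rw [Filter.eventually_all_finset]
    intro k hk
    have hku := hu' k ((hIfin.mem_toFinset).1 hk)
    by_cases hkx : c k x = 0
    · filter_upwards [self_mem_nhdsWithin] with τ hτ
      have hτ0 : (0 : ℝ) < τ := hτ
      rw [map_add, map_smul, hkx, zero_add, smul_eq_mul]
      exact mul_ne_zero hτ0.ne' hku
    · have h1 : Tendsto (fun τ : ℝ => c k (x + τ • u)) (𝓝[>] 0) (𝓝 (c k x)) := by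
        have h2 : Continuous fun τ : ℝ => c k (x + τ • u) :=
          (c k).continuous.comp (continuous_const.add (continuous_id.smul continuous_const))
        have h3 := (h2.tendsto 0).mono_left (nhdsWithin_le_nhds (s := Ioi 0))
        simpa using h3
      exact h1.eventually_ne hkx
  obtain ⟨τ, ⟨t, ht0, _, _, htU, htq⟩, hτ2⟩ :=
    ((hev.filter_mono (nhdsWithin_le_nhds (s := Ioi 0))).and hev1).exists
  refine wall_step1 w h hPP hU hinv (x₁ := t • (x + τ • u)) htU ?_ htq ?_ hcjP ?_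
  · rw [map_smul, map_add, map_smul, hPx, hPu]
  · rw [map_smul, map_add, map_smul, hcjx, hcu, smul_zero, add_zero, smul_zero]
  · intro k hk
    by_cases hkP : ∃ v, c k (P v) ≠ 0
    · right
      rw [map_smul, smul_eq_mul]
      exact mul_ne_zero ht0.ne' (hτ2 k ((hIfin.mem_toFinset).2 ⟨hk, hkP⟩))
    · left
      intro v
      by_contra hv
      exact hkP ⟨v, hv⟩

theorem walls [FiniteDimensional ℝ V] (w : Wall G G0 β γ c) (h : Cvx q G)
    (hdense : DenseRange c)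
    (hgen : ∀ H : Submodule ℝ (V →L[ℝ] ℝ), H ≠ ⊤ → {i | c i ∈ H}.Finite)
    (hPP : ∀ x, P (P x) = P x) (hne : ∃ v, P v ≠ v)
    (hr2 : ∀ f : V →L[ℝ] ℝ, ∃ u, P u = u ∧ u ≠ 0 ∧ f u = 0)
    (hU : IsOpen U) (hinv : ∀ x ∈ U, P x = x → q x = 1 → ∀ v, G x (P v) = G x v)
    {x₀ : V} (hxU : x₀ ∈ U) (hPx : P x₀ = x₀) (hqx : q x₀ = 1) : False := by
  classical
  set N : Submodule ℝ (V →L[ℝ] ℝ) :=
    { carrier := {f | ∀ v, f (P v) = f v}
      add_mem' := fun {f g} hf hg v => by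
        have h1 := hf v
        have h2 := hg v
        simp only [_root_.add_apply]
        rw [h1, h2]
      zero_mem' := fun v => by simp
      smul_mem' := fun a f hf v => by
        have h1 := hf v
        simp only [_root_.smul_apply]
        rw [h1] } with hN
  have hNtop : N ≠ ⊤ := by
    intro htop
    obtain ⟨v, hv⟩ := hne
    obtain ⟨f, hf⟩ := SeparatingDual.exists_ne_zero (R := ℝ) (sub_ne_zero.2 hv)
    have h1 : f ∈ N := by rw [htop]; exact Submodule.mem_top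
    have h2 : f (P v) = f v := h1 v
    apply hf
    rw [map_sub, h2, sub_self]
  have hJ : {j | c j ∈ N}.Finite := hgen N hNtop
  set W : ℕ → Submodule ℝ (V →L[ℝ] ℝ) := fun j =>
    { carrier := {f | ∃ l : ℝ, ∀ v, f (P v) = l * c j (P v)}
      add_mem' := by
        rintro f g ⟨l, hl⟩ ⟨m, hm⟩
        refine ⟨l + m, fun v => ?_⟩
        simp only [_root_.add_apply]
        rw [hl, hm]; ring
      zero_mem' := ⟨0, fun v => by simp⟩
      smul_mem' := by
        rintro a f ⟨l, hl⟩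
        refine ⟨a * l, fun v => ?_⟩
        simp only [_root_.smul_apply, smul_eq_mul]
        rw [hl]; ring } with hW
  have hWtop : ∀ j, W j ≠ ⊤ := by
    intro j htop
    obtain ⟨u, hPu, hu0, hcu⟩ := hr2 (c j)
    obtain ⟨f, hf⟩ := SeparatingDual.exists_ne_zero (R := ℝ) hu0
    have h1 : f ∈ W j := by rw [htop]; exact Submodule.mem_top
    obtain ⟨l, hl⟩ := h1
    have h2 := hl u
    rw [hPu, hcu, mul_zero] at h2
    exact hf h2
  have hWfin : ∀ j, {i | c i ∈ W j}.Finite := fun j => hgen _ (hWtop j)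
  set 𝒞 : Set ℕ := {i | (∃ v, c i (P v) ≠ 0) ∧ ∃ x ∈ U, P x = x ∧ q x = 1 ∧ c i x = 0} with h𝒞
  have h𝒞fin : 𝒞.Finite := by
    refine (hJ.biUnion fun j _ => hWfin j).subset fun i hi => ?_
    obtain ⟨hi1, x, hxU', hPx', hqx', hcx⟩ := hi
    obtain ⟨j, hj1, l, hl⟩ := wall_step2 w h hPP hU hinv hxU' hPx' hqx' hcx hi1
    rw [mem_iUnion₂]
    exact ⟨j, hj1, l, hl⟩
  -- the generic functional
  have hx0 : x₀ ≠ 0 := by
    rintro rfl
    have := h.zero
    linarith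
  obtain ⟨f₁, hf₁⟩ := SeparatingDual.exists_eq_one (R := ℝ) hx0
  obtain ⟨u₀, hPu₀, hu₀, hf₁u⟩ := hr2 f₁
  obtain ⟨f₂, hf₂⟩ := SeparatingDual.exists_eq_one (R := ℝ) hu₀
  set f : V →L[ℝ] ℝ := f₂ - f₂ x₀ • f₁ with hf
  have hfx : f x₀ = 0 := by
    rw [hf]; simp [hf₁]
  have hfu : f u₀ = 1 := by
    rw [hf]; simp [hf₁u, hf₂]
  have hntV : Nontrivial (V →L[ℝ] ℝ) := ⟨f, 0, fun h0 => by
    rw [h0] at hfu; simp at hfu⟩
  obtain ⟨K, hK, C, hC, hev⟩ := norm_lemma2 h hqx u₀ hU hxU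
  obtain ⟨δ, hδ, hball⟩ := Metric.eventually_nhds_iff.1 hev
  set O : Set (V →L[ℝ] ℝ) := {g | 1 / 2 < g u₀ ∧ |g x₀| < δ / 2} with hO
  have hOopen : IsOpen O := by
    have h1 : Continuous fun g : V →L[ℝ] ℝ => g u₀ := ContinuousLinearMap.apply ℝ ℝ u₀ |>.continuous
    have h2 : Continuous fun g : V →L[ℝ] ℝ => |g x₀| :=
      (ContinuousLinearMap.apply ℝ ℝ x₀ |>.continuous).abs
    exact (isOpen_lt continuous_const h1).inter (isOpen_lt h2 continuous_const)
  have hfO : f ∈ O := by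
    refine ⟨?_, ?_⟩
    · rw [hfu]; norm_num
    · rw [hfx, abs_zero]; exact half_pos hδ
  have hdd : Dense (range c \ (c '' 𝒞)) := Dense.sdiff_finite hdense (h𝒞fin.image c)
  obtain ⟨_, hgO, ⟨i, rfl⟩, hi⟩ := hdd.inter_open_nonempty O hOopen ⟨f, hfO⟩
  apply hi
  refine ⟨i, ?_, rfl⟩
  obtain ⟨h1, h2⟩ := hgO
  have h3 : 0 < c i u₀ := by linarith
  set τ : ℝ := - (c i x₀ / c i u₀) with hτ
  have hτlt : dist τ 0 < δ := by
    rw [Real.dist_eq, sub_zero, hτ, abs_neg, abs_div, abs_of_pos h3, div_lt_iff₀ h3]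
    nlinarith
  obtain ⟨t, ht0, _, _, htU, htq⟩ := hball hτlt
  refine ⟨⟨u₀, by rw [hPu₀]; exact h3.ne'⟩, t • (x₀ + τ • u₀), htU, ?_, htq, ?_⟩
  · rw [map_smul, map_add, map_smul, hPx, hPu₀]
  · rw [map_smul, map_add, map_smul, smul_eq_mul, smul_eq_mul, hτ]
    have : -(c i x₀ / c i u₀) * c i u₀ = - c i x₀ := by field_simp
    rw [this, add_neg_cancel, mul_zero]

end

end Pool.Agent.Proj
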